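import Mathlib
import Pool.Agent.Zk32.MeanF
import Pool.Agent.H505RS.BPE

/-!
# The pointwise ergodic theorem for rectangles and bounded functions
-/

set_option autoImplicit false
set_option linter.all false

open MeasureTheory Filter Topology Set

namespace Pool.Agent.Zk78.PW

open Pool.Agent.R202.TM (JointErg)

variable {X : Type*} [MeasurableSpace X]

/-- one dimensional averages -/
noncomputable def A (R : X → X) (f : X → ℝ) (n : ℕ) (x : X) : ℝ :=
  (n : ℝ)⁻¹ * ∑ k ∈ Finset.range n, f (R^[k] x)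

/-- rectangle averages -/
noncomputable def A2 (S T : X → X) (f : X → ℝ) (m n : ℕ) (x : X) : ℝ :=
  ((m : ℝ) * n)⁻¹ * ∑ i ∈ Finset.range m, ∑ j ∈ Finset.range n, f (T^[j] (S^[i] x))

lemma A_meas {R : X → X} (hR : Measurable R) {f : X → ℝ} (hf : Measurable f) (n : ℕ) :
    Measurable (A R f n) := by
  unfold A
  exact Measurable.const_mul (Finset.measurable_fun_sum _ fun k _ => hf.comp (hR.iterate k)) _

lemma A_abs {R : X → X} {f : X → ℝ} {C : ℝ} (hC : 0 ≤ C) (hb : ∀ x, |f x| ≤ C) (n : ℕ) (x : X) :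
    |A R f n x| ≤ C := by
  unfold A
  rcases Nat.eq_zero_or_pos n with h0 | h0
  · subst h0; simpa using hC
  · have hn : (0 : ℝ) < n := by exact_mod_cast h0
    rw [abs_mul, abs_inv, Nat.abs_cast, inv_mul_le_iff₀ hn]
    calc |∑ k ∈ Finset.range n, f (R^[k] x)| ≤ ∑ k ∈ Finset.range n, |f (R^[k] x)| :=
          Finset.abs_sum_le_sum_abs _ _
      _ ≤ ∑ _k ∈ Finset.range n, C := Finset.sum_le_sum fun k _ => hb _
      _ = n * C := by simp

lemma A_mono {R : X → X} {f g : X → ℝ} (n : ℕ) (x : X) (h : ∀ y, f y ≤ g y) :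
    A R f n x ≤ A R g n x := by
  unfold A
  apply mul_le_mul_of_nonneg_left _ (by positivity)
  exact Finset.sum_le_sum fun k _ => h _

lemma comm_iter {S T : X → X} (hST : ∀ x, S (T x) = T (S x)) (i j : ℕ) (x : X) :
    T^[j] (S^[i] x) = S^[i] (T^[j] x) := by
  have h : Function.Commute S T := hST
  exact ((h.iterate_iterate i j) x).symm

lemma A2_eq {S T : X → X} (hST : ∀ x, S (T x) = T (S x)) (f : X → ℝ) (m n : ℕ) (x : X) :
    A2 S T f m n x = A T (A S f m) n x := by
  unfold A2 A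
  rw [Finset.sum_comm, mul_inv, mul_comm ((m : ℝ)⁻¹), mul_assoc, Finset.mul_sum]
  congr 1
  apply Finset.sum_congr rfl
  intro j _
  congr 1
  apply Finset.sum_congr rfl
  intro i _
  rw [comm_iter hST]

/-- the limit function of the averages -/
lemma lim1 {μ : Measure X} [IsProbabilityMeasure μ] {R : X → X} (hR : MeasurePreserving R μ μ)
    {f : X → ℝ} (hf : Measurable f) {C : ℝ} (hC : 0 ≤ C) (hb : ∀ x, |f x| ≤ C) :
    ∃ P : X → ℝ, Measurable P ∧ (∀ x, |P x| ≤ C) ∧ ∫ x, P x ∂μ = ∫ x, f x ∂μ ∧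
      ∀ᵐ x ∂μ, Tendsto (fun n => A R f n x) atTop (𝓝 (P x)) := by
  have hle := MeasurableSpace.invariants_le R
  have hcm : Measurable[MeasurableSpace.invariants R] (μ[f | MeasurableSpace.invariants R]) :=
    stronglyMeasurable_condExp.measurable
  have hcm' : Measurable (μ[f | MeasurableSpace.invariants R]) := hcm.mono hle le_rfl
  have hbd : ∀ᵐ x ∂μ, |(μ[f | MeasurableSpace.invariants R]) x| ≤ C :=
    ae_bdd_abs_condExp_of_ae_bdd_abs (m := MeasurableSpace.invariants R) (μ := μ)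
      (f := f) (R := C) (Filter.Eventually.of_forall hb)
  have hgeq : ∀ᵐ x ∂μ, max (-C) (min C ((μ[f | MeasurableSpace.invariants R]) x)) =
      (μ[f | MeasurableSpace.invariants R]) x := by
    filter_upwards [hbd] with x hx
    rw [abs_le] at hx
    rw [min_eq_right hx.2, max_eq_right hx.1]
  refine ⟨fun x => max (-C) (min C ((μ[f | MeasurableSpace.invariants R]) x)),
    measurable_const.max (measurable_const.min hcm'), ?_, ?_, ?_⟩
  · intro x
    rw [abs_le]
    exact ⟨le_max_left _ _, max_le (by linarith) (min_le_left _ _)⟩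
  · rw [integral_congr_ae hgeq]
    exact integral_condExp hle
  · filter_upwards [hgeq, Pool.Agent.H505RS.BPE.birkhoff hR f hf C hb] with x h1 h2
    rw [h1]
    exact h2

/-- the remainder -/
noncomputable def H (S : X → X) (f P : X → ℝ) (K : ℕ) (x : X) : ℝ :=
  ⨆ M : ℕ, |A S f (K + M) x - P x|

lemma H_bdd {S : X → X} {f P : X → ℝ} (hb : ∀ x, |f x| ≤ 1) (hP : ∀ x, |P x| ≤ 1) (K : ℕ) (x : X) :
    BddAbove (range fun M : ℕ => |A S f (K + M) x - P x|) := by
  refine ⟨2, ?_⟩
  rintro _ ⟨M, rfl⟩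
  have h1 := A_abs (R := S) zero_le_one hb (K + M) x
  have h2 := hP x
  have h3 := abs_sub (A S f (K + M) x) (P x)
  show |A S f (K + M) x - P x| ≤ 2
  linarith

lemma H_nonneg (S : X → X) (f P : X → ℝ) (K : ℕ) (x : X) : 0 ≤ H S f P K x :=
  Real.iSup_nonneg fun _ => abs_nonneg _

lemma H_le {S : X → X} {f P : X → ℝ} (hb : ∀ x, |f x| ≤ 1) (hP : ∀ x, |P x| ≤ 1) (K : ℕ) (x : X) :
    H S f P K x ≤ 2 := by
  unfold H
  apply ciSup_le
  intro M
  have h1 := A_abs (R := S) zero_le_one hb (K + M) x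
  have h2 := hP x
  have h3 := abs_sub (A S f (K + M) x) (P x)
  linarith

lemma H_ge {S : X → X} {f P : X → ℝ} (hb : ∀ x, |f x| ≤ 1) (hP : ∀ x, |P x| ≤ 1) {K M : ℕ}
    (h : K ≤ M) (x : X) : |A S f M x - P x| ≤ H S f P K x := by
  have h1 := le_ciSup (H_bdd (S := S) hb hP K x) (M - K)
  have h2 : K + (M - K) = M := by omega
  rw [h2] at h1
  exact h1

lemma H_meas {S : X → X} (hS : Measurable S) {f P : X → ℝ} (hf : Measurable f)
    (hP : Measurable P) (K : ℕ) : Measurable (H S f P K) := by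
  unfold H
  apply Measurable.iSup
  intro M
  exact ((A_meas hS hf (K + M)).sub hP).abs

lemma H_lim {S : X → X} {f P : X → ℝ} {x : X}
    (h : Tendsto (fun n => A S f n x) atTop (𝓝 (P x))) :
    Tendsto (fun K => H S f P K x) atTop (𝓝 0) := by
  rw [Metric.tendsto_atTop] at h ⊢
  intro ε hε
  obtain ⟨N, hN⟩ := h (ε / 2) (by positivity)
  refine ⟨N, fun K hK => ?_⟩
  rw [Real.dist_eq, sub_zero, abs_of_nonneg (H_nonneg S f P K x)]
  have h1 : H S f P K x ≤ ε / 2 := by
    unfold H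
    apply ciSup_le
    intro M
    have h2 := hN (K + M) (by omega)
    rw [Real.dist_eq] at h2
    exact h2.le
  linarith

lemma A2_diff {S T : X → X} (hST : ∀ x, S (T x) = T (S x)) {f P : X → ℝ} (hb : ∀ x, |f x| ≤ 1)
    (hP : ∀ x, |P x| ≤ 1) {K m : ℕ} (hK : K ≤ m) (n : ℕ) (x : X) :
    |A2 S T f m n x - A T P n x| ≤ A T (H S f P K) n x := by
  rw [A2_eq hST]
  unfold A
  rw [← mul_sub, ← Finset.sum_sub_distrib, abs_mul, abs_inv, Nat.abs_cast]
  apply mul_le_mul_of_nonneg_left _ (by positivity)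
  refine (Finset.abs_sum_le_sum_abs _ _).trans ?_
  apply Finset.sum_le_sum
  intro j _
  exact H_ge hb hP hK _

/-- a limit of the rectangle averages exists -/
theorem exists_lim {S T : X → X} {μ : Measure X} [IsProbabilityMeasure μ]
    (hS : MeasurePreserving S μ μ) (hT : MeasurePreserving T μ μ) (hST : ∀ x, S (T x) = T (S x))
    {f : X → ℝ} (hf : Measurable f) (hb : ∀ x, |f x| ≤ 1) :
    ∃ R : X → ℝ, Measurable R ∧ (∀ x, |R x| ≤ 1) ∧
      ∀ᵐ x ∂μ, Tendsto (fun n : ℕ × ℕ => A2 S T f n.1 n.2 x) atTop (𝓝 (R x)) := by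
  obtain ⟨P, hPm, hPb, -, hP⟩ := lim1 hS hf zero_le_one hb
  obtain ⟨R, hRm, hRb, -, hR⟩ := lim1 hT hPm zero_le_one hPb
  have hHb : ∀ K x, |H S f P K x| ≤ 2 := fun K x => by
    rw [abs_of_nonneg (H_nonneg S f P K x)]
    exact H_le hb hPb K x
  have hHm : ∀ K, Measurable (H S f P K) := fun K => H_meas hS.measurable hf hPm K
  choose Q hQm hQb hQi hQ using fun K => lim1 hT (hHm K) (zero_le_two) (hHb K)
  have hHlim : Tendsto (fun K => ∫ x, H S f P K x ∂μ) atTop (𝓝 0) := by
    have h0 : (0 : ℝ) = ∫ x, (0 : ℝ) ∂μ := by simp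
    rw [h0]
    apply tendsto_integral_of_dominated_convergence (fun _ => (2 : ℝ))
    · intro K
      exact (hHm K).aestronglyMeasurable
    · exact integrable_const _
    · intro K
      exact Eventually.of_forall fun x => hHb K x
    · filter_upwards [hP] with x hx
      exact H_lim hx
  have hQlim : Tendsto (fun K => ∫ x, Q K x ∂μ) atTop (𝓝 0) := by
    simp only [hQi]
    exact hHlim
  have hQn : ∀ᵐ x ∂μ, ∀ K, 0 ≤ Q K x := by
    rw [ae_all_iff]
    intro K
    filter_upwards [hQ K] with x hx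
    apply ge_of_tendsto' hx
    intro n
    unfold A
    exact mul_nonneg (by positivity) (Finset.sum_nonneg fun k _ => H_nonneg _ _ _ _ _)
  have hQi' : ∀ K, Integrable (Q K) μ := fun K => by
    refine Integrable.mono' (integrable_const (2 : ℝ)) (hQm K).aestronglyMeasurable ?_
    exact Eventually.of_forall fun x => hQb K x
  have hsmall : ∀ᵐ x ∂μ, ∀ m : ℕ, ∃ K, Q K x < 1 / ((m : ℝ) + 1) := by
    rw [ae_all_iff]
    intro m
    have hm : (0 : ℝ) < 1 / ((m : ℝ) + 1) := by positivity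
    rw [ae_iff]
    by_contra hne
    have hpos : 0 < μ.real {x | ¬∃ K, Q K x < 1 / ((m : ℝ) + 1)} := by
      rw [measureReal_def]
      exact ENNReal.toReal_pos hne (measure_ne_top _ _)
    obtain ⟨N, hN⟩ := (Metric.tendsto_atTop.1 hQlim)
      (1 / ((m : ℝ) + 1) * μ.real {x | ¬∃ K, Q K x < 1 / ((m : ℝ) + 1)}) (by positivity)
    have h1 := hN N le_rfl
    rw [Real.dist_eq, sub_zero] at h1
    have h2 := mul_meas_ge_le_integral_of_nonneg (hQn.mono fun x hx => hx N) (hQi' N)
      (1 / ((m : ℝ) + 1))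
    have h3 : μ.real {x | ¬∃ K, Q K x < 1 / ((m : ℝ) + 1)} ≤
        μ.real {x | 1 / ((m : ℝ) + 1) ≤ Q N x} := by
      apply measureReal_mono
      · intro x hx
        simp only [mem_setOf_eq, not_exists, not_lt] at hx
        exact hx N
      · exact measure_ne_top _ _
    have h4 := le_abs_self (∫ x, Q N x ∂μ)
    have h5 := mul_le_mul_of_nonneg_left h3 hm.le
    linarith
  refine ⟨R, hRm, hRb, ?_⟩
  have hQall : ∀ᵐ x ∂μ, ∀ K, Tendsto (fun n => A T (H S f P K) n x) atTop (𝓝 (Q K x)) := by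
    rw [ae_all_iff]
    exact hQ
  filter_upwards [hR, hQall, hsmall] with x h1 h2 h3
  rw [Metric.tendsto_atTop]
  intro ε hε
  obtain ⟨m, hm⟩ := exists_nat_one_div_lt (show (0 : ℝ) < ε / 3 by positivity)
  obtain ⟨K, hK⟩ := h3 m
  obtain ⟨N1, hN1⟩ := (Metric.tendsto_atTop.1 (h2 K)) (ε / 3) (by positivity)
  obtain ⟨N2, hN2⟩ := (Metric.tendsto_atTop.1 h1) (ε / 3) (by positivity)
  refine ⟨(K, max N1 N2), ?_⟩
  rintro ⟨a, b⟩ hab
  have ha : K ≤ a := hab.1
  have hb1 : N1 ≤ b := (le_max_left _ _).trans hab.2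
  have hb2 : N2 ≤ b := (le_max_right _ _).trans hab.2
  have e1 := hN1 b hb1
  have e2 := hN2 b hb2
  have e3 := A2_diff hST hb hPb ha b x
  rw [Real.dist_eq] at e1 e2 ⊢
  have e4 := (abs_lt.1 e1).2
  have e5 : |A2 S T f a b x - R x| ≤ |A2 S T f a b x - A T P b x| + |A T P b x - R x| := by
    have : A2 S T f a b x - R x = (A2 S T f a b x - A T P b x) + (A T P b x - R x) := by ring
    rw [this]
    exact abs_add_le _ _
  show |A2 S T f a b x - R x| < ε
  linarith

lemma AVf_eq (S T : X → X) (f : X → ℝ) (N M : ℕ) (x : X) :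
    Pool.Agent.Zk32.AVf S T (fun y => (f y : ℂ)) 0 N 0 M x = ((A2 S T f N M x : ℝ) : ℂ) := by
  unfold Pool.Agent.Zk32.AVf A2
  push_cast
  rw [mul_inv, mul_assoc, ← Finset.mul_sum]
  simp only [zero_add]

lemma A2_abs {S T : X → X} (hST : ∀ x, S (T x) = T (S x)) {f : X → ℝ} (hb : ∀ x, |f x| ≤ 1)
    (m n : ℕ) (x : X) : |A2 S T f m n x| ≤ 1 := by
  rw [A2_eq hST]
  exact A_abs zero_le_one (A_abs zero_le_one hb m) n x

lemma A2_meas {S T : X → X} (hS : Measurable S) (hT : Measurable T)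
    (hST : ∀ x, S (T x) = T (S x)) {f : X → ℝ} (hf : Measurable f) (m n : ℕ) :
    Measurable (A2 S T f m n) := by
  have : A2 S T f m n = A T (A S f m) n := funext fun x => A2_eq hST f m n x
  rw [this]
  exact A_meas hT (A_meas hS hf m) n

/-- **the pointwise ergodic theorem for rectangles**, bounded functions -/
theorem rect_pointwise {X : Type*} [MeasurableSpace X] {S T : X → X} {mu : Measure X}
    [IsProbabilityMeasure mu] (h : Pool.Agent.R202.TM.JointErg S T mu)
    (hS : MeasurePreserving S mu mu) (hT : MeasurePreserving T mu mu)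
    (hST : ∀ x, S (T x) = T (S x)) {f : X → ℝ} (hf : Measurable f) (hb : ∀ x, |f x| ≤ 1) :
    ∀ᵐ x ∂mu, Tendsto (fun n : ℕ × ℕ => ((n.1 : ℝ) * n.2)⁻¹ *
      ∑ i ∈ Finset.range n.1, ∑ j ∈ Finset.range n.2, f (T^[j] (S^[i] x))) atTop
      (𝓝 (∫ y, f y ∂mu)) := by
  obtain ⟨R, hRm, hRb, hR⟩ := exists_lim hS hT hST hf hb
  set c : ℝ := ∫ y, f y ∂mu with hc
  have hcb : |c| ≤ 1 := by
    have h1 := norm_integral_le_of_norm_le_const (μ := mu) (f := f) (C := 1)
      (Eventually.of_forall fun x => by simpa using hb x)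
    simpa using h1
  -- the averages over squares
  have hfC : Measurable fun y => (f y : ℂ) := Complex.measurable_ofReal.comp hf
  have hbC : ∀ y, ‖(f y : ℂ)‖ ≤ 1 := fun y => by
    rw [Complex.norm_real]
    exact hb y
  have hint : ∫ y, (f y : ℂ) ∂mu = (c : ℂ) := integral_ofReal
  have hD : Tendsto (fun N : ℕ => ∫ x, |A2 S T f N N x - c| ∂mu) atTop (𝓝 0) := by
    rw [Metric.tendsto_atTop]
    intro ε hε
    obtain ⟨N₀, hN₀⟩ := Pool.Agent.Zk32.fn_box h hS hT hST hfC hbC
      (show (0 : ℝ) < ε / 2 by positivity)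
    refine ⟨N₀, fun N hN => ?_⟩
    have h1 := hN₀ N N hN hN 0 0
    rw [hint] at h1
    have h2 : ∀ x, ‖Pool.Agent.Zk32.AVf S T (fun y => (f y : ℂ)) 0 N 0 N x - (c : ℂ)‖ =
        |A2 S T f N N x - c| := by
      intro x
      rw [AVf_eq, ← Complex.ofReal_sub, Complex.norm_real]
      rfl
    simp only [h2] at h1
    rw [Real.dist_eq, sub_zero, abs_of_nonneg (integral_nonneg fun x => abs_nonneg _)]
    linarith
  have hdiag : Tendsto (fun N : ℕ => (N, N)) atTop (atTop : Filter (ℕ × ℕ)) := by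
    rw [← prod_atTop_atTop_eq]
    exact tendsto_id.prodMk tendsto_id
  have hD' : Tendsto (fun N : ℕ => ∫ x, |A2 S T f N N x - c| ∂mu) atTop
      (𝓝 (∫ x, |R x - c| ∂mu)) := by
    apply tendsto_integral_of_dominated_convergence (fun _ => (2 : ℝ))
    · intro N
      exact (((A2_meas hS.measurable hT.measurable hST hf N N).sub
        measurable_const).abs).aestronglyMeasurable
    · exact integrable_const _
    · intro N
      refine Eventually.of_forall fun x => ?_
      rw [Real.norm_eq_abs, abs_abs]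
      have h1 := A2_abs hST hb N N x
      have h2 := abs_sub (A2 S T f N N x) c
      linarith
    · filter_upwards [hR] with x hx
      exact ((hx.comp hdiag).sub_const c).abs
  have hzero : ∫ x, |R x - c| ∂mu = 0 := tendsto_nhds_unique hD' hD
  have hinteg : Integrable (fun x => |R x - c|) mu := by
    refine Integrable.mono' (integrable_const (2 : ℝ))
      ((hRm.sub measurable_const).abs).aestronglyMeasurable ?_
    refine Eventually.of_forall fun x => ?_
    rw [Real.norm_eq_abs, abs_abs]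
    have h1 := hRb x
    have h2 := abs_sub (R x) c
    linarith
  have hae : (fun x => |R x - c|) =ᵐ[mu] 0 :=
    (integral_eq_zero_iff_of_nonneg (fun x => abs_nonneg _) hinteg).1 hzero
  filter_upwards [hR, hae] with x h1 h2
  have h3 : R x = c := by
    have h4 : |R x - c| = 0 := h2
    have h5 := abs_eq_zero.1 h4
    linarith
  rw [h3] at h1
  exact h1

end Pool.Agent.Zk78.PW
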