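import Mathlib
import Pool.Agent.H974R2.Basic

/-!
Weak convergence from couplings: if two sequences of laws on a metric space are coupled, through
finite configuration spaces, with distance tending to zero in probability, then they have the same
weak limits.
-/

set_option autoImplicit false

namespace Pool.Agent.Zk60.NW

open MeasureTheory Filter Topology

theorem diff_le {E : Type*} [DecidableEq E] {X : Type*} [PseudoMetricSpace X]
    (T : Finset (Finset E)) (c : Finset E → Finset E → ℝ) (f : Finset E → X)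
    (hc : ∀ F F', 0 ≤ c F F') (h1 : ∑ F ∈ T, ∑ F' ∈ T, c F F' = 1)
    (G : X → ℝ) {C L ρ : ℝ} (hC : ∀ x y, |G x - G y| ≤ C)
    (hL : ∀ x y, |G x - G y| ≤ L * dist x y) (hL0 : 0 ≤ L) (hρ : 0 ≤ ρ) :
    |∑ F ∈ T, ∑ F' ∈ T, c F F' * G (f F) - ∑ F ∈ T, ∑ F' ∈ T, c F F' * G (f F')| ≤
      L * ρ + C * ∑ F ∈ T, ∑ F' ∈ T, c F F' * H974.ind (ρ < dist (f F) (f F')) := by
  have e1 : L * ρ + C * ∑ F ∈ T, ∑ F' ∈ T, c F F' * H974.ind (ρ < dist (f F) (f F')) =
      ∑ F ∈ T, ∑ F' ∈ T, (c F F' * (L * ρ) +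
        C * (c F F' * H974.ind (ρ < dist (f F) (f F')))) := by
    simp_rw [Finset.sum_add_distrib, ← Finset.sum_mul, ← Finset.mul_sum]
    rw [h1, one_mul]
  rw [e1, ← Finset.sum_sub_distrib]
  refine (Finset.abs_sum_le_sum_abs _ _).trans (Finset.sum_le_sum fun F _ => ?_)
  rw [← Finset.sum_sub_distrib]
  refine (Finset.abs_sum_le_sum_abs _ _).trans (Finset.sum_le_sum fun F' _ => ?_)
  rw [← mul_sub, abs_mul, abs_of_nonneg (hc F F')]
  have hcc := hc F F'
  by_cases h : ρ < dist (f F) (f F')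
  · rw [H974.ind_of h]
    have := mul_le_mul_of_nonneg_left (hC (f F) (f F')) hcc
    have h3 : 0 ≤ c F F' * (L * ρ) := by positivity
    linarith
  · rw [H974.ind_not_of h]
    push Not at h
    have h2 : |G (f F) - G (f F')| ≤ L * ρ :=
      (hL _ _).trans (mul_le_mul_of_nonneg_left h hL0)
    have := mul_le_mul_of_nonneg_left h2 hcc
    linarith

theorem weak_of_coupling {E : Type*} [DecidableEq E] {X : Type*} [PseudoMetricSpace X]
    [MeasurableSpace X] [BorelSpace X] (μ ν : ℕ → ProbabilityMeasure X)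
    (T : ℕ → Finset (Finset E)) (c : ℕ → Finset E → Finset E → ℝ) (f : ℕ → Finset E → X)
    (hc : ∀ n F F', 0 ≤ c n F F') (h1 : ∀ n, ∑ F ∈ T n, ∑ F' ∈ T n, c n F F' = 1)
    (hμ : ∀ n (G : X → ℝ), Continuous G → (∃ B, ∀ x, |G x| ≤ B) →
      ∫ x, G x ∂(μ n : Measure X) = ∑ F ∈ T n, ∑ F' ∈ T n, c n F F' * G (f n F))
    (hν : ∀ n (G : X → ℝ), Continuous G → (∃ B, ∀ x, |G x| ≤ B) →
      ∫ x, G x ∂(ν n : Measure X) = ∑ F ∈ T n, ∑ F' ∈ T n, c n F F' * G (f n F'))
    (hd : ∀ ρ > 0, Tendsto (fun n => ∑ F ∈ T n, ∑ F' ∈ T n,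
      c n F F' * H974.ind (ρ < dist (f n F) (f n F'))) atTop (𝓝 0))
    (P : ProbabilityMeasure X) : Tendsto μ atTop (𝓝 P) ↔ Tendsto ν atTop (𝓝 P) := by
  have key : ∀ G : X → ℝ, (∃ C, ∀ x y, dist (G x) (G y) ≤ C) → (∃ L, LipschitzWith L G) →
      Tendsto (fun n => (∫ x, G x ∂(μ n : Measure X)) - ∫ x, G x ∂(ν n : Measure X))
        atTop (𝓝 0) := by
    rintro G ⟨C, hC⟩ ⟨L, hL⟩
    have hB : ∃ B, ∀ x, |G x| ≤ B := ⟨|G (f 0 ∅)| + C, fun x => by
      have h2 := hC x (f 0 ∅)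
      rw [Real.dist_eq] at h2
      have h3 := abs_sub_abs_le_abs_sub (G x) (G (f 0 ∅))
      linarith⟩
    have hC0 : 0 ≤ C := dist_nonneg.trans (hC (f 0 ∅) (f 0 ∅))
    have hL0 : (0:ℝ) ≤ L := L.2
    rw [Metric.tendsto_atTop]
    intro e he
    have hρ : 0 < e / (2 * ((L:ℝ) + 1)) := by positivity
    obtain ⟨N, hN⟩ := (Metric.tendsto_atTop.1 (hd _ hρ)) (e / (2 * (C + 1))) (by positivity)
    refine ⟨N, fun n hn => ?_⟩
    have h3 := hN n hn
    rw [Real.dist_eq, sub_zero] at h3 ⊢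
    rw [hμ n G hL.continuous hB, hν n G hL.continuous hB]
    refine (diff_le (T n) (c n) (f n) (hc n) (h1 n) G
      (fun x y => by rw [← Real.dist_eq]; exact hC x y)
      (fun x y => by rw [← Real.dist_eq]; exact hL.dist_le_mul x y) hL0 hρ.le).trans_lt ?_
    have h4 := (le_abs_self _).trans_lt h3
    have h5 : (L:ℝ) * (e / (2 * ((L:ℝ) + 1))) ≤ e / 2 := by
      rw [mul_div_assoc', div_le_div_iff₀ (by positivity) (by norm_num)]
      nlinarith
    have h6 : C * (e / (2 * (C + 1))) < e / 2 := by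
      rw [mul_div_assoc', div_lt_div_iff₀ (by positivity) (by norm_num)]
      nlinarith
    have h7 := mul_le_mul_of_nonneg_left h4.le hC0
    linarith
  rw [tendsto_iff_forall_lipschitz_integral_tendsto, tendsto_iff_forall_lipschitz_integral_tendsto]
  constructor
  · intro h G hG hL
    have := (h G hG hL).sub (key G hG hL)
    simpa using this
  · intro h G hG hL
    have := (h G hG hL).add (key G hG hL)
    simpa using this

end Pool.Agent.Zk60.NW
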