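import Pool.Agent.H974R2.Basic

/-!
A coupling of a random subset with conditional probabilities near one half with the uniform
random subset, which keeps every increasing function between the two product measures of
parameters `1/2 - ε` and `1/2 + ε`.
-/

namespace Pool.Agent.Zk60.NW

open H974 Finset

variable {E : Type*} [DecidableEq E]

/-- the conditional probability of each element given the rest is in [1/2-eps, 1/2+eps] -/
def Near (ε : ℝ) (S : Finset E) (w : Finset E → ℝ) : Prop :=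
  (∀ F ⊆ S, 0 ≤ w F) ∧
    ∀ e ∈ S, ∀ F ⊆ S, e ∉ F → |w (insert e F) - w F| ≤ 2 * ε * (w (insert e F) + w F)

theorem Near.zero {ε : ℝ} {a : E} {S : Finset E} {w : Finset E → ℝ}
    (hw : Near ε (insert a S) w) : Near ε S w :=
  ⟨fun F hF => hw.1 F (hF.trans (Finset.subset_insert _ _)),
    fun e he F hF heF => hw.2 e (Finset.mem_insert_of_mem he) F
      (hF.trans (Finset.subset_insert _ _)) heF⟩

theorem Near.one {ε : ℝ} {a : E} {S : Finset E} (ha : a ∉ S) {w : Finset E → ℝ}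
    (hw : Near ε (insert a S) w) : Near ε S (fun F => w (insert a F)) := by
  refine ⟨fun F hF => hw.1 _ (Finset.insert_subset_insert _ hF), ?_⟩
  intro e he F hF heF
  have hne : e ≠ a := fun h => ha (h ▸ he)
  have h := hw.2 e (Finset.mem_insert_of_mem he) (insert a F)
    (Finset.insert_subset_insert _ hF) (by simp [hne, heF])
  rw [Finset.insert_comm] at h
  exact h

theorem Near.mass {ε : ℝ} {a : E} {S : Finset E} (ha : a ∉ S) {w : Finset E → ℝ}
    (hw : Near ε (insert a S) w) :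
    |∑ F ∈ S.powerset, w (insert a F) - ∑ F ∈ S.powerset, w F| ≤
      2 * ε * (∑ F ∈ S.powerset, w (insert a F) + ∑ F ∈ S.powerset, w F) := by
  rw [← Finset.sum_sub_distrib, ← Finset.sum_add_distrib, Finset.mul_sum]
  refine (Finset.abs_sum_le_sum_abs _ _).trans (Finset.sum_le_sum ?_)
  intro F hF
  have hFS := Finset.mem_powerset.mp hF
  exact hw.2 a (Finset.mem_insert_self _ _) F (hFS.trans (Finset.subset_insert _ _))
    (fun h => ha (hFS h))

/-- splitting of a mass -/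
theorem fractions {W k₁ k₀ : ℝ} (h1 : 0 ≤ k₁) (h0 : 0 ≤ k₀) (h : k₁ + k₀ = W) :
    ∃ l₁ l₀ : ℝ, 0 ≤ l₁ ∧ 0 ≤ l₀ ∧ l₁ + l₀ = 1 ∧ l₁ * W = k₁ ∧ l₀ * W = k₀ := by
  by_cases hW : W = 0
  · refine ⟨1, 0, by norm_num, le_rfl, by norm_num, ?_, ?_⟩ <;> nlinarith
  · have hp : 0 < W := lt_of_le_of_ne (by linarith) (Ne.symm hW)
    refine ⟨k₁ / W, k₀ / W, by positivity, by positivity, ?_, ?_, ?_⟩
    · rw [← add_div, h, div_self hW]
    · field_simp
    · field_simp

/-- the gluing of two couplings along a new element -/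
noncomputable def glue (a : E) (l₁₁ l₁₀ l₀₁ l₀₀ : ℝ) (c₁ c₀ : Finset E → Finset E → ℝ) :
    Finset E → Finset E → ℝ := fun G G' =>
  if a ∈ G then (if a ∈ G' then l₁₁ else l₁₀) * c₁ (G.erase a) (G'.erase a)
  else (if a ∈ G' then l₀₁ else l₀₀) * c₀ (G.erase a) (G'.erase a)

theorem glue11 {a : E} (l₁₁ l₁₀ l₀₁ l₀₀ : ℝ) (c₁ c₀ : Finset E → Finset E → ℝ)
    {F F' : Finset E} (h : a ∉ F) (h' : a ∉ F') :
    glue a l₁₁ l₁₀ l₀₁ l₀₀ c₁ c₀ (insert a F) (insert a F') = l₁₁ * c₁ F F' := by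
  simp [glue, Finset.erase_insert h, Finset.erase_insert h']

theorem glue10 {a : E} (l₁₁ l₁₀ l₀₁ l₀₀ : ℝ) (c₁ c₀ : Finset E → Finset E → ℝ)
    {F F' : Finset E} (h : a ∉ F) (h' : a ∉ F') :
    glue a l₁₁ l₁₀ l₀₁ l₀₀ c₁ c₀ (insert a F) F' = l₁₀ * c₁ F F' := by
  simp [glue, Finset.erase_insert h, h']

theorem glue01 {a : E} (l₁₁ l₁₀ l₀₁ l₀₀ : ℝ) (c₁ c₀ : Finset E → Finset E → ℝ)
    {F F' : Finset E} (h : a ∉ F) (h' : a ∉ F') :
    glue a l₁₁ l₁₀ l₀₁ l₀₀ c₁ c₀ F (insert a F') = l₀₁ * c₀ F F' := by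
  simp [glue, Finset.erase_insert h', h]

theorem glue00 {a : E} (l₁₁ l₁₀ l₀₁ l₀₀ : ℝ) (c₁ c₀ : Finset E → Finset E → ℝ)
    {F F' : Finset E} (h : a ∉ F) (h' : a ∉ F') :
    glue a l₁₁ l₁₀ l₀₁ l₀₀ c₁ c₀ F F' = l₀₀ * c₀ F F' := by
  simp [glue, h, h']

theorem glue_nonneg {a : E} {l₁₁ l₁₀ l₀₁ l₀₀ : ℝ} {c₁ c₀ : Finset E → Finset E → ℝ}
    (h₁₁ : 0 ≤ l₁₁) (h₁₀ : 0 ≤ l₁₀) (h₀₁ : 0 ≤ l₀₁) (h₀₀ : 0 ≤ l₀₀)
    (hc₁ : ∀ F F', 0 ≤ c₁ F F') (hc₀ : ∀ F F', 0 ≤ c₀ F F') (G G' : Finset E) :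
    0 ≤ glue a l₁₁ l₁₀ l₀₁ l₀₀ c₁ c₀ G G' := by
  unfold glue
  split_ifs <;> apply mul_nonneg <;> first | assumption | exact hc₁ _ _ | exact hc₀ _ _

/-- a double sum over the subsets of `insert a S` -/
theorem sum_double {a : E} {S : Finset E} (ha : a ∉ S) (f : Finset E → Finset E → ℝ) :
    ∑ G ∈ (insert a S).powerset, ∑ G' ∈ (insert a S).powerset, f G G' =
      (∑ F ∈ S.powerset, ∑ F' ∈ S.powerset, f (insert a F) (insert a F')) +
      (∑ F ∈ S.powerset, ∑ F' ∈ S.powerset, f (insert a F) F') +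
      (∑ F ∈ S.powerset, ∑ F' ∈ S.powerset, f F (insert a F')) +
      (∑ F ∈ S.powerset, ∑ F' ∈ S.powerset, f F F') := by
  rw [Finset.sum_powerset_insert ha]
  simp_rw [Finset.sum_powerset_insert ha, Finset.sum_add_distrib]
  ring

/-- a function increasing on the subsets of `S` -/
def Inc (S : Finset E) (g : Finset E → ℝ) : Prop := ∀ F F', F ⊆ F' → F' ⊆ S → g F ≤ g F'

theorem Inc.zero {a : E} {S : Finset E} {g : Finset E → ℝ} (h : Inc (insert a S) g) :
    Inc S g := fun F F' h1 h2 => h F F' h1 (h2.trans (Finset.subset_insert _ _))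

theorem Inc.one {a : E} {S : Finset E} {g : Finset E → ℝ} (h : Inc (insert a S) g) :
    Inc S (fun F => g (insert a F)) := fun F F' h1 h2 =>
  h _ _ (Finset.insert_subset_insert _ h1) (Finset.insert_subset_insert _ h2)

theorem Inc.step {a : E} {S : Finset E} {g : Finset E → ℝ} (h : Inc (insert a S) g)
    {F : Finset E} (hF : F ⊆ S) : g F ≤ g (insert a F) :=
  h _ _ (Finset.subset_insert _ _) (Finset.insert_subset_insert _ hF)

/-- the coupling, for unnormalised weights and with envelopes -/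
theorem coupling_aux {ε : ℝ} (h0 : 0 ≤ ε) (h1 : ε ≤ 1/2) (S : Finset E) :
    ∀ w : Finset E → ℝ, Near ε S w → ∃ c : Finset E → Finset E → ℝ, (∀ F F', 0 ≤ c F F') ∧
      (∀ F ∈ S.powerset, ∑ F' ∈ S.powerset, c F F' = w F) ∧
      (∀ F' ∈ S.powerset, ∑ F ∈ S.powerset, c F F' =
        (∑ F ∈ S.powerset, w F) * (1/2) ^ S.card) ∧
      ∀ m M g h : Finset E → ℝ, Inc S m → Inc S M → (∀ F, F ⊆ S → m F ≤ g F) →
        (∀ F, F ⊆ S → g F ≤ M F) → (∀ F, F ⊆ S → m F ≤ h F) → (∀ F, F ⊆ S → h F ≤ M F) →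
        ∑ F ∈ S.powerset, ∑ F' ∈ S.powerset, c F F' * |g F - h F'| ≤
          (∑ F ∈ S.powerset, w F) *
            (Ex (fun _ => 1/2 + ε) S M - Ex (fun _ => 1/2 - ε) S m) := by
  induction S using Finset.induction_on with
  | empty =>
    intro w hw
    have hw0 : 0 ≤ w ∅ := hw.1 ∅ (Finset.Subset.refl _)
    refine ⟨fun _ _ => w ∅, fun _ _ => hw0, by simp, by simp, ?_⟩
    intro m M g h _ _ hmg hgM hmh hhM
    simp only [Finset.powerset_empty, Finset.sum_singleton, Ex_empty]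
    have a1 := hmg ∅ (Finset.Subset.refl _)
    have a2 := hgM ∅ (Finset.Subset.refl _)
    have a3 := hmh ∅ (Finset.Subset.refl _)
    have a4 := hhM ∅ (Finset.Subset.refl _)
    apply mul_le_mul_of_nonneg_left _ hw0
    rw [abs_le]
    constructor <;> linarith
  | insert a S ha ih =>
    intro w hw
    obtain ⟨c₁, hc₁, hm₁, hu₁, hE₁⟩ := ih _ (hw.one ha)
    obtain ⟨c₀, hc₀, hm₀, hu₀, hE₀⟩ := ih _ hw.zero
    have hmass := hw.mass ha
    have hW₁ : 0 ≤ ∑ F ∈ S.powerset, w (insert a F) := Finset.sum_nonneg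
      (fun F hF => (hw.one ha).1 F (Finset.mem_powerset.mp hF))
    have hW₀ : 0 ≤ ∑ F ∈ S.powerset, w F := Finset.sum_nonneg
      (fun F hF => hw.zero.1 F (Finset.mem_powerset.mp hF))
    have hW : ∑ F ∈ (insert a S).powerset, w F =
        ∑ F ∈ S.powerset, w (insert a F) + ∑ F ∈ S.powerset, w F := by
      rw [Finset.sum_powerset_insert ha, add_comm]
    rw [hW]
    generalize (∑ F ∈ S.powerset, w (insert a F)) = W₁ at *
    generalize (∑ F ∈ S.powerset, w F) = W₀ at *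
    rw [abs_le] at hmass
    obtain ⟨k₁₁, hk₁₁⟩ : ∃ k, k = min W₁ ((W₁ + W₀) / 2) := ⟨_, rfl⟩
    have k1 : k₁₁ ≤ W₁ := hk₁₁ ▸ min_le_left _ _
    have k2 : k₁₁ ≤ (W₁ + W₀) / 2 := hk₁₁ ▸ min_le_right _ _
    have k3 : 0 ≤ k₁₁ := hk₁₁ ▸ le_min hW₁ (by linarith)
    have k4 : (1/2 - ε) * (W₁ + W₀) ≤ k₁₁ := by
      rw [hk₁₁]
      apply le_min
      · nlinarith
      · nlinarith
    have k5 : W₁ + ((W₁ + W₀) / 2 - k₁₁) ≤ (1/2 + ε) * (W₁ + W₀) := by
      rw [hk₁₁]
      rcases min_cases W₁ ((W₁ + W₀) / 2) with h | h <;> nlinarith [h.1, h.2]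
    have k6 : 0 ≤ W₀ - ((W₁ + W₀) / 2 - k₁₁) := by
      rw [hk₁₁]
      rcases min_cases W₁ ((W₁ + W₀) / 2) with h | h <;> nlinarith [h.1, h.2]
    clear hk₁₁
    obtain ⟨l₁₁, l₁₀, p₁₁, p₁₀, ps₁, pe₁₁, pe₁₀⟩ :=
      fractions (W := W₁) k3 (sub_nonneg.mpr k1) (by ring)
    obtain ⟨l₀₁, l₀₀, p₀₁, p₀₀, ps₀, pe₀₁, pe₀₀⟩ :=
      fractions (W := W₀) (sub_nonneg.mpr k2) k6 (by ring)
    refine ⟨glue a l₁₁ l₁₀ l₀₁ l₀₀ c₁ c₀, glue_nonneg p₁₁ p₁₀ p₀₁ p₀₀ hc₁ hc₀, ?_, ?_, ?_⟩
    · -- first marginal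
      intro G hG
      have hGS := Finset.mem_powerset.mp hG
      rw [Finset.sum_powerset_insert ha]
      by_cases haG : a ∈ G
      · obtain ⟨F, hF, haF, rfl⟩ : ∃ F, F ⊆ S ∧ a ∉ F ∧ G = insert a F := by
          refine ⟨G.erase a, ?_, Finset.notMem_erase _ _, (Finset.insert_erase haG).symm⟩
          rw [← Finset.subset_insert_iff]; exact hGS
        have e1 : ∑ t ∈ S.powerset, glue a l₁₁ l₁₀ l₀₁ l₀₀ c₁ c₀ (insert a F) t =
            l₁₀ * w (insert a F) := by
          rw [← hm₁ F (Finset.mem_powerset.mpr hF), Finset.mul_sum]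
          apply Finset.sum_congr rfl
          intro t ht
          exact glue10 _ _ _ _ _ _ haF (fun h => ha (Finset.mem_powerset.mp ht h))
        have e2 : ∑ t ∈ S.powerset, glue a l₁₁ l₁₀ l₀₁ l₀₀ c₁ c₀ (insert a F) (insert a t) =
            l₁₁ * w (insert a F) := by
          rw [← hm₁ F (Finset.mem_powerset.mpr hF), Finset.mul_sum]
          apply Finset.sum_congr rfl
          intro t ht
          exact glue11 _ _ _ _ _ _ haF (fun h => ha (Finset.mem_powerset.mp ht h))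
        rw [e1, e2, ← add_mul, add_comm l₁₀, ps₁, one_mul]
      · have hF : G ⊆ S := by
          intro x hx
          rcases Finset.mem_insert.mp (hGS hx) with h | h
          · exact absurd (h ▸ hx) haG
          · exact h
        have e1 : ∑ t ∈ S.powerset, glue a l₁₁ l₁₀ l₀₁ l₀₀ c₁ c₀ G t = l₀₀ * w G := by
          rw [← hm₀ G (Finset.mem_powerset.mpr hF), Finset.mul_sum]
          apply Finset.sum_congr rfl
          intro t ht
          exact glue00 _ _ _ _ _ _ haG (fun h => ha (Finset.mem_powerset.mp ht h))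
        have e2 : ∑ t ∈ S.powerset, glue a l₁₁ l₁₀ l₀₁ l₀₀ c₁ c₀ G (insert a t) =
            l₀₁ * w G := by
          rw [← hm₀ G (Finset.mem_powerset.mpr hF), Finset.mul_sum]
          apply Finset.sum_congr rfl
          intro t ht
          exact glue01 _ _ _ _ _ _ haG (fun h => ha (Finset.mem_powerset.mp ht h))
        rw [e1, e2, ← add_mul, add_comm l₀₀, ps₀, one_mul]
    · -- second marginal
      intro G' hG'
      have hGS := Finset.mem_powerset.mp hG'
      rw [Finset.sum_powerset_insert ha, Finset.card_insert_of_notMem ha, pow_succ]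
      by_cases haG : a ∈ G'
      · obtain ⟨F, hF, haF, rfl⟩ : ∃ F, F ⊆ S ∧ a ∉ F ∧ G' = insert a F := by
          refine ⟨G'.erase a, ?_, Finset.notMem_erase _ _, (Finset.insert_erase haG).symm⟩
          rw [← Finset.subset_insert_iff]; exact hGS
        have e1 : ∑ t ∈ S.powerset, glue a l₁₁ l₁₀ l₀₁ l₀₀ c₁ c₀ t (insert a F) =
            l₀₁ * (W₀ * (1/2) ^ S.card) := by
          rw [← hu₀ F (Finset.mem_powerset.mpr hF), Finset.mul_sum]
          apply Finset.sum_congr rfl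
          intro t ht
          exact glue01 _ _ _ _ _ _ (fun h => ha (Finset.mem_powerset.mp ht h)) haF
        have e2 : ∑ t ∈ S.powerset, glue a l₁₁ l₁₀ l₀₁ l₀₀ c₁ c₀ (insert a t) (insert a F) =
            l₁₁ * (W₁ * (1/2) ^ S.card) := by
          rw [← hu₁ F (Finset.mem_powerset.mpr hF), Finset.mul_sum]
          apply Finset.sum_congr rfl
          intro t ht
          exact glue11 _ _ _ _ _ _ (fun h => ha (Finset.mem_powerset.mp ht h)) haF
        rw [e1, e2, ← mul_assoc, ← mul_assoc, pe₀₁, pe₁₁]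
        ring
      · have hF : G' ⊆ S := by
          intro x hx
          rcases Finset.mem_insert.mp (hGS hx) with h | h
          · exact absurd (h ▸ hx) haG
          · exact h
        have e1 : ∑ t ∈ S.powerset, glue a l₁₁ l₁₀ l₀₁ l₀₀ c₁ c₀ t G' =
            l₀₀ * (W₀ * (1/2) ^ S.card) := by
          rw [← hu₀ G' (Finset.mem_powerset.mpr hF), Finset.mul_sum]
          apply Finset.sum_congr rfl
          intro t ht
          exact glue00 _ _ _ _ _ _ (fun h => ha (Finset.mem_powerset.mp ht h)) haG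
        have e2 : ∑ t ∈ S.powerset, glue a l₁₁ l₁₀ l₀₁ l₀₀ c₁ c₀ (insert a t) G' =
            l₁₀ * (W₁ * (1/2) ^ S.card) := by
          rw [← hu₁ G' (Finset.mem_powerset.mpr hF), Finset.mul_sum]
          apply Finset.sum_congr rfl
          intro t ht
          exact glue10 _ _ _ _ _ _ (fun h => ha (Finset.mem_powerset.mp ht h)) haG
        rw [e1, e2, ← mul_assoc, ← mul_assoc, pe₀₀, pe₁₀]
        ring
    · -- the envelope bound
      intro m M g h hm hM hmg hgM hmh hhM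
      have hsub : ∀ F, F ⊆ S → F ⊆ insert a S := fun F hF => hF.trans (Finset.subset_insert _ _)
      have hins : ∀ F, F ⊆ S → insert a F ⊆ insert a S :=
        fun F hF => Finset.insert_subset_insert _ hF
      have b11 := hE₁ (fun F => m (insert a F)) (fun F => M (insert a F))
        (fun F => g (insert a F)) (fun F => h (insert a F)) hm.one hM.one
        (fun F hF => hmg _ (hins F hF)) (fun F hF => hgM _ (hins F hF))
        (fun F hF => hmh _ (hins F hF)) (fun F hF => hhM _ (hins F hF))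
      have b10 := hE₁ m (fun F => M (insert a F))
        (fun F => g (insert a F)) h hm.zero hM.one
        (fun F hF => (hm.step hF).trans (hmg _ (hins F hF))) (fun F hF => hgM _ (hins F hF))
        (fun F hF => hmh _ (hsub F hF)) (fun F hF => (hhM _ (hsub F hF)).trans (hM.step hF))
      have b01 := hE₀ m (fun F => M (insert a F))
        g (fun F => h (insert a F)) hm.zero hM.one
        (fun F hF => hmg _ (hsub F hF)) (fun F hF => (hgM _ (hsub F hF)).trans (hM.step hF))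
        (fun F hF => (hm.step hF).trans (hmh _ (hins F hF))) (fun F hF => hhM _ (hins F hF))
      have b00 := hE₀ m M g h hm.zero hM.zero
        (fun F hF => hmg _ (hsub F hF)) (fun F hF => hgM _ (hsub F hF))
        (fun F hF => hmh _ (hsub F hF)) (fun F hF => hhM _ (hsub F hF))
      have hno : ∀ F ∈ S.powerset, a ∉ F := fun F hF h => ha (Finset.mem_powerset.mp hF h)
      rw [sum_double ha]
      have e11 : ∑ F ∈ S.powerset, ∑ F' ∈ S.powerset,
          glue a l₁₁ l₁₀ l₀₁ l₀₀ c₁ c₀ (insert a F) (insert a F') *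
            |g (insert a F) - h (insert a F')| =
          l₁₁ * ∑ F ∈ S.powerset, ∑ F' ∈ S.powerset, c₁ F F' *
            |g (insert a F) - h (insert a F')| := by
        rw [Finset.mul_sum]
        refine Finset.sum_congr rfl (fun F hF => ?_)
        rw [Finset.mul_sum]
        refine Finset.sum_congr rfl (fun F' hF' => ?_)
        rw [glue11 _ _ _ _ _ _ (hno F hF) (hno F' hF')]
        ring
      have e10 : ∑ F ∈ S.powerset, ∑ F' ∈ S.powerset,
          glue a l₁₁ l₁₀ l₀₁ l₀₀ c₁ c₀ (insert a F) F' * |g (insert a F) - h F'| =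
          l₁₀ * ∑ F ∈ S.powerset, ∑ F' ∈ S.powerset, c₁ F F' * |g (insert a F) - h F'| := by
        rw [Finset.mul_sum]
        refine Finset.sum_congr rfl (fun F hF => ?_)
        rw [Finset.mul_sum]
        refine Finset.sum_congr rfl (fun F' hF' => ?_)
        rw [glue10 _ _ _ _ _ _ (hno F hF) (hno F' hF')]
        ring
      have e01 : ∑ F ∈ S.powerset, ∑ F' ∈ S.powerset,
          glue a l₁₁ l₁₀ l₀₁ l₀₀ c₁ c₀ F (insert a F') * |g F - h (insert a F')| =
          l₀₁ * ∑ F ∈ S.powerset, ∑ F' ∈ S.powerset, c₀ F F' * |g F - h (insert a F')| := by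
        rw [Finset.mul_sum]
        refine Finset.sum_congr rfl (fun F hF => ?_)
        rw [Finset.mul_sum]
        refine Finset.sum_congr rfl (fun F' hF' => ?_)
        rw [glue01 _ _ _ _ _ _ (hno F hF) (hno F' hF')]
        ring
      have e00 : ∑ F ∈ S.powerset, ∑ F' ∈ S.powerset,
          glue a l₁₁ l₁₀ l₀₁ l₀₀ c₁ c₀ F F' * |g F - h F'| =
          l₀₀ * ∑ F ∈ S.powerset, ∑ F' ∈ S.powerset, c₀ F F' * |g F - h F'| := by
        rw [Finset.mul_sum]
        refine Finset.sum_congr rfl (fun F hF => ?_)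
        rw [Finset.mul_sum]
        refine Finset.sum_congr rfl (fun F' hF' => ?_)
        rw [glue00 _ _ _ _ _ _ (hno F hF) (hno F' hF')]
        ring
      rw [e11, e10, e01, e00, Ex_insert _ ha, Ex_insert _ ha]
      have okp : Ok (fun _ : E => 1/2 + ε) := fun _ => ⟨by linarith, by linarith⟩
      have okm : Ok (fun _ : E => 1/2 - ε) := fun _ => ⟨by linarith, by linarith⟩
      have hMM : Ex (fun _ => 1/2 + ε) S M ≤ Ex (fun _ => 1/2 + ε) S (fun F => M (insert a F)) :=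
        Ex_mono okp (fun F hF => hM.step hF)
      have hmm : Ex (fun _ => 1/2 - ε) S m ≤ Ex (fun _ => 1/2 - ε) S (fun F => m (insert a F)) :=
        Ex_mono okm (fun F hF => hm.step hF)
      generalize Ex (fun _ => 1/2 + ε) S M = x₀ at *
      generalize Ex (fun _ => 1/2 + ε) S (fun F => M (insert a F)) = x₁ at *
      generalize Ex (fun _ => 1/2 - ε) S m = y₀ at *
      generalize Ex (fun _ => 1/2 - ε) S (fun F => m (insert a F)) = y₁ at *
      have q11 := mul_le_mul_of_nonneg_left b11 p₁₁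
      have q10 := mul_le_mul_of_nonneg_left b10 p₁₀
      have q01 := mul_le_mul_of_nonneg_left b01 p₀₁
      have q00 := mul_le_mul_of_nonneg_left b00 p₀₀
      rw [← mul_assoc, pe₁₁] at q11
      rw [← mul_assoc, pe₁₀] at q10
      rw [← mul_assoc, pe₀₁] at q01
      rw [← mul_assoc, pe₀₀] at q00
      have r1 : (W₁ + ((W₁ + W₀) / 2 - k₁₁)) * (x₁ - x₀) ≤
          ((1/2 + ε) * (W₁ + W₀)) * (x₁ - x₀) :=
        mul_le_mul_of_nonneg_right k5 (by linarith)
      have r2 : ((1/2 - ε) * (W₁ + W₀)) * (y₁ - y₀) ≤ k₁₁ * (y₁ - y₀) :=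
        mul_le_mul_of_nonneg_right k4 (by linarith)
      nlinarith [q11, q10, q01, q00, r1, r2]

theorem coupling {ε : ℝ} (h0 : 0 ≤ ε) (h1 : ε ≤ 1/2) (S : Finset E) (w : Finset E → ℝ)
    (hw : Near ε S w) (hs : ∑ F ∈ S.powerset, w F = 1) :
    ∃ c : Finset E → Finset E → ℝ, (∀ F F', 0 ≤ c F F') ∧
      (∀ F ∈ S.powerset, ∑ F' ∈ S.powerset, c F F' = w F) ∧
      (∀ F' ∈ S.powerset, ∑ F ∈ S.powerset, c F F' = (1/2) ^ S.card) ∧
      ∀ g : Finset E → ℝ, (∀ F F', F ⊆ F' → F' ⊆ S → g F ≤ g F') →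
        ∑ F ∈ S.powerset, ∑ F' ∈ S.powerset, c F F' * |g F - g F'| ≤
          Ex (fun _ => 1/2 + ε) S g - Ex (fun _ => 1/2 - ε) S g := by
  obtain ⟨c, h1, h2, h3, h4⟩ := coupling_aux h0 h1 S w hw
  refine ⟨c, h1, h2, ?_, ?_⟩
  · intro F' hF'
    rw [h3 F' hF', hs, one_mul]
  · intro g hg
    have := h4 g g g g hg hg (fun _ _ => le_rfl) (fun _ _ => le_rfl) (fun _ _ => le_rfl)
      (fun _ _ => le_rfl)
    rwa [hs, one_mul] at this

end Pool.Agent.Zk60.NW
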