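import Mathlib

/-!
# The base Stanley sequence `S(0)`

`sd n` is the number whose ternary digits are the binary digits of `n`.
-/

set_option autoImplicit false

namespace Pool.Agent.Zk78

/-- The number whose ternary digits are the binary digits of `n`. -/
def sd (n : ℕ) : ℕ := if h : n = 0 then 0 else 3 * sd (n / 2) + n % 2
decreasing_by omega

theorem sd_zero : sd 0 = 0 := by rw [sd]; simp

theorem sd_rec (n : ℕ) : sd n = 3 * sd (n / 2) + n % 2 := by
  by_cases h : n = 0
  · subst h; simp [sd_zero]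
  · rw [sd]; simp [h]

theorem sd_two_mul (n : ℕ) : sd (2 * n) = 3 * sd n := by
  rw [sd_rec]
  have h1 : 2 * n / 2 = n := by omega
  have h2 : 2 * n % 2 = 0 := by omega
  rw [h1, h2]; rfl

theorem sd_two_mul_add_one (n : ℕ) : sd (2 * n + 1) = 3 * sd n + 1 := by
  rw [sd_rec]
  have h1 : (2 * n + 1) / 2 = n := by omega
  have h2 : (2 * n + 1) % 2 = 1 := by omega
  rw [h1, h2]

theorem sd_strictMono : StrictMono sd := by
  intro m n h
  induction n using Nat.strong_induction_on generalizing m with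
  | _ n ih =>
    rw [sd_rec m, sd_rec n]
    rcases Nat.lt_or_ge (m / 2) (n / 2) with h1 | h1
    · have := ih (n / 2) (by omega) h1
      omega
    · have h2 : m / 2 = n / 2 := by omega
      rw [h2]; omega

theorem sd_add (k q i : ℕ) (hi : i < 2 ^ k) : sd (2 ^ k * q + i) = 3 ^ k * sd q + sd i := by
  induction k generalizing q i with
  | zero =>
    have : i = 0 := by simpa using hi
    subst this; simp [sd_zero]
  | succ k ih =>
    have h1 : (2 ^ (k + 1) * q + i) / 2 = 2 ^ k * q + i / 2 := by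
      rw [pow_succ]
      have : 2 ^ k * 2 * q = 2 * (2 ^ k * q) := by ring
      omega
    have h2 : (2 ^ (k + 1) * q + i) % 2 = i % 2 := by
      rw [pow_succ]
      have : 2 ^ k * 2 * q = 2 * (2 ^ k * q) := by ring
      omega
    rw [sd_rec, h1, h2, ih q (i / 2) (by rw [pow_succ] at hi; omega), sd_rec i]
    ring

theorem sd_pow (k : ℕ) : sd (2 ^ k) = 3 ^ k := by
  have := sd_add k 1 0 (by positivity)
  rw [sd_zero] at this
  simp only [mul_one, add_zero] at this
  rw [this]
  have h1 : sd 1 = 1 := by rw [sd_rec]; simp [sd_zero]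
  rw [h1, mul_one]

theorem sd_last (k : ℕ) : 2 * sd (2 ^ k - 1) + 1 = 3 ^ k := by
  induction k with
  | zero => simp [sd_zero]
  | succ k ih =>
    have h1 : 2 ^ (k + 1) - 1 = 2 * (2 ^ k - 1) + 1 := by
      have : 0 < 2 ^ k := by positivity
      rw [pow_succ]; omega
    rw [h1, sd_two_mul_add_one, pow_succ]; omega

theorem sd_le_of_lt {k i : ℕ} (hi : i < 2 ^ k) : 2 * sd i + 1 ≤ 3 ^ k := by
  have h := sd_last k
  have h2 : sd i ≤ sd (2 ^ k - 1) := sd_strictMono.monotone (by omega)
  omega

/-- `S(0)` has no three-term progressions. -/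
theorem sd_free (a b c : ℕ) (h : sd a + sd b = 2 * sd c) : a = c ∧ b = c := by
  induction c using Nat.strong_induction_on generalizing a b with
  | _ c ih =>
    by_cases hc : c = 0
    · subst hc
      rw [sd_zero] at h
      have ha : sd a = 0 := by omega
      have hb : sd b = 0 := by omega
      constructor
      · by_contra hne
        have := sd_strictMono (Nat.pos_of_ne_zero hne)
        rw [sd_zero] at this; omega
      · by_contra hne
        have := sd_strictMono (Nat.pos_of_ne_zero hne)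
        rw [sd_zero] at this; omega
    · have ea := sd_rec a
      have eb := sd_rec b
      have ec := sd_rec c
      have h3 : sd (a / 2) + sd (b / 2) = 2 * sd (c / 2) ∧ a % 2 = c % 2 ∧ b % 2 = c % 2 := by
        omega
      have := ih (c / 2) (by omega) _ _ h3.1
      omega

/-- Every number is `2 y - x` with `x ≤ y` in `S(0)`; moreover `x = y` only if the number is in
`S(0)`. -/
theorem sd_cover (m : ℕ) : ∃ x y : ℕ, x ≤ y ∧ m + sd x = 2 * sd y := by
  induction m using Nat.strong_induction_on with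
  | _ m ih =>
    by_cases hm : m = 0
    · exact ⟨0, 0, le_rfl, by rw [hm, sd_zero]⟩
    · obtain ⟨x, y, hxy, h⟩ := ih (m / 3) (by omega)
      have hr : m % 3 = 0 ∨ m % 3 = 1 ∨ m % 3 = 2 := by omega
      rcases hr with hr | hr | hr
      · refine ⟨2 * x, 2 * y, by omega, ?_⟩
        rw [sd_two_mul, sd_two_mul]; omega
      · refine ⟨2 * x + 1, 2 * y + 1, by omega, ?_⟩
        rw [sd_two_mul_add_one, sd_two_mul_add_one]; omega
      · refine ⟨2 * x, 2 * y + 1, by omega, ?_⟩
        rw [sd_two_mul_add_one, sd_two_mul]; omega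

/-- For `m < 3 ^ k` the two numbers can be taken among the first `2 ^ k` members. -/
theorem sd_cover_lt (k m : ℕ) (hm : m < 3 ^ k) :
    ∃ x y : ℕ, x ≤ y ∧ y < 2 ^ k ∧ m + sd x = 2 * sd y := by
  obtain ⟨x, y, hxy, h⟩ := sd_cover m
  refine ⟨x, y, hxy, ?_, h⟩
  by_contra hy
  have h1 : sd (2 ^ k) ≤ sd y := sd_strictMono.monotone (by omega)
  rw [sd_pow] at h1
  have h2 : sd x ≤ sd y := sd_strictMono.monotone hxy
  omega

/-- Every integer from `- (3 ^ k - 1) / 2` to `3 ^ k - 1` is `2 y - x` with `x, y` among the first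
`2 ^ k` members of `S(0)`. -/
theorem sd_cover_int (k : ℕ) (v : ℤ) (h1 : -(3 ^ k - 1 : ℤ) ≤ 2 * v) (h2 : v < 3 ^ k) :
    ∃ x y : ℕ, x < 2 ^ k ∧ y < 2 ^ k ∧ v = 2 * (sd y : ℤ) - sd x := by
  induction k generalizing v with
  | zero =>
    have : v = 0 := by norm_num at h1 h2; omega
    exact ⟨0, 0, by norm_num, by norm_num, by simp [this, sd_zero]⟩
  | succ k ih =>
    have hk : (0 : ℤ) < 3 ^ k := by positivity
    rw [pow_succ] at h1 h2
    have key : ∃ (v' : ℤ) (p q : ℕ), p < 2 ∧ q < 2 ∧ v = 3 * v' + (2 * (q : ℤ) - p) ∧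
        -(3 ^ k - 1 : ℤ) ≤ 2 * v' ∧ v' < 3 ^ k := by
      have hodd : (3 ^ k : ℤ) % 2 = 1 := by
        have : (3 ^ k : ℤ) % 2 = (3 % 2) ^ k % 2 := Int.emod_emod_of_dvd _ (dvd_refl 2) ▸ by
          rw [Int.emod_emod_of_dvd _ (dvd_refl 2)]
          exact (Int.ModEq.pow k (by decide : (3 : ℤ) ≡ 3 % 2 [ZMOD 2]))
        rw [this]; norm_num
      generalize (3 ^ k : ℤ) = u at *
      have hr : v % 3 = 0 ∨ v % 3 = 1 ∨ v % 3 = 2 := by omega
      rcases hr with hr | hr | hr
      · exact ⟨v / 3, 0, 0, by norm_num, by norm_num, by push_cast; omega, by omega, by omega⟩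
      · exact ⟨v / 3, 1, 1, by norm_num, by norm_num, by push_cast; omega, by omega, by omega⟩
      · by_cases hv : -(u - 1) ≤ 2 * (v / 3)
        · exact ⟨v / 3, 0, 1, by norm_num, by norm_num, by push_cast; omega, by omega, by omega⟩
        · exact ⟨v / 3 + 1, 1, 0, by norm_num, by norm_num, by push_cast; omega, by omega,
            by omega⟩
    obtain ⟨v', p, q, hp, hq, hv, hl, hu⟩ := key
    obtain ⟨x, y, hx, hy, hxy⟩ := ih v' hl hu
    refine ⟨2 * x + p, 2 * y + q, by rw [pow_succ]; omega, by rw [pow_succ]; omega, ?_⟩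
    have e1 : sd (2 * x + p) = 3 * sd x + p := by
      rw [sd_rec]
      have a1 : (2 * x + p) / 2 = x := by omega
      have a2 : (2 * x + p) % 2 = p := by omega
      rw [a1, a2]
    have e2 : sd (2 * y + q) = 3 * sd y + q := by
      rw [sd_rec]
      have a1 : (2 * y + q) / 2 = y := by omega
      have a2 : (2 * y + q) % 2 = q := by omega
      rw [a1, a2]
    rw [e1, e2]; push_cast
    rw [hv, hxy]; ring

end Pool.Agent.Zk78
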