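import Mathlib
import Pool.Agent.Zk78.StanleyDigits

/-!
# Independent Stanley sequences from translates of the base sequence
-/

set_option autoImplicit false

namespace Pool.Agent.Zk78

/-- There is an independent Stanley sequence with character `r`. -/
def Attained (r : ℤ) : Prop :=
  ∃ a : ℕ → ℕ, ∃ t : ℕ, StrictMono a ∧
    (∀ i j k : ℕ, i < j → j < k → a i + a k ≠ 2 * a j) ∧
    (∀ n : ℕ, t < n → ∀ m : ℕ, a (n - 1) < m → m < a n →
      ∃ i j : ℕ, i < j ∧ j < n ∧ a i + m = 2 * a j) ∧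
    (∃ k : ℕ, ∀ k' : ℕ, k ≤ k' →
      (∀ i : ℕ, i < 2 ^ k' → a (2 ^ k' + i) = a (2 ^ k') + a i) ∧
      ((a (2 ^ k') : ℤ) = 2 * (a (2 ^ k' - 1) : ℤ) - r + 1))

/-- The sequence: digits `l < 2 ^ k`, `i < 2 ^ j` and `q`. -/
def sq (k j N : ℕ) (c : ℕ → ℕ) (n : ℕ) : ℕ :=
  c (n / 2 ^ k % 2 ^ j) + sd (n % 2 ^ k) + N * sd (n / 2 ^ k / 2 ^ j)

/-- The index with the digits `q`, `i`, `l`. -/
def ix (k j q i l : ℕ) : ℕ := 2 ^ k * (2 ^ j * q + i) + l

theorem ix_div {k j q i l : ℕ} (hl : l < 2 ^ k) : ix k j q i l / 2 ^ k = 2 ^ j * q + i := by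
  unfold ix
  rw [Nat.mul_add_div (by positivity), Nat.div_eq_of_lt hl, add_zero]

theorem ix_mod {k j q i l : ℕ} (hl : l < 2 ^ k) : ix k j q i l % 2 ^ k = l := by
  unfold ix
  rw [Nat.mul_add_mod, Nat.mod_eq_of_lt hl]

theorem sq_ix {k j N : ℕ} {c : ℕ → ℕ} {q i l : ℕ} (hi : i < 2 ^ j) (hl : l < 2 ^ k) :
    sq k j N c (ix k j q i l) = c i + sd l + N * sd q := by
  unfold sq
  rw [ix_div hl, ix_mod hl, Nat.mul_add_mod, Nat.mod_eq_of_lt hi, Nat.mul_add_div (by positivity),
    Nat.div_eq_of_lt hi, add_zero]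

theorem exists_ix (k j n : ℕ) : ∃ q i l : ℕ, i < 2 ^ j ∧ l < 2 ^ k ∧ n = ix k j q i l := by
  refine ⟨n / 2 ^ k / 2 ^ j, n / 2 ^ k % 2 ^ j, n % 2 ^ k, Nat.mod_lt _ (by positivity),
    Nat.mod_lt _ (by positivity), ?_⟩
  unfold ix
  rw [Nat.div_add_mod, Nat.div_add_mod]

theorem mono_c {K u : ℕ} {c : ℕ → ℕ} (hmono : ∀ i, i + 1 < K → c i + u ≤ c (i + 1)) {i i' : ℕ}
    (h : i < i') (h' : i' < K) : c i + u ≤ c i' := by
  induction i' with
  | zero => omega
  | succ n ih =>
    rcases Nat.lt_or_ge i n with h1 | h1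
    · have := ih h1 (by omega)
      have := hmono n h'
      omega
    · have : i = n := by omega
      subst this
      exact hmono i h'

theorem attained_of_solid (k j N : ℕ) (c : ℕ → ℕ) (hc0 : c 0 = 0)
    (hmono : ∀ i, i + 1 < 2 ^ j → c i + 3 ^ k ≤ c (i + 1))
    (hlast : c (2 ^ j - 1) + 3 ^ k ≤ N)
    (hM : ∀ i < 2 ^ j, ∀ i' < 2 ^ j, ∀ l < 2 ^ j,
      (∃ w : ℤ, w * N + 3 ^ k ≤ (c i : ℤ) + c i' - 2 * c l ∧
        (c i : ℤ) + c i' - 2 * c l ≤ (w + 1) * N - 3 ^ k) ∨ (i = l ∧ i' = l))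
    (hC : ∀ v < N, (∃ i < 2 ^ j, c i ≤ v ∧ v < c i + 3 ^ k) ∨
      (∃ i i' : ℕ, i < i' ∧ i' < 2 ^ j ∧ ∃ w : ℕ, w ≤ 1 ∧
        -(3 ^ k - 1 : ℤ) ≤ 2 * ((v : ℤ) + w * N - (2 * c i' - c i)) ∧
        (v : ℤ) + w * N - (2 * c i' - c i) < 3 ^ k)) :
    Attained (2 * (c (2 ^ j - 1) : ℤ) + 3 ^ k - N) := by
  have hu : 0 < 3 ^ k := by positivity
  have hj : 0 < 2 ^ j := by positivity
  have hN : 3 ^ k ≤ N := by omega
  -- each block lies below `N`
  have hblock : ∀ i < 2 ^ j, ∀ l < 2 ^ k, c i + sd l < N := by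
    intro i hi l hl
    have h1 := sd_le_of_lt hl
    have h2 : c i ≤ c (2 ^ j - 1) := by
      rcases Nat.lt_or_ge i (2 ^ j - 1) with h | h
      · have := mono_c hmono h (by omega); omega
      · have : i = 2 ^ j - 1 := by omega
        rw [this]
    omega
  set a := sq k j N c with ha
  have hsm : StrictMono a := by
    intro n m hnm
    obtain ⟨q, i, l, hi, hl, rfl⟩ := exists_ix k j n
    obtain ⟨q', i', l', hi', hl', rfl⟩ := exists_ix k j m
    rw [ha, sq_ix hi hl, sq_ix hi' hl']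
    rcases lt_trichotomy q q' with h | h | h
    · have h1 := hblock i hi l hl
      have h2 : sd q + 1 ≤ sd q' := sd_strictMono h
      have h3 : N * (sd q + 1) ≤ N * sd q' := Nat.mul_le_mul_left _ h2
      rw [mul_add, mul_one] at h3
      omega
    · subst h
      rcases lt_trichotomy i i' with h | h | h
      · have h1 := mono_c hmono h hi'
        have h2 := sd_le_of_lt hl
        omega
      · subst h
        have : l < l' := by
          unfold ix at hnm; omega
        have := sd_strictMono this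
        omega
      · exfalso
        have h1 : 2 ^ k * (2 ^ j * q + i' + 1) ≤ 2 ^ k * (2 ^ j * q + i) :=
          Nat.mul_le_mul_left _ (by omega)
        rw [mul_add, mul_one] at h1
        unfold ix at hnm
        omega
    · exfalso
      have h1 : 2 ^ j * (q' + 1) ≤ 2 ^ j * q := Nat.mul_le_mul_left _ (by omega)
      rw [mul_add, mul_one] at h1
      have h2 : 2 ^ k * (2 ^ j * q' + i' + 1) ≤ 2 ^ k * (2 ^ j * q + i) :=
        Nat.mul_le_mul_left _ (by omega)
      rw [mul_add, mul_one] at h2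
      unfold ix at hnm
      omega
  have hfree : ∀ n1 n2 n3 : ℕ, n1 < n2 → n2 < n3 → a n1 + a n3 ≠ 2 * a n2 := by
    intro n1 n2 n3 h12 h23 heq
    obtain ⟨q1, i1, l1, hi1, hl1, rfl⟩ := exists_ix k j n1
    obtain ⟨q2, i2, l2, hi2, hl2, rfl⟩ := exists_ix k j n2
    obtain ⟨q3, i3, l3, hi3, hl3, rfl⟩ := exists_ix k j n3
    rw [ha, sq_ix hi1 hl1, sq_ix hi2 hl2, sq_ix hi3 hl3] at heq
    have b1 := sd_le_of_lt hl1
    have b2 := sd_le_of_lt hl2
    have b3 := sd_le_of_lt hl3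
    have hN0 : (0 : ℤ) < N := by exact_mod_cast (by omega : 0 < N)
    have heqZ : ((c i1 : ℤ) + c i3 - 2 * c i2) + ((sd l1 : ℤ) + sd l3 - 2 * sd l2)
        + N * ((sd q1 : ℤ) + sd q3 - 2 * sd q2) = 0 := by
      have := congrArg (Nat.cast : ℕ → ℤ) heq
      push_cast at this
      linarith
    set D : ℤ := (sd l1 : ℤ) + sd l3 - 2 * sd l2 with hD
    set Z : ℤ := (sd q1 : ℤ) + sd q3 - 2 * sd q2 with hZ
    have hD1 : D < 3 ^ k := by
      have : ((3 ^ k : ℕ) : ℤ) = 3 ^ k := by push_cast; rfl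
      rw [← this, hD]; omega
    have hD2 : -(3 ^ k : ℤ) < D := by
      have : ((3 ^ k : ℕ) : ℤ) = 3 ^ k := by push_cast; rfl
      rw [← this, hD]; omega
    have hNu : (3 ^ k : ℤ) ≤ N := by exact_mod_cast hN
    rcases hM i1 hi1 i3 hi3 i2 hi2 with ⟨w, hw1, hw2⟩ | ⟨e1, e2⟩
    · have h1 : (N : ℤ) * w < N * (-Z) := by nlinarith
      have h2 : (N : ℤ) * (-Z) < N * (w + 1) := by nlinarith
      have h3 : w < -Z := lt_of_mul_lt_mul_left h1 hN0.le
      have h4 : -Z < w + 1 := lt_of_mul_lt_mul_left h2 hN0.le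
      omega
    · subst e1; subst e2
      have hX : (c i3 : ℤ) + c i3 - 2 * c i3 = 0 := by ring
      rw [hX] at heqZ
      have h1 : (N : ℤ) * Z < N * 1 := by linarith
      have h2 : (N : ℤ) * (-1) < N * Z := by linarith
      have h3 : Z < 1 := lt_of_mul_lt_mul_left h1 hN0.le
      have h4 : -1 < Z := lt_of_mul_lt_mul_left h2 hN0.le
      have hZ0 : Z = 0 := by omega
      have hD0 : D = 0 := by rw [hZ0] at heqZ; linarith
      have e3 := sd_free l1 l3 l2 (by omega)
      have e4 := sd_free q1 q3 q2 (by omega)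
      obtain ⟨e3, -⟩ := e3
      obtain ⟨e4, -⟩ := e4
      subst e3; subst e4
      exact lt_irrefl _ h12
  have hcov : ∀ m : ℕ, N ≤ m → (∃ n, a n = m) ∨ (∃ n1 n2, a n1 < a n2 ∧ a n1 + m = 2 * a n2) := by
    intro m hm
    have hN0 : 0 < N := by omega
    have hv : m % N < N := Nat.mod_lt _ hN0
    have hq : 1 ≤ m / N := (Nat.one_le_div_iff hN0).2 hm
    have hm' : m = N * (m / N) + m % N := (Nat.div_add_mod m N).symm
    set v := m % N with hvdef
    set q := m / N with hqdef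
    rcases hC v hv with ⟨i, hi, h1, h2⟩ | ⟨i, i', hii, hi', w, hw, h1, h2⟩
    · obtain ⟨x, y, hxy, hy, hx⟩ := sd_cover_lt k (v - c i) (by omega)
      obtain ⟨s, t, hst, hs⟩ := sd_cover q
      have hmeq : a (ix k j s i x) + m = 2 * a (ix k j t i y) := by
        rw [ha, sq_ix hi (by omega), sq_ix hi hy, hm']
        have e1 : N * (q + sd s) = N * (2 * sd t) := by rw [hs]
        have e2 : c i + (v - c i) = v := by omega
        have : N * (2 * sd t) = 2 * (N * sd t) := by ring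
        rw [mul_add] at e1
        omega
      rcases Nat.lt_or_ge (a (ix k j s i x)) (a (ix k j t i y)) with h | h
      · exact Or.inr ⟨_, _, h, hmeq⟩
      · refine Or.inl ⟨ix k j s i x, ?_⟩
        have h3 : a (ix k j s i x) ≤ a (ix k j t i y) := by
          rw [ha, sq_ix hi (by omega), sq_ix hi hy]
          have e1 : sd x ≤ sd y := sd_strictMono.monotone hxy
          have e2 : N * sd s ≤ N * sd t := Nat.mul_le_mul_left _ (sd_strictMono.monotone hst)
          omega
        omega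
    · obtain ⟨x, y, hx, hy, hxy⟩ := sd_cover_int k _ h1 h2
      obtain ⟨s, t, hst, hs⟩ := sd_cover (q - w)
      have hi : i < 2 ^ j := by omega
      refine Or.inr ⟨ix k j s i x, ix k j t i' y, ?_, ?_⟩
      · rw [ha, sq_ix hi hx, sq_ix hi' hy]
        have e1 := mono_c hmono hii hi'
        have e2 : N * sd s ≤ N * sd t := Nat.mul_le_mul_left _ (sd_strictMono.monotone hst)
        have e3 := sd_le_of_lt hx
        omega
      · rw [ha, sq_ix hi hx, sq_ix hi' hy, hm']
        zify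
        have hs' : ((q : ℤ) - w) + sd s = 2 * sd t := by
          have := congrArg (Nat.cast : ℕ → ℤ) hs
          push_cast [Nat.cast_sub (show w ≤ q by omega)] at this
          exact this
        have e1 : (N : ℤ) * (((q : ℤ) - w) + sd s) = N * (2 * sd t) := by rw [hs']
        linarith
  have hixN : a (ix k j 1 0 0) = N := by
    rw [ha, sq_ix hj (by positivity), hc0, sd_zero]
    have : sd 1 = 1 := by rw [sd_rec]; simp [sd_zero]
    rw [this]; omega
  refine ⟨a, ix k j 1 0 0, hsm, hfree, ?_, k + j, ?_⟩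
  · intro n hn m hm1 hm2
    have h1 : a (ix k j 1 0 0) ≤ a (n - 1) := hsm.monotone (by omega)
    rcases hcov m (by omega) with ⟨n', hn'⟩ | ⟨n1, n2, h12, heq⟩
    · exfalso
      rw [← hn'] at hm1 hm2
      have h3 := hsm.lt_iff_lt.1 hm1
      have h4 := hsm.lt_iff_lt.1 hm2
      omega
    · refine ⟨n1, n2, hsm.lt_iff_lt.1 h12, ?_, heq⟩
      exact hsm.lt_iff_lt.1 (by omega)
  · intro k' hk'
    obtain ⟨r, rfl⟩ := Nat.exists_eq_add_of_le hk'
    have hpow : 2 ^ (k + j + r) = ix k j (2 ^ r) 0 0 := by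
      unfold ix; rw [pow_add, pow_add]; ring
    have hval : a (2 ^ (k + j + r)) = N * 3 ^ r := by
      rw [hpow, ha, sq_ix hj (by positivity), hc0, sd_zero, sd_pow]; ring
    constructor
    · intro n hn
      obtain ⟨q, i, l, hi, hl, rfl⟩ := exists_ix k j n
      have hq : q < 2 ^ r := by
        by_contra hcon
        have hcon : 2 ^ r ≤ q := by omega
        have : 2 ^ (k + j + r) ≤ ix k j q i l := by
          rw [hpow]; unfold ix
          have h1 : 2 ^ j * 2 ^ r ≤ 2 ^ j * q := Nat.mul_le_mul_left _ hcon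
          have h2 : 2 ^ k * (2 ^ j * 2 ^ r + 0) ≤ 2 ^ k * (2 ^ j * q + i) :=
            Nat.mul_le_mul_left _ (by omega)
          omega
        omega
      have h1 : 2 ^ (k + j + r) + ix k j q i l = ix k j (2 ^ r + q) i l := by
        rw [hpow]; unfold ix; ring
      rw [h1, hval, ha, sq_ix hi hl, sq_ix hi hl]
      have h2 := sd_add r 1 q hq
      rw [mul_one] at h2
      have h3 : sd 1 = 1 := by rw [sd_rec]; simp [sd_zero]
      rw [h2, h3]; ring
    · rw [hval]
      have h1 : 2 ^ (k + j + r) - 1 = ix k j (2 ^ r - 1) (2 ^ j - 1) (2 ^ k - 1) := by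
        unfold ix
        have p1 : 0 < 2 ^ r := by positivity
        have p2 : 0 < 2 ^ k := by positivity
        obtain ⟨R, hR⟩ := Nat.exists_eq_add_of_le' p1
        obtain ⟨J, hJ⟩ := Nat.exists_eq_add_of_le' hj
        obtain ⟨Q, hQ⟩ := Nat.exists_eq_add_of_le' p2
        rw [pow_add, pow_add, hR, hJ, hQ]
        simp only [Nat.add_sub_cancel]
        have : (Q + 1) * (J + 1) * (R + 1) = (Q + 1) * ((J + 1) * R + J) + Q + 1 := by ring
        rw [this, Nat.add_sub_cancel]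
      rw [h1, ha, sq_ix (by omega) (by have : 0 < 2 ^ k := by positivity
                                       omega)]
      have h2 := sd_last k
      have h3 := sd_last r
      have h2' : 2 * (sd (2 ^ k - 1) : ℤ) + 1 = 3 ^ k := by exact_mod_cast h2
      have h3' : 2 * (sd (2 ^ r - 1) : ℤ) + 1 = 3 ^ r := by exact_mod_cast h3
      push_cast
      rw [← h3', ← h2']
      ring

end Pool.Agent.Zk78
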