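import Mathlib
import Pool.Agent.Zk78.StanleyMain

/-!
# Certificates for families of independent Stanley sequences

A certificate consists of two systems of translates (for the unit `u0 = 3 ^ k0`) with the same
combinatorial type; every nonnegative integer combination `a X + b Y` with `a + b = 3 ^ k` is then
a system of translates for the unit `u0 * 3 ^ k`.
-/

set_option autoImplicit false

namespace Pool.Agent.Zk78

/-- A certificate. `L` lists the pairs (translate in the first system, in the second system). -/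
structure Cert where
  k0 : ℕ
  j : ℕ
  L : List (ℕ × ℕ)
  N0 : ℕ
  N1 : ℕ
  ch : List (ℕ × ℕ × ℕ)

/-- consecutive translates are at distance at least `u` -/
def monoOK (u N0 N1 : ℕ) : List (ℕ × ℕ) → Bool
  | [] => false
  | [p] => Nat.ble (p.1 + u) N0 && Nat.ble (p.2 + u) N1
  | p :: q :: l => Nat.ble (p.1 + u) q.1 && Nat.ble (p.2 + u) q.2 && monoOK u N0 N1 (q :: l)

/-- the residue condition for one triple -/
def tripleOK (u N0 N1 : ℕ) (p q r : ℕ × ℕ) : Bool :=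
  let v0 := p.1 + q.1 + 2 * N0 - 2 * r.1
  let v1 := p.2 + q.2 + 2 * N1 - 2 * r.2
  Nat.beq (v0 / N0) (v1 / N1) && Nat.ble u (v0 % N0) && Nat.ble (v0 % N0 + u) N0 &&
    Nat.ble u (v1 % N1) && Nat.ble (v1 % N1 + u) N1

/-- two pairs of numbers are equal -/
def peq (p q : ℕ × ℕ) : Bool := Nat.beq p.1 q.1 && Nat.beq p.2 q.2

def marginOK (u N0 N1 : ℕ) (L : List (ℕ × ℕ)) : Bool :=
  L.all fun p => L.all fun q => L.all fun r => (peq p r && peq q r) || tripleOK u N0 N1 p q r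

/-- the start of an interval, doubled: positive part -/
def sp (x x' : ℕ) (i i' : ℕ) (e : ℕ) : ℕ := if i = i' then 2 * x else 4 * x' + e
/-- the start of an interval, doubled: negative part -/
def sn (u N x : ℕ) (i i' w : ℕ) : ℕ := if i = i' then 0 else 2 * x + 2 * w * N + u
/-- the end of an interval, doubled: positive part -/
def ep (u x x' : ℕ) (i i' : ℕ) : ℕ := if i = i' then 2 * x + 2 * u else 4 * x' + 2 * u
/-- the end of an interval, doubled: negative part -/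
def en (N x : ℕ) (i i' w : ℕ) : ℕ := if i = i' then 0 else 2 * x + 2 * w * N

def itemOK (K : ℕ) (t : ℕ × ℕ × ℕ) : Bool :=
  Nat.ble t.1 t.2.1 && Nat.blt t.2.1 K && Nat.ble t.2.2 1

def stepOK (u N : ℕ) (f : ℕ → ℕ) (t t' : ℕ × ℕ × ℕ) : Bool :=
  Nat.ble (sp (f t'.1) (f t'.2.1) t'.1 t'.2.1 1 + en N (f t.1) t.1 t.2.1 t.2.2)
    (ep u (f t.1) (f t.2.1) t.1 t.2.1 + sn u N (f t'.1) t'.1 t'.2.1 t'.2.2)

def chainOK (u N0 N1 K : ℕ) (f0 f1 : ℕ → ℕ) : List (ℕ × ℕ × ℕ) → Bool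
  | [] => false
  | [t] => itemOK K t &&
      Nat.ble (en N0 (f0 t.1) t.1 t.2.1 t.2.2 + 2 * N0) (ep u (f0 t.1) (f0 t.2.1) t.1 t.2.1) &&
      Nat.ble (en N1 (f1 t.1) t.1 t.2.1 t.2.2 + 2 * N1) (ep u (f1 t.1) (f1 t.2.1) t.1 t.2.1)
  | t :: t' :: ts => itemOK K t && stepOK u N0 f0 t t' && stepOK u N1 f1 t t' &&
      chainOK u N0 N1 K f0 f1 (t' :: ts)

def startOK (u N0 N1 : ℕ) (f0 f1 : ℕ → ℕ) : List (ℕ × ℕ × ℕ) → Bool
  | [] => false
  | t :: _ =>
      Nat.ble (sp (f0 t.1) (f0 t.2.1) t.1 t.2.1 1) (sn u N0 (f0 t.1) t.1 t.2.1 t.2.2) &&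
      Nat.ble (sp (f1 t.1) (f1 t.2.1) t.1 t.2.1 1) (sn u N1 (f1 t.1) t.1 t.2.1 t.2.2)

def Cert.f0 (C : Cert) (i : ℕ) : ℕ := (C.L.getD i (0, 0)).1
def Cert.f1 (C : Cert) (i : ℕ) : ℕ := (C.L.getD i (0, 0)).2

def Cert.chk (C : Cert) : Bool :=
  Nat.beq C.L.length (2 ^ C.j) && peq (C.L.getD 0 (1, 1)) (0, 0) &&
    monoOK (3 ^ C.k0) C.N0 C.N1 C.L && marginOK (3 ^ C.k0) C.N0 C.N1 C.L &&
    startOK (3 ^ C.k0) C.N0 C.N1 C.f0 C.f1 C.ch &&
    chainOK (3 ^ C.k0) C.N0 C.N1 (2 ^ C.j) C.f0 C.f1 C.ch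

theorem monoOK_spec {u N0 N1 : ℕ} {L : List (ℕ × ℕ)} (h : monoOK u N0 N1 L = true) :
    (∀ i, i + 1 < L.length → (L.getD i (0, 0)).1 + u ≤ (L.getD (i + 1) (0, 0)).1 ∧
      (L.getD i (0, 0)).2 + u ≤ (L.getD (i + 1) (0, 0)).2) ∧
    (L.getD (L.length - 1) (0, 0)).1 + u ≤ N0 ∧ (L.getD (L.length - 1) (0, 0)).2 + u ≤ N1 := by
  induction L with
  | nil => simp [monoOK] at h
  | cons p l ih =>
    cases l with
    | nil =>
      simp only [monoOK, Bool.and_eq_true, Nat.ble_eq] at h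
      refine ⟨?_, ?_, ?_⟩
      · intro i hi; simp at hi
      · simpa using h.1
      · simpa using h.2
    | cons q l =>
      simp only [monoOK, Bool.and_eq_true, Nat.ble_eq] at h
      obtain ⟨⟨h1, h2⟩, h3⟩ := h
      obtain ⟨ih1, ih2, ih3⟩ := ih h3
      refine ⟨?_, ?_, ?_⟩
      · intro i hi
        cases i with
        | zero => simpa using ⟨h1, h2⟩
        | succ i =>
          have := ih1 i (by simpa using hi)
          simpa using this
      · simpa using ih2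
      · simpa using ih3


/-- the values at the combination `a X + b Y` -/
def Cert.c (C : Cert) (a b i : ℕ) : ℕ := a * C.f0 i + b * C.f1 i

theorem tripleOK_spec {u N0 N1 : ℕ} {p q r : ℕ × ℕ} (h0 : 2 * r.1 ≤ 2 * N0) (h1 : 2 * r.2 ≤ 2 * N1)
    (h : tripleOK u N0 N1 p q r = true) (a b : ℕ) :
    ∃ w : ℤ, w * ((a * N0 + b * N1 : ℕ) : ℤ) + ((a + b) * u : ℕ) ≤
        ((a * p.1 + b * p.2 : ℕ) : ℤ) + (a * q.1 + b * q.2 : ℕ) - 2 * (a * r.1 + b * r.2 : ℕ) ∧
      ((a * p.1 + b * p.2 : ℕ) : ℤ) + (a * q.1 + b * q.2 : ℕ) - 2 * (a * r.1 + b * r.2 : ℕ) ≤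
        (w + 1) * ((a * N0 + b * N1 : ℕ) : ℤ) - ((a + b) * u : ℕ) := by
  unfold tripleOK at h
  simp only [Bool.and_eq_true, Nat.ble_eq, Nat.beq_eq] at h
  obtain ⟨⟨⟨⟨e, a1⟩, a2⟩, b1⟩, b2⟩ := h
  set v0 := p.1 + q.1 + 2 * N0 - 2 * r.1 with hv0
  set v1 := p.2 + q.2 + 2 * N1 - 2 * r.2 with hv1
  have d0 := Nat.div_add_mod v0 N0
  have d1 := Nat.div_add_mod v1 N1
  rw [← e] at d1
  set w0 := v0 / N0 with hw0
  set r0 := v0 % N0
  set r1 := v1 % N1
  have z0 : (v0 : ℤ) = p.1 + q.1 + 2 * N0 - 2 * r.1 := by omega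
  have z1 : (v1 : ℤ) = p.2 + q.2 + 2 * N1 - 2 * r.2 := by omega
  have d0' : (N0 : ℤ) * w0 + r0 = v0 := by exact_mod_cast d0
  have d1' : (N1 : ℤ) * w0 + r1 = v1 := by exact_mod_cast d1
  have a1' : (u : ℤ) ≤ r0 := by exact_mod_cast a1
  have a2' : (r0 : ℤ) + u ≤ N0 := by exact_mod_cast a2
  have b1' : (u : ℤ) ≤ r1 := by exact_mod_cast b1
  have b2' : (r1 : ℤ) + u ≤ N1 := by exact_mod_cast b2
  have ha : (0 : ℤ) ≤ a := by positivity
  have hb : (0 : ℤ) ≤ b := by positivity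
  refine ⟨(w0 : ℤ) - 2, ?_, ?_⟩
  · push_cast
    have e0 := mul_le_mul_of_nonneg_left a1' ha
    have e1 := mul_le_mul_of_nonneg_left b1' hb
    have f0 : (r0 : ℤ) = p.1 + q.1 + 2 * N0 - 2 * r.1 - N0 * w0 := by linarith
    have f1 : (r1 : ℤ) = p.2 + q.2 + 2 * N1 - 2 * r.2 - N1 * w0 := by linarith
    rw [f0] at e0
    rw [f1] at e1
    nlinarith
  · push_cast
    have e0 := mul_le_mul_of_nonneg_left a2' ha
    have e1 := mul_le_mul_of_nonneg_left b2' hb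
    have f0 : (r0 : ℤ) = p.1 + q.1 + 2 * N0 - 2 * r.1 - N0 * w0 := by linarith
    have f1 : (r1 : ℤ) = p.2 + q.2 + 2 * N1 - 2 * r.2 - N1 * w0 := by linarith
    rw [f0] at e0
    rw [f1] at e1
    nlinarith

/-- the interval of an item contains `v` (all doubled) -/
def InIv (u N : ℕ) (c : ℕ → ℕ) (t : ℕ × ℕ × ℕ) (v : ℕ) : Prop :=
  sp (c t.1) (c t.2.1) t.1 t.2.1 1 ≤ 2 * v + sn u N (c t.1) t.1 t.2.1 t.2.2 ∧
    2 * v + en N (c t.1) t.1 t.2.1 t.2.2 < ep u (c t.1) (c t.2.1) t.1 t.2.1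

theorem comb_le {a b A B A' B' : ℕ} (h : A ≤ A') (h' : B ≤ B') : a * A + b * B ≤ a * A' + b * B' :=
  Nat.add_le_add (Nat.mul_le_mul_left _ h) (Nat.mul_le_mul_left _ h')

theorem sp_comb (f0 f1 : ℕ → ℕ) (a b : ℕ) (hab : 1 ≤ a + b) (t : ℕ × ℕ × ℕ) :
    sp (a * f0 t.1 + b * f1 t.1) (a * f0 t.2.1 + b * f1 t.2.1) t.1 t.2.1 1 ≤
      a * sp (f0 t.1) (f0 t.2.1) t.1 t.2.1 1 + b * sp (f1 t.1) (f1 t.2.1) t.1 t.2.1 1 := by
  unfold sp
  split_ifs
  · nlinarith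
  · nlinarith

theorem sn_comb (u N0 N1 : ℕ) (f0 f1 : ℕ → ℕ) (a b : ℕ) (t : ℕ × ℕ × ℕ) :
    sn ((a + b) * u) (a * N0 + b * N1) (a * f0 t.1 + b * f1 t.1) t.1 t.2.1 t.2.2 =
      a * sn u N0 (f0 t.1) t.1 t.2.1 t.2.2 + b * sn u N1 (f1 t.1) t.1 t.2.1 t.2.2 := by
  unfold sn
  split_ifs
  · simp
  · ring

theorem ep_comb (u : ℕ) (f0 f1 : ℕ → ℕ) (a b : ℕ) (t : ℕ × ℕ × ℕ) :
    ep ((a + b) * u) (a * f0 t.1 + b * f1 t.1) (a * f0 t.2.1 + b * f1 t.2.1) t.1 t.2.1 =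
      a * ep u (f0 t.1) (f0 t.2.1) t.1 t.2.1 + b * ep u (f1 t.1) (f1 t.2.1) t.1 t.2.1 := by
  unfold ep
  split_ifs <;> ring

theorem en_comb (N0 N1 : ℕ) (f0 f1 : ℕ → ℕ) (a b : ℕ) (t : ℕ × ℕ × ℕ) :
    en (a * N0 + b * N1) (a * f0 t.1 + b * f1 t.1) t.1 t.2.1 t.2.2 =
      a * en N0 (f0 t.1) t.1 t.2.1 t.2.2 + b * en N1 (f1 t.1) t.1 t.2.1 t.2.2 := by
  unfold en
  split_ifs
  · simp
  · ring

theorem chain_cover {u N0 N1 K : ℕ} {f0 f1 : ℕ → ℕ} (a b : ℕ) (hab : 1 ≤ a + b)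
    (t : ℕ × ℕ × ℕ) (ts : List (ℕ × ℕ × ℕ)) (h : chainOK u N0 N1 K f0 f1 (t :: ts) = true)
    (v : ℕ) (hv : v < a * N0 + b * N1)
    (hs : sp (a * f0 t.1 + b * f1 t.1) (a * f0 t.2.1 + b * f1 t.2.1) t.1 t.2.1 1 ≤
      2 * v + sn ((a + b) * u) (a * N0 + b * N1) (a * f0 t.1 + b * f1 t.1) t.1 t.2.1 t.2.2) :
    ∃ t', itemOK K t' = true ∧
      InIv ((a + b) * u) (a * N0 + b * N1) (fun i => a * f0 i + b * f1 i) t' v := by
  induction ts generalizing t with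
  | nil =>
    simp only [chainOK, Bool.and_eq_true, Nat.ble_eq] at h
    obtain ⟨⟨h1, h2⟩, h3⟩ := h
    refine ⟨t, h1, hs, ?_⟩
    have h4 := comb_le (a := a) (b := b) h2 h3
    rw [← ep_comb, mul_add, mul_add] at h4
    show 2 * v + en (a * N0 + b * N1) (a * f0 t.1 + b * f1 t.1) t.1 t.2.1 t.2.2 < _
    rw [en_comb]
    have e1 : a * (2 * N0) = 2 * (a * N0) := by ring
    have e2 : b * (2 * N1) = 2 * (b * N1) := by ring
    show _ < ep ((a + b) * u) (a * f0 t.1 + b * f1 t.1) (a * f0 t.2.1 + b * f1 t.2.1) t.1 t.2.1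
    omega
  | cons t' ts ih =>
    simp only [chainOK, Bool.and_eq_true] at h
    obtain ⟨⟨⟨h1, h2⟩, h3⟩, h4⟩ := h
    by_cases hc : 2 * v + en (a * N0 + b * N1) (a * f0 t.1 + b * f1 t.1) t.1 t.2.1 t.2.2 <
        ep ((a + b) * u) (a * f0 t.1 + b * f1 t.1) (a * f0 t.2.1 + b * f1 t.2.1) t.1 t.2.1
    · exact ⟨t, h1, hs, hc⟩
    · apply ih t' h4
      unfold stepOK at h2 h3
      rw [Nat.ble_eq] at h2 h3
      have h5 := comb_le (a := a) (b := b) h2 h3
      rw [mul_add, mul_add, mul_add, mul_add] at h5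
      have h6 := sp_comb f0 f1 a b hab t'
      have h7 := sn_comb u N0 N1 f0 f1 a b t'
      have h8 := ep_comb u f0 f1 a b t
      have h9 := en_comb N0 N1 f0 f1 a b t
      omega

theorem Cert.sound (C : Cert) (h : C.chk = true) (k a b : ℕ) (hab : a + b = 3 ^ k) :
    Attained ((a : ℤ) * (2 * (C.f0 (2 ^ C.j - 1) : ℤ) + 3 ^ C.k0 - C.N0) +
      b * (2 * (C.f1 (2 ^ C.j - 1) : ℤ) + 3 ^ C.k0 - C.N1)) := by
  unfold Cert.chk at h
  simp only [Bool.and_eq_true] at h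
  obtain ⟨⟨⟨⟨⟨hlen, hzero⟩, hmono⟩, hmarg⟩, hstart⟩, hchain⟩ := h
  rw [Nat.beq_eq] at hlen
  have hj : 0 < 2 ^ C.j := by positivity
  have hab1 : 1 ≤ a + b := by rw [hab]; exact Nat.one_le_pow _ _ (by norm_num)
  have hu : 3 ^ (C.k0 + k) = (a + b) * 3 ^ C.k0 := by rw [hab, pow_add]; ring
  obtain ⟨m1, m2, m3⟩ := monoOK_spec hmono
  rw [hlen] at m1 m2 m3
  have hcz : C.c a b 0 = 0 := by
    unfold Cert.c Cert.f0 Cert.f1
    unfold peq at hzero
    simp only [Bool.and_eq_true, Nat.beq_eq] at hzero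
    have h0 : 0 < C.L.length := by rw [hlen]; exact hj
    have e : C.L.getD 0 (0, 0) = C.L.getD 0 (1, 1) := by
      rw [List.getD_eq_getElem _ _ h0, List.getD_eq_getElem _ _ h0]
    rw [e, hzero.1, hzero.2]; simp
  have hcm : ∀ i, i + 1 < 2 ^ C.j → C.c a b i + 3 ^ (C.k0 + k) ≤ C.c a b (i + 1) := by
    intro i hi
    obtain ⟨g1, g2⟩ := m1 i hi
    have := comb_le (a := a) (b := b) g1 g2
    rw [hu]; unfold Cert.c Cert.f0 Cert.f1
    nlinarith
  have hcl : C.c a b (2 ^ C.j - 1) + 3 ^ (C.k0 + k) ≤ a * C.N0 + b * C.N1 := by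
    have := comb_le (a := a) (b := b) m2 m3
    rw [hu]; unfold Cert.c Cert.f0 Cert.f1
    nlinarith
  have key := attained_of_solid (C.k0 + k) C.j (a * C.N0 + b * C.N1) (C.c a b) hcz hcm hcl ?_ ?_
  · have hu' : (3 : ℤ) ^ (C.k0 + k) = (a + b) * 3 ^ C.k0 := by exact_mod_cast hu
    rw [hu'] at key
    have e : 2 * (C.c a b (2 ^ C.j - 1) : ℤ) + (a + b) * 3 ^ C.k0 - ((a * C.N0 + b * C.N1 : ℕ) : ℤ) =
        (a : ℤ) * (2 * (C.f0 (2 ^ C.j - 1) : ℤ) + 3 ^ C.k0 - C.N0) +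
        b * (2 * (C.f1 (2 ^ C.j - 1) : ℤ) + 3 ^ C.k0 - C.N1) := by
      unfold Cert.c; push_cast; ring
    rw [e] at key
    exact key
  · intro i hi i' hi' l hl
    have hL : ∀ i < 2 ^ C.j, C.L.getD i (0, 0) ∈ C.L := by
      intro i hi
      rw [List.getD_eq_getElem _ _ (by rw [hlen]; exact hi)]
      exact List.getElem_mem _
    unfold marginOK at hmarg
    rw [List.all_eq_true] at hmarg
    have hm := hmarg _ (hL i hi)
    rw [List.all_eq_true] at hm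
    have hm := hm _ (hL i' hi')
    rw [List.all_eq_true] at hm
    have hm := hm _ (hL l hl)
    rw [Bool.or_eq_true] at hm
    have hinj : ∀ i i' : ℕ, i < 2 ^ C.j → i' < 2 ^ C.j →
        peq (C.L.getD i (0, 0)) (C.L.getD i' (0, 0)) = true → i = i' := by
      intro i i' hi hi' he
      unfold peq at he
      simp only [Bool.and_eq_true, Nat.beq_eq] at he
      have hc : C.c a b i = C.c a b i' := by
        unfold Cert.c Cert.f0 Cert.f1; rw [he.1, he.2]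
      have hpos : 0 < 3 ^ (C.k0 + k) := by positivity
      rcases lt_trichotomy i i' with h | h | h
      · have := mono_c hcm h hi'; omega
      · exact h
      · have := mono_c hcm h hi; omega
    rcases hm with hm | hm
    · right
      rw [Bool.and_eq_true] at hm
      exact ⟨hinj _ _ hi hl hm.1, hinj _ _ hi' hl hm.2⟩
    · left
      have hpk : 0 < 3 ^ C.k0 := by positivity
      have hle : C.f0 l ≤ C.N0 ∧ C.f1 l ≤ C.N1 := by
        have g0 : ∀ i < 2 ^ C.j, C.f0 i ≤ C.f0 (2 ^ C.j - 1) := by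
          intro i hi
          rcases Nat.lt_or_ge i (2 ^ C.j - 1) with h | h
          · have := mono_c (u := 3 ^ C.k0) (c := C.f0) (K := 2 ^ C.j)
              (fun i hi => (m1 i hi).1) h (by omega)
            omega
          · have : i = 2 ^ C.j - 1 := by omega
            rw [this]
        have g1 : ∀ i < 2 ^ C.j, C.f1 i ≤ C.f1 (2 ^ C.j - 1) := by
          intro i hi
          rcases Nat.lt_or_ge i (2 ^ C.j - 1) with h | h
          · have := mono_c (u := 3 ^ C.k0) (c := C.f1) (K := 2 ^ C.j)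
              (fun i hi => (m1 i hi).2) h (by omega)
            omega
          · have : i = 2 ^ C.j - 1 := by omega
            rw [this]
        have e0 := g0 l hl
        have e1 := g1 l hl
        have e2 : C.f0 (2 ^ C.j - 1) + 3 ^ C.k0 ≤ C.N0 := m2
        have e3 : C.f1 (2 ^ C.j - 1) + 3 ^ C.k0 ≤ C.N1 := m3
        omega
      have h2 := tripleOK_spec (p := C.L.getD i (0, 0)) (q := C.L.getD i' (0, 0))
        (r := C.L.getD l (0, 0)) (by have := hle.1; unfold Cert.f0 at this; omega)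
        (by have := hle.2; unfold Cert.f1 at this; omega) hm a b
      rw [← hu] at h2
      have hcast : ((3 ^ (C.k0 + k) : ℕ) : ℤ) = 3 ^ (C.k0 + k) := by push_cast; rfl
      rw [hcast] at h2
      exact h2
  · intro v hv
    obtain ⟨t, ht, hin⟩ : ∃ t', itemOK (2 ^ C.j) t' = true ∧
        InIv ((a + b) * 3 ^ C.k0) (a * C.N0 + b * C.N1)
          (fun i => a * C.f0 i + b * C.f1 i) t' v := by
      cases hch : C.ch with
      | nil => rw [hch] at hstart; simp [startOK] at hstart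
      | cons t ts =>
        rw [hch] at hstart hchain
        refine chain_cover a b hab1 t ts hchain v hv ?_
        simp only [startOK, Bool.and_eq_true, Nat.ble_eq] at hstart
        have h1 := comb_le (a := a) (b := b) hstart.1 hstart.2
        have h2 := sp_comb C.f0 C.f1 a b hab1 t
        have h3 := sn_comb (3 ^ C.k0) C.N0 C.N1 C.f0 C.f1 a b t
        omega
    obtain ⟨i, i', w⟩ := t
    unfold itemOK at ht
    simp only [Bool.and_eq_true, Nat.ble_eq, Nat.blt_eq] at ht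
    obtain ⟨⟨hii, hi'⟩, hw⟩ := ht
    unfold InIv sp sn ep en at hin
    simp only at hin
    by_cases he : i = i'
    · left
      subst he
      simp only [if_true] at hin
      refine ⟨i, hi', ?_, ?_⟩
      · show a * C.f0 i + b * C.f1 i ≤ v
        omega
      · show v < a * C.f0 i + b * C.f1 i + _
        rw [hu]; omega
    · right
      simp only [if_neg he] at hin
      refine ⟨i, i', by omega, hi', w, hw, ?_, ?_⟩
      · have hcast : (3 : ℤ) ^ (C.k0 + k) = (((a + b) * 3 ^ C.k0 : ℕ) : ℤ) := by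
          rw [← hu]; push_cast; rfl
        rw [hcast]
        have h1 := hin.1
        show _ ≤ 2 * ((v : ℤ) + w * ((a * C.N0 + b * C.N1 : ℕ) : ℤ) -
          (2 * ((a * C.f0 i' + b * C.f1 i' : ℕ) : ℤ) - ((a * C.f0 i + b * C.f1 i : ℕ) : ℤ)))
        have h2 : ((2 * w * (a * C.N0 + b * C.N1) : ℕ) : ℤ) =
            2 * (w * ((a * C.N0 + b * C.N1 : ℕ) : ℤ)) := by push_cast; ring
        generalize ((a * C.N0 + b * C.N1 : ℕ) : ℤ) = M at *
        omega
      · have hcast : (3 : ℤ) ^ (C.k0 + k) = (((a + b) * 3 ^ C.k0 : ℕ) : ℤ) := by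
          rw [← hu]; push_cast; rfl
        rw [hcast]
        have h1 := hin.2
        show ((v : ℤ) + w * ((a * C.N0 + b * C.N1 : ℕ) : ℤ) -
          (2 * ((a * C.f0 i' + b * C.f1 i' : ℕ) : ℤ) - ((a * C.f0 i + b * C.f1 i : ℕ) : ℤ))) < _
        have h2 : ((2 * w * (a * C.N0 + b * C.N1) : ℕ) : ℤ) =
            2 * (w * ((a * C.N0 + b * C.N1 : ℕ) : ℤ)) := by push_cast; ring
        generalize ((a * C.N0 + b * C.N1 : ℕ) : ℤ) = M at *
        omega

/-- the certificate is correct and its two systems have the characters `m` and `m + 1` -/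
def Cert.chkStep (C : Cert) (m : ℕ) : Bool :=
  C.chk && Nat.beq (2 * C.f0 (2 ^ C.j - 1) + 3 ^ C.k0) (m + C.N0) &&
    Nat.beq (2 * C.f1 (2 ^ C.j - 1) + 3 ^ C.k0) (m + 1 + C.N1)

/-- the certificate is correct and its first system has the character `m` -/
def Cert.chkSmall (C : Cert) (m : ℕ) : Bool :=
  C.chk && Nat.beq (2 * C.f0 (2 ^ C.j - 1) + 3 ^ C.k0) (m + C.N0)

/-- all the characters from `m * 3 ^ k` to `(m + 1) * 3 ^ k` are attained -/
def Good (m : ℕ) : Prop := ∀ k s : ℕ, s ≤ 3 ^ k → Attained ((m * 3 ^ k + s : ℕ) : ℤ)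

theorem Cert.good_of_chkStep {C : Cert} {m : ℕ} (h : C.chkStep m = true) : Good m := by
  unfold Cert.chkStep at h
  simp only [Bool.and_eq_true, Nat.beq_eq] at h
  obtain ⟨⟨h1, h2⟩, h3⟩ := h
  intro k s hs
  have key := C.sound h1 k (3 ^ k - s) s (by omega)
  have e0 : 2 * (C.f0 (2 ^ C.j - 1) : ℤ) + 3 ^ C.k0 - C.N0 = m := by
    have : (2 * (C.f0 (2 ^ C.j - 1) : ℤ) + 3 ^ C.k0) = m + C.N0 := by exact_mod_cast h2
    linarith
  have e1 : 2 * (C.f1 (2 ^ C.j - 1) : ℤ) + 3 ^ C.k0 - C.N1 = m + 1 := by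
    have : (2 * (C.f1 (2 ^ C.j - 1) : ℤ) + 3 ^ C.k0) = m + 1 + C.N1 := by exact_mod_cast h3
    linarith
  rw [e0, e1, Nat.cast_sub hs] at key
  have e2 : (((3 ^ k : ℕ) : ℤ) - s) * m + s * (m + 1) = ((m * 3 ^ k + s : ℕ) : ℤ) := by
    push_cast; ring
  rwa [e2] at key

theorem Cert.attained_of_chkSmall {C : Cert} {m : ℕ} (h : C.chkSmall m = true) :
    Attained (m : ℤ) := by
  unfold Cert.chkSmall at h
  simp only [Bool.and_eq_true, Nat.beq_eq] at h
  obtain ⟨h1, h2⟩ := h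
  have key := C.sound h1 0 1 0 (by norm_num)
  have e0 : 2 * (C.f0 (2 ^ C.j - 1) : ℤ) + 3 ^ C.k0 - C.N0 = m := by
    have : (2 * (C.f0 (2 ^ C.j - 1) : ℤ) + 3 ^ C.k0) = m + C.N0 := by exact_mod_cast h2
    linarith
  rw [e0] at key
  simpa using key

theorem Good.three {m : ℕ} (h : Good (m / 3)) : Good m := by
  intro k s hs
  have h1 := h (k + 1) (m % 3 * 3 ^ k + s) (by
    have : m % 3 ≤ 2 := by omega
    have := Nat.mul_le_mul_right (3 ^ k) this
    rw [pow_succ]; omega)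
  have e : m / 3 * 3 ^ (k + 1) + (m % 3 * 3 ^ k + s) = m * 3 ^ k + s := by
    have : m / 3 * 3 ^ (k + 1) + m % 3 * 3 ^ k = (3 * (m / 3) + m % 3) * 3 ^ k := by
      rw [pow_succ]; ring
    rw [← add_assoc, this, Nat.div_add_mod]
  rwa [e] at h1

end Pool.Agent.Zk78
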