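import Mathlib
import Pool.Agent.Zk78.StanleyCert

/-!
# Certificates for steps
-/

set_option autoImplicit false

namespace Pool.Agent.Zk78

def stepTab0 : List (ℕ × Cert) := [
  (18, ⟨1, 3, [(0, 0), (3, 3), (18, 19), (21, 22), (27, 28), (30, 31), (45, 47),
    (48, 50)], 81, 84,
    [(0, 0, 0), (1, 1, 0), (0, 1, 0), (0, 6, 1), (1, 7, 1), (0, 7, 1), (2, 2, 0), (3, 3, 0),
      (2, 3, 0), (4, 4, 0), (5, 5, 0), (1, 2, 0), (0, 2, 0), (1, 3, 0), (0, 3, 0), (6, 6, 0),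
      (7, 7, 0), (1, 4, 0), (0, 4, 0), (1, 5, 0), (0, 5, 0), (4, 6, 0), (5, 7, 0), (3, 6, 0),
      (2, 6, 0), (3, 7, 0), (2, 7, 0)]⟩),
  (19, ⟨1, 3, [(0, 0), (3, 3), (19, 20), (22, 23), (28, 29), (31, 32), (47, 49),
    (50, 52)], 84, 87,
    [(0, 0, 0), (1, 1, 0), (0, 1, 0), (1, 6, 1), (0, 6, 1), (1, 7, 1), (0, 7, 1), (2, 2, 0),
      (3, 3, 0), (2, 3, 0), (4, 4, 0), (5, 5, 0), (3, 4, 0), (1, 2, 0), (0, 2, 0), (1, 3, 0),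
      (0, 3, 0), (6, 6, 0), (7, 7, 0), (1, 4, 0), (0, 4, 0), (1, 5, 0), (0, 5, 0), (5, 6, 0),
      (4, 6, 0), (5, 7, 0), (3, 6, 0), (2, 6, 0), (3, 7, 0), (2, 7, 0)]⟩),
  (20, ⟨1, 3, [(0, 0), (3, 3), (20, 21), (23, 24), (29, 30), (32, 33), (49, 51),
    (52, 54)], 87, 90,
    [(0, 0, 0), (1, 1, 0), (0, 1, 0), (1, 6, 1), (0, 6, 1), (1, 7, 1), (0, 7, 1), (2, 2, 0),
      (3, 3, 0), (2, 3, 0), (4, 4, 0), (5, 5, 0), (3, 4, 0), (1, 2, 0), (0, 2, 0), (1, 3, 0),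
      (0, 3, 0), (6, 6, 0), (7, 7, 0), (1, 4, 0), (0, 4, 0), (1, 5, 0), (0, 5, 0), (5, 6, 0),
      (4, 6, 0), (5, 7, 0), (3, 6, 0), (2, 6, 0), (3, 7, 0), (2, 7, 0)]⟩),
  (21, ⟨1, 3, [(0, 0), (3, 3), (21, 22), (24, 25), (30, 31), (33, 34), (51, 53),
    (54, 56)], 90, 93,
    [(0, 0, 0), (1, 1, 0), (0, 1, 0), (1, 6, 1), (0, 6, 1), (1, 7, 1), (0, 7, 1), (2, 2, 0),
      (3, 3, 0), (2, 3, 0), (4, 4, 0), (5, 5, 0), (3, 4, 0), (1, 2, 0), (0, 2, 0), (1, 3, 0),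
      (0, 3, 0), (6, 6, 0), (7, 7, 0), (1, 4, 0), (0, 4, 0), (1, 5, 0), (0, 5, 0), (5, 6, 0),
      (4, 6, 0), (5, 7, 0), (3, 6, 0), (2, 6, 0), (3, 7, 0), (2, 7, 0)]⟩),
  (26, ⟨1, 3, [(0, 0), (10, 10), (16, 17), (26, 27), (29, 30), (39, 40), (45, 47),
    (55, 57)], 87, 90,
    [(0, 0, 0), (0, 6, 1), (2, 7, 1), (1, 1, 0), (1, 7, 1), (2, 2, 0), (0, 1, 0), (0, 7, 1),
      (3, 3, 0), (4, 4, 0), (0, 2, 0), (2, 3, 0), (5, 5, 0), (1, 3, 0), (6, 6, 0), (1, 4, 0),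
      (0, 3, 0), (7, 7, 0), (0, 4, 0), (2, 5, 0), (3, 6, 0), (1, 5, 0), (5, 7, 0), (2, 6, 0),
      (0, 5, 0), (1, 6, 0), (3, 7, 0)]⟩),
  (27, ⟨1, 3, [(0, 0), (7, 7), (20, 21), (27, 28), (30, 31), (37, 38), (50, 52),
    (57, 59)], 90, 93,
    [(0, 0, 0), (2, 7, 1), (1, 1, 0), (0, 6, 1), (0, 1, 0), (1, 7, 1), (2, 2, 0), (0, 7, 1),
      (3, 3, 0), (4, 4, 0), (2, 3, 0), (5, 5, 0), (0, 2, 0), (4, 5, 0), (1, 3, 0), (6, 6, 0),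
      (0, 3, 0), (7, 7, 0), (0, 4, 0), (5, 6, 0), (1, 5, 0), (4, 6, 0), (0, 5, 0), (5, 7, 0),
      (2, 6, 0), (4, 7, 0), (3, 7, 0)]⟩),
  (30, ⟨1, 3, [(0, 0), (3, 3), (18, 19), (21, 22), (30, 31), (45, 47), (48, 50),
    (54, 56)], 81, 84,
    [(0, 0, 0), (1, 1, 0), (0, 1, 0), (0, 5, 1), (1, 6, 1), (0, 6, 1), (2, 2, 0), (3, 3, 0),
      (1, 7, 1), (0, 7, 1), (4, 4, 0), (1, 2, 0), (0, 2, 0), (1, 3, 0), (0, 3, 0), (5, 5, 0),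
      (6, 6, 0), (5, 6, 0), (7, 7, 0), (1, 4, 0), (0, 4, 0), (5, 7, 0), (4, 6, 0), (3, 5, 0),
      (2, 5, 0), (3, 6, 0), (2, 6, 0)]⟩),
  (36, ⟨1, 3, [(0, 0), (3, 3), (18, 19), (21, 22), (45, 47), (48, 50), (54, 56),
    (57, 59)], 81, 84,
    [(0, 0, 0), (1, 1, 0), (0, 1, 0), (0, 4, 1), (1, 5, 1), (0, 5, 1), (2, 2, 0), (3, 3, 0),
      (1, 6, 1), (0, 6, 1), (1, 7, 1), (0, 7, 1), (0, 2, 0), (1, 3, 0), (0, 3, 0), (4, 4, 0),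
      (5, 5, 0), (4, 5, 0), (6, 6, 0), (7, 7, 0), (5, 6, 0), (4, 6, 0), (5, 7, 0), (3, 4, 0),
      (2, 4, 0), (3, 5, 0), (2, 5, 0)]⟩),
  (37, ⟨1, 3, [(0, 0), (3, 3), (19, 20), (22, 23), (47, 49), (50, 52), (56, 58),
    (59, 61)], 84, 87,
    [(0, 0, 0), (1, 1, 0), (0, 1, 0), (1, 4, 1), (0, 4, 1), (1, 5, 1), (0, 5, 1), (2, 2, 0),
      (3, 3, 0), (1, 6, 1), (0, 6, 1), (1, 7, 1), (0, 7, 1), (1, 2, 0), (0, 2, 0), (1, 3, 0),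
      (0, 3, 0), (4, 4, 0), (5, 5, 0), (4, 5, 0), (6, 6, 0), (7, 7, 0), (5, 6, 0), (4, 6, 0),
      (5, 7, 0), (4, 7, 0), (3, 4, 0), (2, 4, 0), (3, 5, 0), (2, 5, 0)]⟩),
  (38, ⟨1, 3, [(0, 0), (3, 3), (9, 9), (12, 12), (29, 30), (38, 39), (41, 42), (61, 63)], 87, 90,
    [(0, 0, 0), (1, 1, 0), (0, 1, 0), (2, 2, 0), (3, 3, 0), (1, 2, 0), (0, 2, 0), (1, 3, 0),
      (0, 3, 0), (2, 7, 1), (4, 4, 0), (1, 7, 1), (0, 7, 1), (5, 5, 0), (6, 6, 0), (5, 6, 0),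
      (3, 4, 0), (2, 4, 0), (4, 6, 0), (1, 4, 0), (0, 4, 0), (7, 7, 0), (3, 5, 0), (2, 5, 0),
      (3, 6, 0), (1, 5, 0), (0, 5, 0), (1, 6, 0), (0, 6, 0), (5, 7, 0)]⟩),
  (39, ⟨1, 3, [(0, 0), (3, 3), (9, 9), (12, 12), (30, 31), (39, 40), (42, 43), (63, 65)], 90, 93,
    [(0, 0, 0), (1, 1, 0), (0, 1, 0), (2, 2, 0), (3, 3, 0), (1, 2, 0), (0, 2, 0), (1, 3, 0),
      (0, 3, 0), (2, 7, 1), (4, 4, 0), (1, 7, 1), (0, 7, 1), (5, 5, 0), (6, 6, 0), (5, 6, 0),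
      (3, 4, 0), (2, 4, 0), (4, 6, 0), (1, 4, 0), (0, 4, 0), (7, 7, 0), (3, 5, 0), (2, 5, 0),
      (3, 6, 0), (1, 5, 0), (0, 5, 0), (1, 6, 0), (0, 6, 0), (5, 7, 0)]⟩),
  (42, ⟨1, 3, [(0, 0), (9, 9), (24, 25), (27, 28), (33, 34), (36, 37), (51, 53),
    (60, 62)], 81, 84,
    [(0, 0, 0), (5, 7, 1), (4, 7, 1), (1, 1, 0), (1, 6, 1), (2, 7, 1), (0, 1, 0), (0, 6, 1),
      (2, 2, 0), (3, 3, 0), (1, 7, 1), (4, 4, 0), (5, 5, 0), (0, 7, 1), (2, 4, 0), (1, 3, 0),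
      (0, 2, 0), (6, 6, 0), (0, 3, 0), (1, 4, 0), (7, 7, 0), (1, 5, 0), (0, 4, 0), (4, 6, 0),
      (0, 5, 0), (3, 6, 0), (2, 6, 0)]⟩),
  (45, ⟨1, 3, [(0, 0), (13, 13), (19, 20), (32, 33), (35, 36), (48, 49), (54, 56),
    (67, 69)], 92, 95,
    [(0, 0, 0), (0, 5, 1), (4, 7, 1), (3, 7, 1), (1, 1, 0), (0, 6, 1), (2, 2, 0), (2, 7, 1),
      (0, 1, 0), (1, 7, 1), (3, 3, 0), (4, 4, 0), (0, 2, 0), (0, 7, 1), (2, 3, 0), (5, 5, 0),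
      (1, 3, 0), (6, 6, 0), (1, 4, 0), (4, 5, 0), (0, 3, 0), (7, 7, 0), (0, 4, 0), (4, 6, 0),
      (2, 5, 0), (6, 7, 0), (1, 5, 0), (5, 7, 0), (2, 6, 0)]⟩),
  (46, ⟨1, 3, [(0, 0), (10, 10), (26, 27), (29, 30), (36, 37), (39, 40), (55, 57),
    (65, 67)], 87, 90,
    [(0, 0, 0), (5, 7, 1), (4, 7, 1), (1, 1, 0), (1, 6, 1), (2, 7, 1), (0, 1, 0), (0, 6, 1),
      (2, 2, 0), (3, 3, 0), (1, 7, 1), (4, 4, 0), (5, 5, 0), (0, 7, 1), (2, 4, 0), (1, 3, 0),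
      (0, 2, 0), (6, 6, 0), (0, 3, 0), (1, 4, 0), (7, 7, 0), (1, 5, 0), (0, 4, 0), (4, 6, 0),
      (0, 5, 0), (3, 6, 0), (2, 6, 0)]⟩),
  (47, ⟨1, 3, [(0, 0), (7, 7), (20, 21), (27, 28), (30, 31), (50, 52), (57, 59),
    (67, 69)], 90, 93,
    [(0, 0, 0), (2, 6, 1), (1, 1, 0), (0, 5, 1), (0, 1, 0), (1, 6, 1), (2, 2, 0), (0, 6, 1),
      (3, 3, 0), (4, 4, 0), (1, 2, 0), (1, 7, 1), (0, 2, 0), (0, 7, 1), (1, 3, 0), (5, 5, 0),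
      (0, 3, 0), (6, 6, 0), (0, 4, 0), (5, 6, 0), (7, 7, 0), (4, 5, 0), (3, 5, 0), (6, 7, 0),
      (2, 5, 0), (4, 6, 0), (3, 6, 0)]⟩),
  (48, ⟨1, 3, [(0, 0), (3, 3), (9, 9), (12, 12), (30, 31), (39, 40), (54, 56), (63, 65)], 81, 84,
    [(0, 0, 0), (1, 1, 0), (0, 1, 0), (2, 2, 0), (3, 3, 0), (1, 2, 0), (0, 2, 0), (1, 3, 0),
      (0, 3, 0), (0, 6, 1), (4, 4, 0), (3, 7, 1), (2, 7, 1), (5, 5, 0), (1, 7, 1), (0, 7, 1),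
      (3, 4, 0), (2, 4, 0), (6, 6, 0), (1, 4, 0), (0, 4, 0), (7, 7, 0), (3, 5, 0), (2, 5, 0),
      (6, 7, 0), (1, 5, 0), (4, 6, 0)]⟩),
  (49, ⟨1, 3, [(0, 0), (3, 3), (9, 9), (12, 12), (31, 32), (40, 41), (56, 58), (65, 67)], 84, 87,
    [(0, 0, 0), (1, 1, 0), (0, 1, 0), (2, 2, 0), (3, 3, 0), (1, 2, 0), (0, 2, 0), (1, 3, 0),
      (0, 3, 0), (1, 6, 1), (0, 6, 1), (4, 4, 0), (3, 7, 1), (2, 7, 1), (5, 5, 0), (1, 7, 1),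
      (0, 7, 1), (4, 5, 0), (3, 4, 0), (2, 4, 0), (6, 6, 0), (1, 4, 0), (0, 4, 0), (7, 7, 0),
      (3, 5, 0), (2, 5, 0), (6, 7, 0), (1, 5, 0), (0, 5, 0), (4, 6, 0)]⟩),
  (50, ⟨1, 3, [(0, 0), (3, 3), (9, 9), (12, 12), (32, 33), (41, 42), (58, 60), (67, 69)], 87, 90,
    [(0, 0, 0), (1, 1, 0), (0, 1, 0), (2, 2, 0), (3, 3, 0), (1, 2, 0), (0, 2, 0), (1, 3, 0),
      (0, 3, 0), (1, 6, 1), (0, 6, 1), (4, 4, 0), (3, 7, 1), (2, 7, 1), (5, 5, 0), (1, 7, 1),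
      (0, 7, 1), (4, 5, 0), (3, 4, 0), (2, 4, 0), (6, 6, 0), (1, 4, 0), (0, 4, 0), (7, 7, 0),
      (3, 5, 0), (2, 5, 0), (5, 6, 0), (1, 5, 0), (0, 5, 0), (4, 6, 0)]⟩),
  (51, ⟨1, 3, [(0, 0), (3, 3), (9, 9), (12, 12), (33, 34), (42, 43), (60, 62), (69, 71)], 90, 93,
    [(0, 0, 0), (1, 1, 0), (0, 1, 0), (2, 2, 0), (3, 3, 0), (1, 2, 0), (0, 2, 0), (1, 3, 0),
      (0, 3, 0), (1, 6, 1), (0, 6, 1), (4, 4, 0), (3, 7, 1), (2, 7, 1), (5, 5, 0), (1, 7, 1),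
      (0, 7, 1), (4, 5, 0), (3, 4, 0), (2, 4, 0), (6, 6, 0), (1, 4, 0), (0, 4, 0), (7, 7, 0),
      (3, 5, 0), (2, 5, 0), (5, 6, 0), (1, 5, 0), (0, 5, 0), (4, 6, 0)]⟩),
  (52, ⟨1, 3, [(0, 0), (10, 10), (16, 17), (26, 27), (45, 47), (55, 57), (58, 60),
    (68, 70)], 87, 90,
    [(0, 0, 0), (0, 4, 1), (2, 5, 1), (1, 1, 0), (1, 5, 1), (2, 2, 0), (0, 1, 0), (0, 5, 1),
      (3, 3, 0), (0, 6, 1), (0, 2, 0), (2, 3, 0), (1, 7, 1), (1, 3, 0), (4, 4, 0), (0, 7, 1),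
      (0, 3, 0), (5, 5, 0), (6, 6, 0), (5, 6, 0), (4, 5, 0), (7, 7, 0), (4, 6, 0), (2, 4, 0),
      (6, 7, 0), (1, 4, 0), (3, 5, 0)]⟩)]

theorem stepTab0_ok : (stepTab0.all fun p => p.2.chkStep p.1) = true := by decide +kernel

def stepTab1 : List (ℕ × Cert) := [
  (66, ⟨1, 3, [(0, 0), (6, 6), (9, 9), (15, 15), (60, 61), (66, 67), (69, 70), (75, 76)], 87, 88,
    [(0, 0, 0), (4, 7, 1), (1, 1, 0), (2, 2, 0), (0, 1, 0), (3, 3, 0), (0, 2, 0), (2, 3, 0),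
      (1, 3, 0), (1, 4, 1), (0, 3, 0), (0, 4, 1), (2, 5, 1), (1, 5, 1), (2, 6, 1), (0, 5, 1),
      (3, 7, 1), (0, 6, 1), (2, 7, 1), (1, 7, 1), (4, 4, 0), (0, 7, 1), (5, 5, 0), (6, 6, 0),
      (4, 5, 0), (7, 7, 0), (4, 6, 0), (6, 7, 0), (5, 7, 0)]⟩),
  (67, ⟨1, 3, [(0, 0), (6, 6), (9, 9), (15, 15), (61, 62), (67, 68), (70, 71), (76, 77)], 88, 89,
    [(0, 0, 0), (4, 7, 1), (1, 1, 0), (2, 2, 0), (0, 1, 0), (3, 3, 0), (0, 2, 0), (2, 3, 0),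
      (1, 3, 0), (2, 4, 1), (1, 4, 1), (3, 5, 1), (0, 4, 1), (2, 5, 1), (1, 5, 1), (2, 6, 1),
      (0, 5, 1), (3, 7, 1), (0, 6, 1), (2, 7, 1), (1, 7, 1), (4, 4, 0), (0, 7, 1), (5, 5, 0),
      (6, 6, 0), (4, 5, 0), (7, 7, 0), (4, 6, 0), (6, 7, 0), (5, 7, 0)]⟩),
  (68, ⟨1, 3, [(0, 0), (6, 6), (9, 9), (15, 15), (62, 63), (68, 69), (71, 72), (77, 78)], 89, 90,
    [(0, 0, 0), (4, 7, 1), (1, 1, 0), (2, 2, 0), (0, 1, 0), (3, 3, 0), (0, 2, 0), (2, 3, 0),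
      (1, 3, 0), (2, 4, 1), (0, 3, 0), (3, 5, 1), (0, 4, 1), (2, 5, 1), (1, 5, 1), (2, 6, 1),
      (0, 5, 1), (3, 7, 1), (0, 6, 1), (2, 7, 1), (1, 7, 1), (4, 4, 0), (0, 7, 1), (5, 5, 0),
      (6, 6, 0), (4, 5, 0), (7, 7, 0), (4, 6, 0), (6, 7, 0), (5, 7, 0)]⟩),
  (69, ⟨1, 3, [(0, 0), (19, 19), (25, 26), (44, 45), (53, 55), (56, 58), (72, 74),
    (75, 77)], 84, 87,
    [(0, 0, 0), (0, 3, 1), (4, 6, 1), (1, 5, 1), (4, 7, 1), (3, 6, 1), (1, 1, 0), (0, 4, 1),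
      (2, 2, 0), (0, 5, 1), (1, 2, 0), (2, 6, 1), (0, 1, 0), (1, 6, 1), (3, 3, 0), (1, 7, 1),
      (0, 2, 0), (4, 4, 0), (5, 5, 0), (0, 6, 1), (2, 3, 0), (0, 7, 1), (1, 3, 0), (6, 6, 0),
      (7, 7, 0), (6, 7, 0), (2, 4, 0)]⟩),
  (72, ⟨1, 3, [(0, 0), (6, 7), (30, 30), (36, 37), (45, 47), (48, 50), (75, 77),
    (78, 80)], 87, 90,
    [(0, 0, 0), (0, 4, 1), (1, 1, 0), (0, 5, 1), (0, 1, 0), (5, 6, 1), (4, 6, 1), (5, 7, 1),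
      (4, 7, 1), (3, 6, 1), (2, 2, 0), (2, 6, 1), (3, 3, 0), (2, 7, 1), (2, 3, 0), (4, 4, 0),
      (5, 5, 0), (4, 5, 0), (1, 2, 0), (1, 6, 1), (0, 2, 0), (0, 6, 1), (1, 3, 0), (0, 7, 1),
      (0, 3, 0), (6, 6, 0), (7, 7, 0), (6, 7, 0), (1, 4, 0)]⟩),
  (73, ⟨1, 3, [(0, 0), (7, 6), (30, 31), (37, 37), (47, 46), (50, 49), (77, 77),
    (80, 80)], 90, 89,
    [(0, 0, 0), (0, 4, 1), (1, 1, 0), (0, 5, 1), (0, 1, 0), (5, 6, 1), (4, 6, 1), (5, 7, 1),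
      (4, 7, 1), (3, 6, 1), (2, 2, 0), (2, 6, 1), (3, 3, 0), (2, 7, 1), (2, 3, 0), (4, 4, 0),
      (5, 5, 0), (4, 5, 0), (1, 2, 0), (1, 6, 1), (0, 2, 0), (0, 6, 1), (1, 3, 0), (0, 7, 1),
      (0, 3, 0), (6, 6, 0), (7, 7, 0), (6, 7, 0), (1, 4, 0)]⟩),
  (74, ⟨1, 3, [(0, 0), (3, 3), (28, 28), (31, 31), (46, 47), (49, 50), (74, 75),
    (77, 78)], 83, 84,
    [(0, 0, 0), (1, 1, 0), (0, 1, 0), (0, 4, 1), (1, 5, 1), (0, 5, 1), (4, 6, 1), (5, 7, 1),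
      (4, 7, 1), (2, 2, 0), (3, 3, 0), (2, 3, 0), (2, 6, 1), (3, 7, 1), (2, 7, 1), (4, 4, 0),
      (5, 5, 0), (1, 2, 0), (0, 2, 0), (1, 3, 0), (0, 3, 0), (0, 6, 1), (1, 7, 1), (0, 7, 1),
      (6, 6, 0), (7, 7, 0), (6, 7, 0)]⟩),
  (75, ⟨1, 3, [(0, 0), (3, 3), (19, 19), (22, 22), (56, 57), (59, 60), (75, 76),
    (78, 79)], 84, 85,
    [(0, 0, 0), (1, 1, 0), (0, 1, 0), (2, 4, 1), (3, 5, 1), (4, 7, 1), (2, 2, 0), (3, 3, 0),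
      (1, 4, 1), (0, 4, 1), (1, 5, 1), (0, 5, 1), (0, 2, 0), (1, 3, 0), (0, 3, 0), (2, 6, 1),
      (3, 7, 1), (2, 7, 1), (4, 4, 0), (5, 5, 0), (1, 6, 1), (0, 6, 1), (1, 7, 1), (0, 7, 1),
      (6, 6, 0), (7, 7, 0), (6, 7, 0)]⟩),
  (76, ⟨1, 3, [(0, 0), (3, 3), (29, 29), (32, 32), (47, 48), (50, 51), (76, 77),
    (79, 80)], 85, 86,
    [(0, 0, 0), (1, 1, 0), (0, 1, 0), (0, 4, 1), (1, 5, 1), (0, 5, 1), (5, 6, 1), (4, 6, 1),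
      (5, 7, 1), (4, 7, 1), (2, 2, 0), (3, 3, 0), (2, 3, 0), (2, 6, 1), (3, 7, 1), (2, 7, 1),
      (4, 4, 0), (5, 5, 0), (4, 5, 0), (1, 2, 0), (0, 2, 0), (1, 3, 0), (0, 3, 0), (0, 6, 1),
      (1, 7, 1), (0, 7, 1), (6, 6, 0), (7, 7, 0), (6, 7, 0)]⟩),
  (77, ⟨1, 3, [(0, 0), (3, 3), (19, 20), (29, 29), (32, 32), (48, 49), (51, 52),
    (80, 81)], 86, 87,
    [(0, 0, 0), (1, 1, 0), (0, 1, 0), (1, 5, 1), (0, 5, 1), (1, 6, 1), (0, 6, 1), (2, 2, 0),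
      (6, 7, 1), (5, 7, 1), (3, 3, 0), (4, 4, 0), (3, 4, 0), (1, 2, 0), (0, 2, 0), (4, 7, 1),
      (3, 7, 1), (5, 5, 0), (6, 6, 0), (1, 3, 0), (0, 3, 0), (1, 4, 0), (0, 4, 0), (4, 5, 0),
      (3, 5, 0), (1, 7, 1), (0, 7, 1), (2, 5, 0), (7, 7, 0), (2, 6, 0)]⟩),
  (84, ⟨1, 3, [(0, 0), (7, 7), (10, 10), (17, 17), (77, 78), (84, 85), (87, 88),
    (94, 95)], 107, 108,
    [(0, 0, 0), (4, 7, 1), (1, 1, 0), (2, 2, 0), (0, 1, 0), (3, 3, 0), (0, 2, 0), (2, 3, 0),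
      (1, 3, 0), (3, 4, 1), (0, 3, 0), (2, 4, 1), (1, 4, 1), (3, 5, 1), (0, 4, 1), (2, 5, 1),
      (1, 5, 1), (2, 6, 1), (0, 5, 1), (3, 7, 1), (0, 6, 1), (2, 7, 1), (1, 7, 1), (4, 4, 0),
      (0, 7, 1), (5, 5, 0), (6, 6, 0), (4, 5, 0), (7, 7, 0), (4, 6, 0), (6, 7, 0), (5, 7, 0)]⟩),
  (85, ⟨1, 3, [(0, 0), (3, 3), (22, 22), (25, 25), (63, 64), (66, 67), (85, 86),
    (88, 89)], 94, 95,
    [(0, 0, 0), (1, 1, 0), (0, 1, 0), (5, 6, 1), (3, 5, 1), (2, 5, 1), (4, 7, 1), (2, 2, 0),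
      (3, 3, 0), (2, 3, 0), (1, 4, 1), (0, 4, 1), (1, 5, 1), (0, 5, 1), (1, 2, 0), (0, 2, 0),
      (1, 3, 0), (0, 3, 0), (3, 6, 1), (2, 6, 1), (3, 7, 1), (2, 7, 1), (4, 4, 0), (5, 5, 0),
      (4, 5, 0), (1, 6, 1), (0, 6, 1), (1, 7, 1), (0, 7, 1), (6, 6, 0), (7, 7, 0), (6, 7, 0)]⟩),
  (86, ⟨1, 3, [(0, 0), (10, 10), (30, 30), (40, 40), (46, 47), (56, 57), (76, 77),
    (86, 87)], 89, 90,
    [(0, 0, 0), (0, 4, 1), (5, 6, 1), (1, 1, 0), (1, 5, 1), (4, 6, 1), (0, 1, 0), (0, 5, 1),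
      (5, 7, 1), (2, 2, 0), (2, 6, 1), (4, 7, 1), (3, 3, 0), (3, 7, 1), (4, 4, 0), (1, 2, 0),
      (1, 6, 1), (5, 5, 0), (0, 2, 0), (0, 6, 1), (4, 5, 0), (1, 3, 0), (1, 7, 1), (6, 6, 0),
      (0, 3, 0), (0, 7, 1), (7, 7, 0)]⟩),
  (87, ⟨1, 3, [(0, 0), (10, 10), (17, 17), (27, 27), (60, 61), (70, 71), (77, 78),
    (87, 88)], 90, 91,
    [(0, 0, 0), (3, 4, 1), (6, 7, 1), (1, 1, 0), (5, 7, 1), (2, 2, 0), (0, 1, 0), (1, 2, 0),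
      (3, 3, 0), (0, 4, 1), (0, 2, 0), (2, 3, 0), (1, 5, 1), (1, 3, 0), (2, 6, 1), (0, 5, 1),
      (0, 3, 0), (3, 7, 1), (4, 4, 0), (0, 6, 1), (2, 7, 1), (5, 5, 0), (1, 7, 1), (6, 6, 0),
      (4, 5, 0), (0, 7, 1), (7, 7, 0)]⟩),
  (88, ⟨1, 3, [(0, 0), (3, 3), (33, 34), (36, 37), (55, 55), (58, 58), (88, 89),
    (91, 92)], 97, 98,
    [(0, 0, 0), (1, 1, 0), (0, 1, 0), (1, 4, 1), (0, 4, 1), (1, 5, 1), (0, 5, 1), (5, 6, 1),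
      (4, 6, 1), (5, 7, 1), (4, 7, 1), (2, 2, 0), (3, 3, 0), (2, 3, 0), (3, 6, 1), (2, 6, 1),
      (3, 7, 1), (2, 7, 1), (4, 4, 0), (5, 5, 0), (4, 5, 0), (1, 2, 0), (0, 2, 0), (1, 3, 0),
      (0, 3, 0), (1, 6, 1), (0, 6, 1), (1, 7, 1), (0, 7, 1), (6, 6, 0), (7, 7, 0), (6, 7, 0)]⟩),
  (89, ⟨1, 3, [(0, 0), (7, 7), (31, 31), (38, 38), (51, 52), (58, 59), (82, 83),
    (89, 90)], 92, 93,
    [(0, 0, 0), (6, 7, 1), (1, 1, 0), (0, 4, 1), (0, 1, 0), (1, 5, 1), (4, 6, 1), (0, 5, 1),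
      (5, 7, 1), (2, 2, 0), (4, 7, 1), (3, 3, 0), (2, 6, 1), (2, 3, 0), (3, 7, 1), (4, 4, 0),
      (2, 7, 1), (5, 5, 0), (0, 2, 0), (1, 6, 1), (1, 3, 0), (0, 6, 1), (0, 3, 0), (1, 7, 1),
      (6, 6, 0), (0, 7, 1), (7, 7, 0)]⟩),
  (93, ⟨1, 3, [(0, 0), (11, 11), (18, 18), (29, 29), (64, 65), (75, 76), (82, 83),
    (93, 94)], 96, 97,
    [(0, 0, 0), (4, 6, 1), (6, 7, 1), (1, 1, 0), (5, 7, 1), (2, 2, 0), (0, 1, 0), (4, 7, 1),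
      (3, 3, 0), (0, 4, 1), (0, 2, 0), (2, 3, 0), (1, 5, 1), (1, 3, 0), (2, 6, 1), (0, 5, 1),
      (0, 3, 0), (3, 7, 1), (4, 4, 0), (0, 6, 1), (2, 7, 1), (5, 5, 0), (1, 7, 1), (6, 6, 0),
      (4, 5, 0), (0, 7, 1), (7, 7, 0)]⟩),
  (97, ⟨1, 3, [(0, 0), (10, 10), (17, 17), (27, 27), (70, 71), (80, 81), (87, 88),
    (97, 98)], 100, 101,
    [(0, 0, 0), (4, 6, 1), (6, 7, 1), (1, 1, 0), (5, 7, 1), (2, 2, 0), (0, 1, 0), (1, 2, 0),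
      (3, 3, 0), (1, 4, 1), (0, 2, 0), (2, 3, 0), (0, 4, 1), (1, 3, 0), (3, 6, 1), (1, 5, 1),
      (0, 3, 0), (2, 6, 1), (0, 5, 1), (1, 6, 1), (3, 7, 1), (4, 4, 0), (0, 6, 1), (2, 7, 1),
      (5, 5, 0), (1, 7, 1), (6, 6, 0), (4, 5, 0), (0, 7, 1), (7, 7, 0)]⟩),
  (101, ⟨1, 3, [(0, 0), (10, 10), (13, 13), (23, 23), (81, 82), (91, 92), (94, 95),
    (104, 105)], 110, 111,
    [(0, 0, 0), (6, 7, 1), (5, 7, 1), (1, 1, 0), (2, 2, 0), (1, 2, 0), (0, 1, 0), (3, 3, 0),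
      (0, 2, 0), (3, 4, 1), (2, 3, 0), (1, 3, 0), (2, 4, 1), (1, 4, 1), (0, 3, 0), (3, 5, 1),
      (0, 4, 1), (3, 6, 1), (2, 5, 1), (1, 5, 1), (2, 6, 1), (1, 6, 1), (0, 5, 1), (3, 7, 1),
      (0, 6, 1), (4, 4, 0), (2, 7, 1), (1, 7, 1), (5, 5, 0), (6, 6, 0), (0, 7, 1), (4, 5, 0),
      (7, 7, 0), (4, 6, 0)]⟩),
  (104, ⟨1, 3, [(0, 0), (11, 11), (18, 18), (29, 29), (75, 76), (86, 87), (93, 94),
    (104, 105)], 107, 108,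
    [(0, 0, 0), (4, 6, 1), (6, 7, 1), (1, 1, 0), (5, 7, 1), (2, 2, 0), (0, 1, 0), (4, 7, 1),
      (3, 3, 0), (1, 4, 1), (0, 2, 0), (2, 3, 0), (0, 4, 1), (1, 3, 0), (3, 6, 1), (1, 5, 1),
      (0, 3, 0), (2, 6, 1), (0, 5, 1), (1, 6, 1), (3, 7, 1), (4, 4, 0), (0, 6, 1), (2, 7, 1),
      (5, 5, 0), (1, 7, 1), (6, 6, 0), (4, 5, 0), (0, 7, 1), (7, 7, 0)]⟩)]

theorem stepTab1_ok : (stepTab1.all fun p => p.2.chkStep p.1) = true := by decide +kernel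

def stepTab2 : List (ℕ × Cert) := [
  (120, ⟨2, 3, [(0, 0), (30, 30), (39, 39), (90, 91), (99, 100), (120, 121), (129, 130),
    (189, 191)], 267, 270,
    [(0, 0, 0), (4, 7, 1), (3, 7, 1), (1, 1, 0), (2, 2, 0), (1, 2, 0), (0, 1, 0), (2, 7, 1),
      (1, 7, 1), (3, 3, 0), (4, 4, 0), (0, 7, 1), (5, 5, 0), (6, 6, 0), (2, 3, 0), (1, 3, 0),
      (2, 4, 0), (1, 4, 0), (0, 3, 0), (7, 7, 0), (0, 4, 0), (1, 5, 0), (2, 6, 0), (1, 6, 0),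
      (0, 5, 0), (6, 7, 0), (5, 7, 0)]⟩),
  (121, ⟨1, 4, [(0, 0), (13, 13), (19, 19), (32, 32), (57, 58), (70, 71), (76, 77), (89, 90),
    (111, 113), (124, 126), (130, 132), (143, 145), (168, 171), (181, 184), (187, 190),
    (200, 203)], 282, 287,
    [(0, 0, 0), (0, 11, 1), (8, 15, 1), (5, 13, 1), (1, 1, 0), (6, 14, 1), (2, 2, 0),
      (3, 12, 1), (0, 1, 0), (7, 15, 1), (3, 3, 0), (2, 12, 1), (0, 2, 0), (1, 12, 1),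
      (2, 3, 0), (3, 13, 1), (1, 3, 0), (0, 12, 1), (4, 4, 0), (2, 13, 1), (0, 3, 0),
      (1, 13, 1), (5, 5, 0), (2, 14, 1), (6, 6, 0), (0, 13, 1), (3, 4, 0), (3, 15, 1),
      (7, 7, 0), (0, 14, 1), (2, 4, 0), (2, 15, 1), (1, 4, 0), (1, 15, 1), (3, 5, 0), (8, 8, 0),
      (0, 4, 0), (0, 15, 1), (2, 5, 0), (9, 9, 0), (1, 5, 0), (10, 10, 0), (2, 6, 0), (8, 9, 0),
      (0, 5, 0), (11, 11, 0), (3, 7, 0), (8, 10, 0), (0, 6, 0), (10, 11, 0), (2, 7, 0),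
      (9, 11, 0), (4, 8, 0), (12, 12, 0), (6, 9, 0), (8, 11, 0), (5, 9, 0), (13, 13, 0),
      (6, 10, 0), (14, 14, 0), (3, 8, 0), (11, 12, 0), (7, 11, 0), (15, 15, 0), (2, 8, 0),
      (10, 12, 0), (1, 8, 0), (9, 12, 0), (3, 9, 0), (11, 13, 0), (0, 8, 0), (8, 12, 0),
      (2, 9, 0), (10, 13, 0), (1, 9, 0), (9, 13, 0), (2, 10, 0), (10, 14, 0), (0, 9, 0),
      (8, 13, 0), (3, 11, 0), (11, 15, 0), (0, 10, 0), (8, 14, 0), (2, 11, 0), (10, 15, 0),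
      (1, 11, 0), (9, 15, 0), (4, 12, 0)]⟩),
  (123, ⟨1, 4, [(0, 0), (16, 16), (23, 23), (39, 39), (68, 69), (84, 85), (91, 92), (94, 95),
    (107, 108), (110, 111), (117, 118), (133, 134), (162, 164), (178, 180), (185, 187),
    (201, 203)], 282, 285,
    [(0, 0, 0), (3, 12, 1), (4, 13, 1), (9, 15, 1), (8, 15, 1), (1, 1, 0), (4, 14, 1),
      (2, 2, 0), (1, 12, 1), (1, 2, 0), (0, 1, 0), (5, 15, 1), (3, 3, 0), (0, 12, 1), (0, 2, 0),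
      (3, 14, 1), (2, 13, 1), (2, 3, 0), (1, 13, 1), (1, 3, 0), (2, 14, 1), (4, 4, 0),
      (1, 14, 1), (0, 13, 1), (0, 3, 0), (3, 15, 1), (5, 5, 0), (0, 14, 1), (6, 6, 0),
      (7, 7, 0), (2, 15, 1), (4, 5, 0), (1, 15, 1), (8, 8, 0), (9, 9, 0), (4, 6, 0),
      (10, 10, 0), (0, 15, 1), (6, 8, 0), (7, 9, 0), (5, 8, 0), (11, 11, 0), (0, 4, 0),
      (7, 10, 0), (3, 6, 0), (2, 5, 0), (3, 7, 0), (1, 5, 0), (9, 11, 0), (2, 6, 0),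
      (12, 12, 0), (1, 6, 0), (0, 5, 0), (1, 7, 0), (3, 8, 0), (13, 13, 0), (0, 6, 0),
      (14, 14, 0), (0, 7, 0), (2, 8, 0), (3, 10, 0), (1, 8, 0), (15, 15, 0), (1, 9, 0),
      (10, 12, 0), (2, 10, 0), (0, 8, 0), (1, 10, 0), (0, 9, 0), (11, 13, 0), (3, 11, 0),
      (7, 12, 0), (0, 10, 0), (11, 14, 0), (5, 12, 0), (2, 11, 0), (9, 13, 0), (1, 11, 0),
      (10, 14, 0), (4, 12, 0), (9, 14, 0), (7, 13, 0), (0, 11, 0), (11, 15, 0), (5, 13, 0),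
      (7, 14, 0), (6, 14, 0)]⟩),
  (124, ⟨1, 4, [(0, 0), (14, 14), (38, 38), (52, 52), (58, 59), (72, 73), (96, 97), (99, 100),
    (110, 111), (113, 114), (137, 138), (151, 152), (157, 159), (171, 173), (195, 197),
    (209, 211)], 297, 300,
    [(0, 0, 0), (1, 12, 1), (2, 13, 1), (8, 15, 1), (1, 1, 0), (0, 12, 1), (5, 14, 1),
      (6, 15, 1), (0, 1, 0), (1, 13, 1), (4, 14, 1), (2, 2, 0), (3, 14, 1), (0, 13, 1),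
      (5, 15, 1), (3, 3, 0), (2, 14, 1), (4, 4, 0), (1, 2, 0), (2, 3, 0), (3, 15, 1), (5, 5, 0),
      (0, 2, 0), (1, 14, 1), (2, 15, 1), (4, 5, 0), (1, 3, 0), (0, 14, 1), (6, 6, 0), (7, 7, 0),
      (1, 4, 0), (0, 3, 0), (1, 15, 1), (8, 8, 0), (9, 9, 0), (0, 4, 0), (5, 6, 0), (6, 8, 0),
      (5, 7, 0), (6, 9, 0), (4, 6, 0), (10, 10, 0), (3, 6, 0), (0, 5, 0), (5, 8, 0),
      (11, 11, 0), (2, 6, 0), (12, 12, 0), (9, 10, 0), (10, 11, 0), (3, 8, 0), (13, 13, 0),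
      (3, 9, 0), (1, 6, 0), (2, 8, 0), (1, 7, 0), (2, 9, 0), (0, 6, 0), (14, 14, 0), (0, 7, 0),
      (5, 10, 0), (6, 11, 0), (1, 8, 0), (15, 15, 0), (1, 9, 0), (4, 10, 0), (6, 12, 0),
      (3, 10, 0), (0, 9, 0), (5, 11, 0), (8, 13, 0), (2, 10, 0), (11, 14, 0), (5, 12, 0),
      (6, 13, 0), (3, 11, 0), (10, 14, 0), (4, 12, 0), (1, 10, 0), (2, 11, 0), (11, 15, 0),
      (5, 13, 0), (0, 10, 0), (2, 12, 0), (8, 14, 0), (4, 13, 0), (1, 11, 0), (3, 13, 0),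
      (6, 14, 0)]⟩),
  (129, ⟨2, 3, [(0, 0), (27, 28), (75, 74), (84, 83), (102, 102), (111, 111), (159, 157),
    (186, 185)], 252, 249,
    [(0, 0, 0), (5, 7, 1), (4, 7, 1), (1, 1, 0), (1, 6, 1), (2, 7, 1), (0, 1, 0), (0, 6, 1),
      (2, 2, 0), (3, 3, 0), (1, 7, 1), (4, 4, 0), (5, 5, 0), (0, 7, 1), (2, 4, 0), (1, 3, 0),
      (0, 2, 0), (6, 6, 0), (0, 3, 0), (1, 4, 0), (7, 7, 0), (1, 5, 0), (0, 4, 0), (4, 6, 0),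
      (0, 5, 0), (3, 6, 0), (2, 6, 0)]⟩),
  (130, ⟨2, 3, [(0, 0), (28, 28), (74, 75), (83, 84), (102, 103), (111, 112), (157, 159),
    (185, 187)], 249, 252,
    [(0, 0, 0), (5, 7, 1), (4, 7, 1), (1, 1, 0), (1, 6, 1), (2, 7, 1), (0, 1, 0), (0, 6, 1),
      (2, 2, 0), (3, 3, 0), (1, 7, 1), (4, 4, 0), (5, 5, 0), (0, 7, 1), (2, 4, 0), (1, 3, 0),
      (0, 2, 0), (6, 6, 0), (0, 3, 0), (1, 4, 0), (7, 7, 0), (1, 5, 0), (0, 4, 0), (4, 6, 0),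
      (0, 5, 0), (3, 6, 0), (2, 6, 0)]⟩),
  (131, ⟨2, 3, [(0, 0), (19, 19), (56, 57), (75, 76), (84, 85), (140, 142), (159, 161),
    (187, 189)], 252, 255,
    [(0, 0, 0), (2, 6, 1), (1, 1, 0), (0, 5, 1), (0, 1, 0), (1, 6, 1), (2, 2, 0), (0, 6, 1),
      (3, 3, 0), (4, 4, 0), (1, 2, 0), (1, 7, 1), (0, 2, 0), (0, 7, 1), (1, 3, 0), (5, 5, 0),
      (0, 3, 0), (6, 6, 0), (0, 4, 0), (5, 6, 0), (7, 7, 0), (4, 5, 0), (3, 5, 0), (6, 7, 0),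
      (2, 5, 0), (4, 6, 0), (3, 6, 0)]⟩),
  (132, ⟨2, 3, [(0, 0), (28, 28), (76, 77), (85, 86), (104, 105), (113, 114), (161, 163),
    (189, 191)], 255, 258,
    [(0, 0, 0), (5, 7, 1), (4, 7, 1), (1, 1, 0), (1, 6, 1), (2, 7, 1), (0, 1, 0), (0, 6, 1),
      (2, 2, 0), (3, 3, 0), (1, 7, 1), (4, 4, 0), (5, 5, 0), (0, 7, 1), (2, 4, 0), (1, 3, 0),
      (0, 2, 0), (6, 6, 0), (0, 3, 0), (1, 4, 0), (7, 7, 0), (1, 5, 0), (0, 4, 0), (4, 6, 0),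
      (0, 5, 0), (3, 6, 0), (2, 6, 0)]⟩),
  (133, ⟨2, 3, [(0, 0), (28, 29), (77, 76), (86, 85), (105, 105), (114, 114), (163, 161),
    (191, 190)], 258, 255,
    [(0, 0, 0), (5, 7, 1), (4, 7, 1), (1, 1, 0), (1, 6, 1), (2, 7, 1), (0, 1, 0), (0, 6, 1),
      (2, 2, 0), (3, 3, 0), (1, 7, 1), (4, 4, 0), (5, 5, 0), (0, 7, 1), (2, 4, 0), (1, 3, 0),
      (0, 2, 0), (6, 6, 0), (0, 3, 0), (1, 4, 0), (7, 7, 0), (1, 5, 0), (0, 4, 0), (4, 6, 0),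
      (0, 5, 0), (3, 6, 0), (2, 6, 0)]⟩),
  (134, ⟨2, 3, [(0, 0), (29, 29), (76, 77), (85, 86), (105, 106), (114, 115), (161, 163),
    (190, 192)], 255, 258,
    [(0, 0, 0), (5, 7, 1), (4, 7, 1), (1, 1, 0), (1, 6, 1), (2, 7, 1), (0, 1, 0), (0, 6, 1),
      (2, 2, 0), (3, 3, 0), (1, 7, 1), (4, 4, 0), (5, 5, 0), (0, 7, 1), (2, 4, 0), (1, 3, 0),
      (0, 2, 0), (6, 6, 0), (0, 3, 0), (1, 4, 0), (7, 7, 0), (1, 5, 0), (0, 4, 0), (4, 6, 0),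
      (0, 5, 0), (3, 6, 0), (2, 6, 0)]⟩),
  (159, ⟨2, 3, [(0, 0), (30, 31), (51, 49), (81, 80), (141, 138), (171, 169), (180, 178),
    (210, 209)], 270, 267,
    [(0, 0, 0), (0, 4, 1), (2, 5, 1), (1, 1, 0), (1, 5, 1), (2, 2, 0), (0, 1, 0), (0, 5, 1),
      (3, 3, 0), (0, 6, 1), (0, 2, 0), (2, 3, 0), (1, 7, 1), (1, 3, 0), (4, 4, 0), (0, 7, 1),
      (0, 3, 0), (5, 5, 0), (6, 6, 0), (5, 6, 0), (4, 5, 0), (7, 7, 0), (4, 6, 0), (2, 4, 0),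
      (6, 7, 0), (1, 4, 0), (3, 5, 0)]⟩),
  (160, ⟨2, 3, [(0, 0), (31, 31), (49, 50), (80, 81), (138, 140), (169, 171), (178, 180),
    (209, 211)], 267, 270,
    [(0, 0, 0), (0, 4, 1), (2, 5, 1), (1, 1, 0), (1, 5, 1), (2, 2, 0), (0, 1, 0), (0, 5, 1),
      (3, 3, 0), (0, 6, 1), (0, 2, 0), (2, 3, 0), (1, 7, 1), (1, 3, 0), (4, 4, 0), (0, 7, 1),
      (0, 3, 0), (5, 5, 0), (6, 6, 0), (5, 6, 0), (4, 5, 0), (7, 7, 0), (4, 6, 0), (2, 4, 0),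
      (6, 7, 0), (1, 4, 0), (3, 5, 0)]⟩),
  (161, ⟨2, 3, [(0, 0), (31, 31), (50, 51), (81, 82), (140, 142), (171, 173), (180, 182),
    (211, 213)], 270, 273,
    [(0, 0, 0), (0, 4, 1), (2, 5, 1), (1, 1, 0), (1, 5, 1), (2, 2, 0), (0, 1, 0), (0, 5, 1),
      (3, 3, 0), (0, 6, 1), (0, 2, 0), (2, 3, 0), (1, 7, 1), (1, 3, 0), (4, 4, 0), (0, 7, 1),
      (0, 3, 0), (5, 5, 0), (6, 6, 0), (5, 6, 0), (4, 5, 0), (7, 7, 0), (4, 6, 0), (2, 4, 0),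
      (6, 7, 0), (1, 4, 0), (3, 5, 0)]⟩),
  (210, ⟨2, 3, [(0, 0), (18, 19), (87, 87), (105, 106), (132, 134), (141, 143), (219, 221),
    (228, 230)], 255, 258,
    [(0, 0, 0), (0, 4, 1), (1, 1, 0), (0, 5, 1), (0, 1, 0), (5, 6, 1), (4, 6, 1), (5, 7, 1),
      (4, 7, 1), (3, 6, 1), (2, 2, 0), (2, 6, 1), (3, 3, 0), (2, 7, 1), (2, 3, 0), (4, 4, 0),
      (5, 5, 0), (4, 5, 0), (1, 2, 0), (1, 6, 1), (0, 2, 0), (0, 6, 1), (1, 3, 0), (0, 7, 1),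
      (0, 3, 0), (6, 6, 0), (7, 7, 0), (6, 7, 0), (1, 4, 0)]⟩),
  (211, ⟨2, 3, [(0, 0), (19, 18), (87, 88), (106, 106), (134, 133), (143, 142), (221, 221),
    (230, 230)], 258, 257,
    [(0, 0, 0), (0, 4, 1), (1, 1, 0), (0, 5, 1), (0, 1, 0), (5, 6, 1), (4, 6, 1), (5, 7, 1),
      (4, 7, 1), (3, 6, 1), (2, 2, 0), (2, 6, 1), (3, 3, 0), (2, 7, 1), (2, 3, 0), (4, 4, 0),
      (5, 5, 0), (4, 5, 0), (1, 2, 0), (1, 6, 1), (0, 2, 0), (0, 6, 1), (1, 3, 0), (0, 7, 1),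
      (0, 3, 0), (6, 6, 0), (7, 7, 0), (6, 7, 0), (1, 4, 0)]⟩),
  (212, ⟨2, 3, [(0, 0), (18, 19), (88, 88), (106, 107), (133, 135), (142, 144), (221, 223),
    (230, 232)], 257, 260,
    [(0, 0, 0), (0, 4, 1), (1, 1, 0), (0, 5, 1), (0, 1, 0), (5, 6, 1), (4, 6, 1), (5, 7, 1),
      (4, 7, 1), (3, 6, 1), (2, 2, 0), (2, 6, 1), (3, 3, 0), (2, 7, 1), (2, 3, 0), (4, 4, 0),
      (5, 5, 0), (4, 5, 0), (1, 2, 0), (1, 6, 1), (0, 2, 0), (0, 6, 1), (1, 3, 0), (0, 7, 1),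
      (0, 3, 0), (6, 6, 0), (7, 7, 0), (6, 7, 0), (1, 4, 0)]⟩),
  (213, ⟨2, 3, [(0, 0), (19, 18), (88, 89), (107, 107), (135, 134), (144, 143), (223, 223),
    (232, 232)], 260, 259,
    [(0, 0, 0), (0, 4, 1), (1, 1, 0), (0, 5, 1), (0, 1, 0), (5, 6, 1), (4, 6, 1), (5, 7, 1),
      (4, 7, 1), (3, 6, 1), (2, 2, 0), (2, 6, 1), (3, 3, 0), (2, 7, 1), (2, 3, 0), (4, 4, 0),
      (5, 5, 0), (4, 5, 0), (1, 2, 0), (1, 6, 1), (0, 2, 0), (0, 6, 1), (1, 3, 0), (0, 7, 1),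
      (0, 3, 0), (6, 6, 0), (7, 7, 0), (6, 7, 0), (1, 4, 0)]⟩),
  (214, ⟨2, 3, [(0, 0), (18, 19), (89, 89), (107, 108), (134, 136), (143, 145), (223, 225),
    (232, 234)], 259, 262,
    [(0, 0, 0), (0, 4, 1), (1, 1, 0), (0, 5, 1), (0, 1, 0), (5, 6, 1), (4, 6, 1), (5, 7, 1),
      (4, 7, 1), (3, 6, 1), (2, 2, 0), (2, 6, 1), (3, 3, 0), (2, 7, 1), (2, 3, 0), (4, 4, 0),
      (5, 5, 0), (4, 5, 0), (1, 2, 0), (1, 6, 1), (0, 2, 0), (0, 6, 1), (1, 3, 0), (0, 7, 1),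
      (0, 3, 0), (6, 6, 0), (7, 7, 0), (6, 7, 0), (1, 4, 0)]⟩),
  (215, ⟨2, 3, [(0, 0), (19, 18), (89, 90), (108, 108), (136, 135), (145, 144), (225, 225),
    (234, 234)], 262, 261,
    [(0, 0, 0), (0, 4, 1), (1, 1, 0), (0, 5, 1), (0, 1, 0), (5, 6, 1), (4, 6, 1), (5, 7, 1),
      (4, 7, 1), (3, 6, 1), (2, 2, 0), (2, 6, 1), (3, 3, 0), (2, 7, 1), (2, 3, 0), (4, 4, 0),
      (5, 5, 0), (4, 5, 0), (1, 2, 0), (1, 6, 1), (0, 2, 0), (0, 6, 1), (1, 3, 0), (0, 7, 1),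
      (0, 3, 0), (6, 6, 0), (7, 7, 0), (6, 7, 0), (1, 4, 0)]⟩),
  (282, ⟨2, 3, [(0, 0), (21, 21), (97, 98), (121, 121), (161, 162), (185, 185), (261, 262),
    (282, 283)], 291, 292,
    [(0, 0, 0), (6, 7, 1), (1, 1, 0), (0, 4, 1), (0, 1, 0), (5, 6, 1), (1, 5, 1), (4, 6, 1),
      (0, 5, 1), (5, 7, 1), (2, 2, 0), (3, 6, 1), (4, 7, 1), (3, 3, 0), (2, 6, 1), (2, 3, 0),
      (3, 7, 1), (4, 4, 0), (1, 2, 0), (2, 7, 1), (5, 5, 0), (0, 2, 0), (3, 4, 0), (1, 6, 1),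
      (1, 3, 0), (0, 6, 1), (0, 3, 0), (1, 7, 1), (6, 6, 0), (0, 7, 1), (7, 7, 0)]⟩)]

theorem stepTab2_ok : (stepTab2.all fun p => p.2.chkStep p.1) = true := by decide +kernel

def stepTab3 : List (ℕ × Cert) := [
  (283, ⟨2, 3, [(0, 0), (21, 21), (98, 98), (121, 122), (162, 162), (185, 186), (262, 263),
    (283, 284)], 292, 293,
    [(0, 0, 0), (6, 7, 1), (1, 1, 0), (0, 4, 1), (0, 1, 0), (5, 6, 1), (1, 5, 1), (4, 6, 1),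
      (0, 5, 1), (5, 7, 1), (2, 2, 0), (3, 6, 1), (4, 7, 1), (3, 3, 0), (2, 6, 1), (2, 3, 0),
      (3, 7, 1), (4, 4, 0), (1, 2, 0), (2, 7, 1), (5, 5, 0), (0, 2, 0), (3, 4, 0), (1, 6, 1),
      (1, 3, 0), (0, 6, 1), (0, 3, 0), (1, 7, 1), (6, 6, 0), (0, 7, 1), (7, 7, 0)]⟩),
  (284, ⟨2, 3, [(0, 0), (21, 21), (98, 98), (122, 123), (162, 162), (186, 187), (263, 264),
    (284, 285)], 293, 294,
    [(0, 0, 0), (6, 7, 1), (1, 1, 0), (0, 4, 1), (0, 1, 0), (5, 6, 1), (1, 5, 1), (4, 6, 1),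
      (0, 5, 1), (5, 7, 1), (2, 2, 0), (3, 6, 1), (4, 7, 1), (3, 3, 0), (2, 6, 1), (2, 3, 0),
      (3, 7, 1), (4, 4, 0), (1, 2, 0), (2, 7, 1), (5, 5, 0), (0, 2, 0), (3, 4, 0), (1, 6, 1),
      (1, 3, 0), (0, 6, 1), (0, 3, 0), (1, 7, 1), (6, 6, 0), (0, 7, 1), (7, 7, 0)]⟩),
  (285, ⟨2, 3, [(0, 0), (21, 22), (98, 99), (123, 121), (162, 165), (187, 187), (264, 264),
    (285, 286)], 294, 295,
    [(0, 0, 0), (6, 7, 1), (1, 1, 0), (0, 4, 1), (0, 1, 0), (5, 6, 1), (1, 5, 1), (4, 6, 1),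
      (0, 5, 1), (5, 7, 1), (2, 2, 0), (3, 6, 1), (4, 7, 1), (3, 3, 0), (2, 6, 1), (2, 3, 0),
      (3, 7, 1), (4, 4, 0), (1, 2, 0), (2, 7, 1), (5, 5, 0), (0, 2, 0), (3, 4, 0), (1, 6, 1),
      (1, 3, 0), (0, 6, 1), (0, 3, 0), (1, 7, 1), (6, 6, 0), (0, 7, 1), (7, 7, 0)]⟩),
  (286, ⟨2, 3, [(0, 0), (22, 22), (99, 99), (121, 122), (165, 165), (187, 188), (264, 265),
    (286, 287)], 295, 296,
    [(0, 0, 0), (6, 7, 1), (1, 1, 0), (0, 4, 1), (5, 6, 1), (1, 5, 1), (4, 6, 1), (0, 5, 1),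
      (5, 7, 1), (2, 2, 0), (3, 6, 1), (4, 7, 1), (3, 3, 0), (2, 6, 1), (2, 3, 0), (3, 7, 1),
      (4, 4, 0), (1, 2, 0), (2, 7, 1), (5, 5, 0), (0, 2, 0), (4, 5, 0), (1, 3, 0), (0, 6, 1),
      (0, 3, 0), (1, 7, 1), (6, 6, 0), (0, 7, 1), (7, 7, 0)]⟩),
  (287, ⟨2, 3, [(0, 0), (22, 22), (99, 99), (122, 123), (165, 165), (188, 189), (265, 266),
    (287, 288)], 296, 297,
    [(0, 0, 0), (6, 7, 1), (1, 1, 0), (0, 4, 1), (5, 6, 1), (1, 5, 1), (4, 6, 1), (0, 5, 1),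
      (5, 7, 1), (2, 2, 0), (3, 6, 1), (4, 7, 1), (3, 3, 0), (2, 6, 1), (2, 3, 0), (3, 7, 1),
      (4, 4, 0), (1, 2, 0), (2, 7, 1), (5, 5, 0), (0, 2, 0), (3, 4, 0), (1, 6, 1), (1, 3, 0),
      (0, 6, 1), (0, 3, 0), (1, 7, 1), (6, 6, 0), (0, 7, 1), (7, 7, 0)]⟩),
  (288, ⟨2, 3, [(0, 0), (22, 22), (99, 100), (123, 123), (165, 166), (189, 189), (266, 267),
    (288, 289)], 297, 298,
    [(0, 0, 0), (6, 7, 1), (1, 1, 0), (0, 4, 1), (5, 6, 1), (1, 5, 1), (4, 6, 1), (0, 5, 1),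
      (5, 7, 1), (2, 2, 0), (3, 6, 1), (4, 7, 1), (3, 3, 0), (2, 6, 1), (2, 3, 0), (3, 7, 1),
      (4, 4, 0), (1, 2, 0), (2, 7, 1), (5, 5, 0), (0, 2, 0), (3, 4, 0), (1, 6, 1), (1, 3, 0),
      (0, 6, 1), (0, 3, 0), (1, 7, 1), (6, 6, 0), (0, 7, 1), (7, 7, 0)]⟩),
  (289, ⟨2, 3, [(0, 0), (22, 22), (100, 100), (123, 124), (166, 166), (189, 190), (267, 268),
    (289, 290)], 298, 299,
    [(0, 0, 0), (6, 7, 1), (1, 1, 0), (0, 4, 1), (0, 1, 0), (5, 6, 1), (1, 5, 1), (4, 6, 1),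
      (0, 5, 1), (5, 7, 1), (2, 2, 0), (3, 6, 1), (4, 7, 1), (3, 3, 0), (2, 6, 1), (2, 3, 0),
      (3, 7, 1), (4, 4, 0), (1, 2, 0), (2, 7, 1), (5, 5, 0), (0, 2, 0), (3, 4, 0), (1, 6, 1),
      (1, 3, 0), (0, 6, 1), (0, 3, 0), (1, 7, 1), (6, 6, 0), (0, 7, 1), (7, 7, 0)]⟩),
  (290, ⟨2, 3, [(0, 0), (22, 22), (100, 100), (124, 125), (166, 166), (190, 191), (268, 269),
    (290, 291)], 299, 300,
    [(0, 0, 0), (6, 7, 1), (1, 1, 0), (0, 4, 1), (0, 1, 0), (5, 6, 1), (1, 5, 1), (4, 6, 1),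
      (0, 5, 1), (5, 7, 1), (2, 2, 0), (3, 6, 1), (4, 7, 1), (3, 3, 0), (2, 6, 1), (2, 3, 0),
      (3, 7, 1), (4, 4, 0), (1, 2, 0), (2, 7, 1), (5, 5, 0), (0, 2, 0), (3, 4, 0), (1, 6, 1),
      (1, 3, 0), (0, 6, 1), (0, 3, 0), (1, 7, 1), (6, 6, 0), (0, 7, 1), (7, 7, 0)]⟩),
  (294, ⟨2, 3, [(0, 0), (22, 23), (101, 102), (127, 125), (167, 170), (193, 193), (272, 272),
    (294, 295)], 303, 304,
    [(0, 0, 0), (1, 4, 1), (6, 7, 1), (1, 1, 0), (0, 4, 1), (0, 1, 0), (5, 6, 1), (1, 5, 1),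
      (4, 6, 1), (0, 5, 1), (5, 7, 1), (2, 2, 0), (3, 6, 1), (4, 7, 1), (3, 3, 0), (2, 6, 1),
      (2, 3, 0), (3, 7, 1), (4, 4, 0), (1, 2, 0), (2, 7, 1), (5, 5, 0), (0, 2, 0), (3, 4, 0),
      (1, 6, 1), (1, 3, 0), (0, 6, 1), (0, 3, 0), (1, 7, 1), (6, 6, 0), (2, 5, 0), (0, 7, 1),
      (7, 7, 0)]⟩),
  (295, ⟨2, 3, [(0, 0), (23, 23), (102, 102), (125, 126), (170, 170), (193, 194), (272, 273),
    (295, 296)], 304, 305,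
    [(0, 0, 0), (1, 4, 1), (6, 7, 1), (1, 1, 0), (0, 4, 1), (5, 6, 1), (1, 5, 1), (4, 6, 1),
      (0, 5, 1), (5, 7, 1), (2, 2, 0), (3, 6, 1), (4, 7, 1), (3, 3, 0), (2, 6, 1), (2, 3, 0),
      (3, 7, 1), (4, 4, 0), (1, 2, 0), (2, 7, 1), (5, 5, 0), (0, 2, 0), (3, 4, 0), (1, 6, 1),
      (1, 3, 0), (0, 6, 1), (0, 3, 0), (1, 7, 1), (6, 6, 0), (2, 5, 0), (0, 7, 1), (7, 7, 0)]⟩),
  (296, ⟨2, 3, [(0, 0), (23, 23), (102, 103), (126, 126), (170, 171), (194, 194), (273, 274),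
    (296, 297)], 305, 306,
    [(0, 0, 0), (1, 4, 1), (6, 7, 1), (1, 1, 0), (0, 4, 1), (5, 6, 1), (1, 5, 1), (4, 6, 1),
      (0, 5, 1), (5, 7, 1), (2, 2, 0), (3, 6, 1), (4, 7, 1), (3, 3, 0), (2, 6, 1), (2, 3, 0),
      (3, 7, 1), (4, 4, 0), (1, 2, 0), (2, 7, 1), (5, 5, 0), (0, 2, 0), (3, 4, 0), (1, 6, 1),
      (1, 3, 0), (0, 6, 1), (0, 3, 0), (1, 7, 1), (6, 6, 0), (2, 5, 0), (0, 7, 1), (7, 7, 0)]⟩),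
  (297, ⟨2, 3, [(0, 0), (23, 23), (103, 103), (126, 127), (171, 171), (194, 195), (274, 275),
    (297, 298)], 306, 307,
    [(0, 0, 0), (1, 4, 1), (6, 7, 1), (1, 1, 0), (0, 4, 1), (5, 6, 1), (1, 5, 1), (4, 6, 1),
      (0, 5, 1), (5, 7, 1), (2, 2, 0), (3, 6, 1), (4, 7, 1), (3, 3, 0), (2, 6, 1), (2, 3, 0),
      (3, 7, 1), (4, 4, 0), (1, 2, 0), (2, 7, 1), (5, 5, 0), (0, 2, 0), (4, 5, 0), (1, 3, 0),
      (0, 6, 1), (0, 3, 0), (1, 7, 1), (6, 6, 0), (2, 5, 0), (0, 7, 1), (7, 7, 0)]⟩),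
  (298, ⟨2, 3, [(0, 0), (23, 23), (103, 103), (127, 128), (171, 171), (195, 196), (275, 276),
    (298, 299)], 307, 308,
    [(0, 0, 0), (1, 4, 1), (6, 7, 1), (1, 1, 0), (0, 4, 1), (0, 1, 0), (5, 6, 1), (1, 5, 1),
      (4, 6, 1), (0, 5, 1), (5, 7, 1), (2, 2, 0), (3, 6, 1), (4, 7, 1), (3, 3, 0), (2, 6, 1),
      (2, 3, 0), (3, 7, 1), (4, 4, 0), (1, 2, 0), (2, 7, 1), (5, 5, 0), (0, 2, 0), (3, 4, 0),
      (1, 6, 1), (1, 3, 0), (0, 6, 1), (0, 3, 0), (1, 7, 1), (6, 6, 0), (2, 5, 0), (0, 7, 1),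
      (7, 7, 0)]⟩),
  (299, ⟨2, 3, [(0, 0), (23, 23), (103, 104), (128, 128), (171, 172), (196, 196), (276, 277),
    (299, 300)], 308, 309,
    [(0, 0, 0), (1, 4, 1), (6, 7, 1), (1, 1, 0), (0, 4, 1), (0, 1, 0), (5, 6, 1), (1, 5, 1),
      (4, 6, 1), (0, 5, 1), (5, 7, 1), (2, 2, 0), (3, 6, 1), (4, 7, 1), (3, 3, 0), (2, 6, 1),
      (2, 3, 0), (3, 7, 1), (4, 4, 0), (1, 2, 0), (2, 7, 1), (5, 5, 0), (0, 2, 0), (3, 4, 0),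
      (1, 6, 1), (1, 3, 0), (0, 6, 1), (0, 3, 0), (1, 7, 1), (6, 6, 0), (2, 5, 0), (0, 7, 1),
      (7, 7, 0)]⟩),
  (300, ⟨2, 3, [(0, 0), (23, 23), (104, 104), (128, 129), (172, 172), (196, 197), (277, 278),
    (300, 301)], 309, 310,
    [(0, 0, 0), (1, 4, 1), (6, 7, 1), (1, 1, 0), (0, 4, 1), (0, 1, 0), (5, 6, 1), (1, 5, 1),
      (4, 6, 1), (0, 5, 1), (5, 7, 1), (2, 2, 0), (3, 6, 1), (4, 7, 1), (3, 3, 0), (2, 6, 1),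
      (2, 3, 0), (3, 7, 1), (4, 4, 0), (1, 2, 0), (2, 7, 1), (5, 5, 0), (0, 2, 0), (3, 4, 0),
      (1, 6, 1), (1, 3, 0), (0, 6, 1), (0, 3, 0), (1, 7, 1), (6, 6, 0), (2, 5, 0), (0, 7, 1),
      (7, 7, 0)]⟩),
  (301, ⟨2, 3, [(0, 0), (23, 23), (104, 104), (129, 130), (172, 172), (197, 198), (278, 279),
    (301, 302)], 310, 311,
    [(0, 0, 0), (1, 4, 1), (6, 7, 1), (1, 1, 0), (0, 4, 1), (0, 1, 0), (5, 6, 1), (1, 5, 1),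
      (4, 6, 1), (0, 5, 1), (5, 7, 1), (2, 2, 0), (3, 6, 1), (4, 7, 1), (3, 3, 0), (2, 6, 1),
      (2, 3, 0), (3, 7, 1), (4, 4, 0), (1, 2, 0), (2, 7, 1), (5, 5, 0), (0, 2, 0), (3, 4, 0),
      (1, 6, 1), (1, 3, 0), (0, 6, 1), (0, 3, 0), (1, 7, 1), (6, 6, 0), (2, 5, 0), (0, 7, 1),
      (7, 7, 0)]⟩),
  (302, ⟨2, 3, [(0, 0), (23, 24), (104, 105), (130, 129), (172, 174), (198, 198), (279, 279),
    (302, 303)], 311, 312,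
    [(0, 0, 0), (1, 4, 1), (6, 7, 1), (1, 1, 0), (0, 4, 1), (0, 1, 0), (5, 6, 1), (1, 5, 1),
      (4, 6, 1), (0, 5, 1), (5, 7, 1), (2, 2, 0), (3, 6, 1), (4, 7, 1), (3, 3, 0), (2, 6, 1),
      (2, 3, 0), (3, 7, 1), (4, 4, 0), (1, 2, 0), (2, 7, 1), (5, 5, 0), (0, 2, 0), (3, 4, 0),
      (1, 6, 1), (1, 3, 0), (0, 6, 1), (0, 3, 0), (1, 7, 1), (6, 6, 0), (2, 5, 0), (0, 7, 1),
      (7, 7, 0)]⟩),
  (306, ⟨2, 3, [(0, 0), (24, 24), (106, 106), (130, 131), (176, 176), (200, 201), (282, 283),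
    (306, 307)], 315, 316,
    [(0, 0, 0), (1, 4, 1), (6, 7, 1), (1, 1, 0), (0, 4, 1), (5, 6, 1), (1, 5, 1), (4, 6, 1),
      (0, 5, 1), (5, 7, 1), (2, 2, 0), (3, 6, 1), (4, 7, 1), (3, 3, 0), (2, 6, 1), (2, 3, 0),
      (3, 7, 1), (4, 4, 0), (1, 2, 0), (2, 7, 1), (5, 5, 0), (0, 2, 0), (3, 4, 0), (1, 6, 1),
      (1, 3, 0), (0, 6, 1), (0, 3, 0), (1, 7, 1), (6, 6, 0), (2, 5, 0), (0, 7, 1), (7, 7, 0)]⟩),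
  (307, ⟨2, 3, [(0, 0), (24, 24), (106, 107), (131, 131), (176, 177), (201, 201), (283, 284),
    (307, 308)], 316, 317,
    [(0, 0, 0), (1, 4, 1), (6, 7, 1), (1, 1, 0), (0, 4, 1), (5, 6, 1), (1, 5, 1), (4, 6, 1),
      (0, 5, 1), (5, 7, 1), (2, 2, 0), (3, 6, 1), (4, 7, 1), (3, 3, 0), (2, 6, 1), (2, 3, 0),
      (3, 7, 1), (4, 4, 0), (1, 2, 0), (2, 7, 1), (5, 5, 0), (0, 2, 0), (3, 4, 0), (1, 6, 1),
      (1, 3, 0), (0, 6, 1), (0, 3, 0), (1, 7, 1), (6, 6, 0), (2, 5, 0), (0, 7, 1), (7, 7, 0)]⟩),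
  (308, ⟨2, 3, [(0, 0), (24, 24), (107, 107), (131, 132), (177, 177), (201, 202), (284, 285),
    (308, 309)], 317, 318,
    [(0, 0, 0), (1, 4, 1), (6, 7, 1), (1, 1, 0), (0, 4, 1), (0, 1, 0), (5, 6, 1), (1, 5, 1),
      (4, 6, 1), (0, 5, 1), (5, 7, 1), (2, 2, 0), (3, 6, 1), (4, 7, 1), (3, 3, 0), (2, 6, 1),
      (2, 3, 0), (3, 7, 1), (4, 4, 0), (1, 2, 0), (2, 7, 1), (5, 5, 0), (0, 2, 0), (4, 5, 0),
      (1, 3, 0), (0, 6, 1), (0, 3, 0), (1, 7, 1), (6, 6, 0), (2, 5, 0), (0, 7, 1), (7, 7, 0)]⟩)]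

theorem stepTab3_ok : (stepTab3.all fun p => p.2.chkStep p.1) = true := by decide +kernel

def stepTab4 : List (ℕ × Cert) := [
  (309, ⟨2, 3, [(0, 0), (24, 24), (107, 107), (132, 133), (177, 177), (202, 203), (285, 286),
    (309, 310)], 318, 319,
    [(0, 0, 0), (1, 4, 1), (6, 7, 1), (1, 1, 0), (0, 4, 1), (0, 1, 0), (5, 6, 1), (1, 5, 1),
      (4, 6, 1), (0, 5, 1), (5, 7, 1), (2, 2, 0), (3, 6, 1), (4, 7, 1), (3, 3, 0), (2, 6, 1),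
      (2, 3, 0), (3, 7, 1), (4, 4, 0), (1, 2, 0), (2, 7, 1), (5, 5, 0), (0, 2, 0), (3, 4, 0),
      (1, 6, 1), (1, 3, 0), (0, 6, 1), (0, 3, 0), (1, 7, 1), (6, 6, 0), (2, 5, 0), (0, 7, 1),
      (7, 7, 0)]⟩),
  (310, ⟨2, 3, [(0, 0), (32, 32), (53, 53), (86, 86), (224, 225), (257, 258), (278, 279),
    (310, 311)], 319, 320,
    [(0, 0, 0), (4, 6, 1), (6, 7, 1), (1, 1, 0), (5, 7, 1), (2, 2, 0), (0, 1, 0), (4, 7, 1),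
      (3, 3, 0), (1, 4, 1), (0, 2, 0), (2, 3, 0), (0, 4, 1), (1, 3, 0), (3, 6, 1), (1, 5, 1),
      (0, 3, 0), (2, 6, 1), (0, 5, 1), (1, 6, 1), (3, 7, 1), (4, 4, 0), (0, 6, 1), (2, 7, 1),
      (5, 5, 0), (1, 7, 1), (6, 6, 0), (4, 5, 0), (0, 7, 1), (7, 7, 0)]⟩),
  (311, ⟨2, 3, [(0, 0), (32, 32), (53, 54), (86, 86), (225, 226), (258, 258), (279, 280),
    (311, 312)], 320, 321,
    [(0, 0, 0), (4, 6, 1), (6, 7, 1), (1, 1, 0), (3, 4, 1), (2, 2, 0), (0, 1, 0), (2, 4, 1),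
      (3, 3, 0), (1, 4, 1), (0, 2, 0), (2, 3, 0), (0, 4, 1), (1, 3, 0), (3, 6, 1), (1, 5, 1),
      (0, 3, 0), (2, 6, 1), (0, 5, 1), (1, 6, 1), (3, 7, 1), (4, 4, 0), (0, 6, 1), (2, 7, 1),
      (5, 5, 0), (1, 7, 1), (6, 6, 0), (4, 5, 0), (0, 7, 1), (7, 7, 0)]⟩),
  (315, ⟨2, 3, [(0, 0), (33, 33), (54, 55), (87, 88), (228, 228), (261, 261), (282, 283),
    (315, 316)], 324, 325,
    [(0, 0, 0), (4, 6, 1), (6, 7, 1), (1, 1, 0), (5, 7, 1), (2, 2, 0), (0, 1, 0), (4, 7, 1),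
      (3, 3, 0), (1, 4, 1), (0, 2, 0), (2, 3, 0), (0, 4, 1), (1, 3, 0), (3, 6, 1), (1, 5, 1),
      (0, 3, 0), (2, 6, 1), (0, 5, 1), (1, 6, 1), (3, 7, 1), (4, 4, 0), (0, 6, 1), (2, 7, 1),
      (5, 5, 0), (1, 7, 1), (6, 6, 0), (4, 5, 0), (0, 7, 1), (7, 7, 0)]⟩),
  (316, ⟨2, 3, [(0, 0), (33, 33), (55, 55), (88, 88), (228, 229), (261, 262), (283, 284),
    (316, 317)], 325, 326,
    [(0, 0, 0), (4, 6, 1), (6, 7, 1), (1, 1, 0), (5, 7, 1), (2, 2, 0), (0, 1, 0), (4, 7, 1),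
      (3, 3, 0), (1, 4, 1), (0, 2, 0), (2, 3, 0), (0, 4, 1), (1, 3, 0), (3, 6, 1), (1, 5, 1),
      (0, 3, 0), (2, 6, 1), (0, 5, 1), (1, 6, 1), (3, 7, 1), (4, 4, 0), (0, 6, 1), (2, 7, 1),
      (5, 5, 0), (1, 7, 1), (6, 6, 0), (4, 5, 0), (0, 7, 1), (7, 7, 0)]⟩),
  (317, ⟨2, 3, [(0, 0), (25, 25), (110, 110), (135, 136), (182, 182), (207, 208), (292, 293),
    (317, 318)], 326, 327,
    [(0, 0, 0), (1, 4, 1), (6, 7, 1), (1, 1, 0), (0, 4, 1), (0, 1, 0), (5, 6, 1), (1, 5, 1),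
      (4, 6, 1), (0, 5, 1), (5, 7, 1), (2, 2, 0), (3, 6, 1), (4, 7, 1), (3, 3, 0), (2, 6, 1),
      (2, 3, 0), (3, 7, 1), (4, 4, 0), (1, 2, 0), (2, 7, 1), (5, 5, 0), (0, 2, 0), (3, 4, 0),
      (1, 6, 1), (1, 3, 0), (0, 6, 1), (0, 3, 0), (1, 7, 1), (6, 6, 0), (2, 5, 0), (0, 7, 1),
      (7, 7, 0)]⟩),
  (318, ⟨2, 3, [(0, 0), (33, 33), (54, 55), (88, 88), (230, 231), (264, 264), (285, 286),
    (318, 319)], 327, 328,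
    [(0, 0, 0), (4, 6, 1), (6, 7, 1), (1, 1, 0), (3, 4, 1), (2, 2, 0), (0, 1, 0), (2, 4, 1),
      (3, 3, 0), (1, 4, 1), (3, 5, 1), (2, 3, 0), (0, 4, 1), (1, 3, 0), (3, 6, 1), (1, 5, 1),
      (0, 3, 0), (2, 6, 1), (0, 5, 1), (1, 6, 1), (3, 7, 1), (4, 4, 0), (0, 6, 1), (2, 7, 1),
      (5, 5, 0), (1, 7, 1), (6, 6, 0), (4, 5, 0), (0, 7, 1), (7, 7, 0)]⟩),
  (319, ⟨2, 3, [(0, 0), (33, 34), (55, 55), (88, 89), (231, 231), (264, 265), (286, 286),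
    (319, 320)], 328, 329,
    [(0, 0, 0), (4, 6, 1), (6, 7, 1), (1, 1, 0), (5, 7, 1), (2, 2, 0), (0, 1, 0), (4, 7, 1),
      (3, 3, 0), (1, 4, 1), (0, 2, 0), (2, 3, 0), (0, 4, 1), (1, 3, 0), (3, 6, 1), (1, 5, 1),
      (0, 3, 0), (2, 6, 1), (0, 5, 1), (1, 6, 1), (3, 7, 1), (4, 4, 0), (0, 6, 1), (2, 7, 1),
      (5, 5, 0), (1, 7, 1), (6, 6, 0), (4, 5, 0), (0, 7, 1), (7, 7, 0)]⟩),
  (320, ⟨2, 3, [(0, 0), (34, 34), (55, 55), (89, 89), (231, 232), (265, 266), (286, 287),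
    (320, 321)], 329, 330,
    [(0, 0, 0), (4, 6, 1), (6, 7, 1), (1, 1, 0), (5, 7, 1), (2, 2, 0), (0, 1, 0), (4, 7, 1),
      (3, 3, 0), (1, 4, 1), (0, 2, 0), (2, 3, 0), (0, 4, 1), (1, 3, 0), (3, 6, 1), (1, 5, 1),
      (0, 3, 0), (2, 6, 1), (0, 5, 1), (1, 6, 1), (3, 7, 1), (4, 4, 0), (0, 6, 1), (2, 7, 1),
      (5, 5, 0), (1, 7, 1), (6, 6, 0), (4, 5, 0), (0, 7, 1), (7, 7, 0)]⟩),
  (321, ⟨2, 3, [(0, 0), (34, 34), (55, 55), (89, 89), (232, 233), (266, 267), (287, 288),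
    (321, 322)], 330, 331,
    [(0, 0, 0), (4, 6, 1), (6, 7, 1), (1, 1, 0), (5, 7, 1), (2, 2, 0), (0, 1, 0), (4, 7, 1),
      (3, 3, 0), (1, 4, 1), (0, 2, 0), (2, 3, 0), (0, 4, 1), (1, 3, 0), (3, 6, 1), (1, 5, 1),
      (0, 3, 0), (2, 6, 1), (0, 5, 1), (1, 6, 1), (3, 7, 1), (4, 4, 0), (0, 6, 1), (2, 7, 1),
      (5, 5, 0), (1, 7, 1), (6, 6, 0), (4, 5, 0), (0, 7, 1), (7, 7, 0)]⟩),
  (322, ⟨2, 3, [(0, 0), (34, 34), (55, 56), (89, 90), (233, 233), (267, 267), (288, 289),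
    (322, 323)], 331, 332,
    [(0, 0, 0), (4, 6, 1), (6, 7, 1), (1, 1, 0), (5, 7, 1), (2, 2, 0), (0, 1, 0), (4, 7, 1),
      (3, 3, 0), (1, 4, 1), (0, 2, 0), (2, 3, 0), (0, 4, 1), (1, 3, 0), (3, 6, 1), (1, 5, 1),
      (0, 3, 0), (2, 6, 1), (0, 5, 1), (1, 6, 1), (3, 7, 1), (4, 4, 0), (0, 6, 1), (2, 7, 1),
      (5, 5, 0), (1, 7, 1), (6, 6, 0), (4, 5, 0), (0, 7, 1), (7, 7, 0)]⟩),
  (323, ⟨2, 3, [(0, 0), (34, 34), (56, 56), (90, 90), (233, 234), (267, 268), (289, 290),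
    (323, 324)], 332, 333,
    [(0, 0, 0), (4, 6, 1), (6, 7, 1), (1, 1, 0), (5, 7, 1), (2, 2, 0), (0, 1, 0), (4, 7, 1),
      (3, 3, 0), (1, 4, 1), (0, 2, 0), (2, 3, 0), (0, 4, 1), (1, 3, 0), (3, 6, 1), (1, 5, 1),
      (0, 3, 0), (2, 6, 1), (0, 5, 1), (1, 6, 1), (3, 7, 1), (4, 4, 0), (0, 6, 1), (2, 7, 1),
      (5, 5, 0), (1, 7, 1), (6, 6, 0), (4, 5, 0), (0, 7, 1), (7, 7, 0)]⟩),
  (366, ⟨2, 4, [(0, 0), (41, 41), (112, 112), (153, 153), (172, 173), (213, 214), (284, 285),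
    (293, 294), (325, 326), (334, 335), (405, 406), (446, 447), (465, 467), (506, 508),
    (577, 579), (618, 620)], 879, 882,
    [(0, 0, 0), (0, 11, 1), (2, 13, 1), (8, 15, 1), (1, 1, 0), (0, 12, 1), (5, 14, 1),
      (6, 15, 1), (0, 1, 0), (1, 13, 1), (4, 14, 1), (2, 2, 0), (3, 14, 1), (0, 13, 1),
      (5, 15, 1), (3, 3, 0), (2, 14, 1), (4, 4, 0), (1, 2, 0), (2, 3, 0), (3, 15, 1), (5, 5, 0),
      (0, 2, 0), (1, 14, 1), (2, 15, 1), (4, 5, 0), (1, 3, 0), (0, 14, 1), (6, 6, 0), (7, 7, 0),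
      (0, 3, 0), (1, 15, 1), (8, 8, 0), (9, 9, 0), (0, 4, 0), (0, 15, 1), (6, 8, 0), (5, 7, 0),
      (1, 5, 0), (4, 6, 0), (10, 10, 0), (3, 6, 0), (0, 5, 0), (5, 8, 0), (11, 11, 0),
      (2, 6, 0), (12, 12, 0), (2, 7, 0), (8, 10, 0), (3, 8, 0), (13, 13, 0), (3, 9, 0),
      (1, 6, 0), (2, 8, 0), (1, 7, 0), (2, 9, 0), (0, 6, 0), (14, 14, 0), (0, 7, 0), (5, 10, 0),
      (1, 8, 0), (15, 15, 0), (1, 9, 0), (4, 10, 0), (0, 8, 0), (3, 10, 0), (0, 9, 0),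
      (5, 11, 0), (8, 13, 0), (2, 10, 0), (11, 14, 0), (4, 11, 0), (6, 13, 0), (3, 11, 0),
      (10, 14, 0), (4, 12, 0), (1, 10, 0), (2, 11, 0), (11, 15, 0), (5, 13, 0), (0, 10, 0),
      (2, 12, 0), (8, 14, 0), (4, 13, 0), (1, 11, 0), (3, 13, 0), (6, 14, 0)]⟩),
  (367, ⟨2, 4, [(0, 0), (48, 48), (68, 68), (116, 116), (203, 204), (251, 252), (271, 272),
    (280, 281), (319, 320), (328, 329), (348, 349), (396, 397), (483, 485), (531, 533),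
    (551, 553), (599, 601)], 840, 843,
    [(0, 0, 0), (3, 12, 1), (4, 13, 1), (9, 15, 1), (8, 15, 1), (1, 1, 0), (4, 14, 1),
      (2, 2, 0), (1, 12, 1), (1, 2, 0), (0, 1, 0), (5, 15, 1), (3, 3, 0), (0, 12, 1), (0, 2, 0),
      (3, 14, 1), (2, 13, 1), (2, 3, 0), (1, 13, 1), (1, 3, 0), (2, 14, 1), (4, 4, 0),
      (1, 14, 1), (0, 13, 1), (0, 3, 0), (3, 15, 1), (5, 5, 0), (0, 14, 1), (6, 6, 0),
      (7, 7, 0), (2, 15, 1), (4, 5, 0), (1, 15, 1), (8, 8, 0), (9, 9, 0), (4, 6, 0),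
      (10, 10, 0), (0, 15, 1), (6, 8, 0), (7, 9, 0), (5, 8, 0), (11, 11, 0), (0, 4, 0),
      (7, 10, 0), (3, 6, 0), (2, 5, 0), (3, 7, 0), (1, 5, 0), (9, 11, 0), (2, 6, 0),
      (12, 12, 0), (1, 6, 0), (0, 5, 0), (1, 7, 0), (3, 8, 0), (13, 13, 0), (0, 6, 0),
      (14, 14, 0), (0, 7, 0), (2, 8, 0), (3, 10, 0), (1, 8, 0), (15, 15, 0), (1, 9, 0),
      (10, 12, 0), (2, 10, 0), (0, 8, 0), (1, 10, 0), (0, 9, 0), (11, 13, 0), (3, 11, 0),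
      (7, 12, 0), (0, 10, 0), (11, 14, 0), (5, 12, 0), (2, 11, 0), (9, 13, 0), (1, 11, 0),
      (10, 14, 0), (4, 12, 0), (9, 14, 0), (7, 13, 0), (0, 11, 0), (11, 15, 0), (5, 13, 0),
      (7, 14, 0), (6, 14, 0)]⟩),
  (368, ⟨2, 4, [(0, 0), (48, 48), (68, 69), (116, 117), (204, 204), (252, 252), (272, 273),
    (281, 282), (320, 321), (329, 330), (349, 351), (397, 399), (485, 486), (533, 534),
    (553, 555), (601, 603)], 843, 846,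
    [(0, 0, 0), (3, 12, 1), (4, 13, 1), (9, 15, 1), (8, 15, 1), (1, 1, 0), (4, 14, 1),
      (2, 2, 0), (1, 12, 1), (1, 2, 0), (0, 1, 0), (5, 15, 1), (3, 3, 0), (0, 12, 1), (0, 2, 0),
      (3, 14, 1), (2, 13, 1), (2, 3, 0), (1, 13, 1), (1, 3, 0), (2, 14, 1), (4, 4, 0),
      (1, 14, 1), (0, 13, 1), (0, 3, 0), (3, 15, 1), (5, 5, 0), (0, 14, 1), (6, 6, 0),
      (7, 7, 0), (2, 15, 1), (4, 5, 0), (1, 15, 1), (8, 8, 0), (9, 9, 0), (4, 6, 0),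
      (10, 10, 0), (0, 15, 1), (6, 8, 0), (7, 9, 0), (5, 8, 0), (11, 11, 0), (0, 4, 0),
      (7, 10, 0), (3, 6, 0), (2, 5, 0), (3, 7, 0), (1, 5, 0), (9, 11, 0), (2, 6, 0),
      (12, 12, 0), (1, 6, 0), (0, 5, 0), (1, 7, 0), (3, 8, 0), (13, 13, 0), (0, 6, 0),
      (14, 14, 0), (0, 7, 0), (2, 8, 0), (3, 10, 0), (1, 8, 0), (15, 15, 0), (1, 9, 0),
      (10, 12, 0), (2, 10, 0), (0, 8, 0), (1, 10, 0), (0, 9, 0), (11, 13, 0), (3, 11, 0),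
      (7, 12, 0), (0, 10, 0), (11, 14, 0), (5, 12, 0), (2, 11, 0), (9, 13, 0), (1, 11, 0),
      (10, 14, 0), (4, 12, 0), (9, 14, 0), (7, 13, 0), (0, 11, 0), (11, 15, 0), (5, 13, 0),
      (7, 14, 0), (6, 14, 0)]⟩),
  (375, ⟨2, 4, [(0, 0), (49, 49), (70, 70), (119, 119), (207, 208), (256, 257), (277, 278),
    (286, 287), (326, 327), (335, 336), (356, 357), (405, 406), (493, 495), (542, 544),
    (563, 565), (612, 614)], 858, 861,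
    [(0, 0, 0), (3, 12, 1), (4, 13, 1), (9, 15, 1), (8, 15, 1), (1, 1, 0), (4, 14, 1),
      (2, 2, 0), (1, 12, 1), (1, 2, 0), (0, 1, 0), (5, 15, 1), (3, 3, 0), (0, 12, 1), (0, 2, 0),
      (3, 14, 1), (2, 13, 1), (2, 3, 0), (1, 13, 1), (1, 3, 0), (2, 14, 1), (4, 4, 0),
      (1, 14, 1), (0, 13, 1), (0, 3, 0), (3, 15, 1), (5, 5, 0), (0, 14, 1), (6, 6, 0),
      (7, 7, 0), (2, 15, 1), (4, 5, 0), (1, 15, 1), (8, 8, 0), (9, 9, 0), (4, 6, 0),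
      (10, 10, 0), (0, 15, 1), (6, 8, 0), (7, 9, 0), (5, 8, 0), (11, 11, 0), (0, 4, 0),
      (7, 10, 0), (3, 6, 0), (2, 5, 0), (3, 7, 0), (1, 5, 0), (9, 11, 0), (2, 6, 0),
      (12, 12, 0), (1, 6, 0), (0, 5, 0), (1, 7, 0), (3, 8, 0), (13, 13, 0), (0, 6, 0),
      (14, 14, 0), (0, 7, 0), (2, 8, 0), (3, 10, 0), (1, 8, 0), (15, 15, 0), (1, 9, 0),
      (10, 12, 0), (2, 10, 0), (0, 8, 0), (1, 10, 0), (0, 9, 0), (11, 13, 0), (3, 11, 0),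
      (7, 12, 0), (0, 10, 0), (11, 14, 0), (5, 12, 0), (2, 11, 0), (9, 13, 0), (1, 11, 0),
      (10, 14, 0), (4, 12, 0), (9, 14, 0), (7, 13, 0), (0, 11, 0), (11, 15, 0), (5, 13, 0),
      (7, 14, 0), (6, 14, 0)]⟩),
  (376, ⟨2, 4, [(0, 0), (49, 49), (70, 70), (119, 119), (208, 209), (257, 258), (278, 279),
    (287, 288), (327, 328), (336, 337), (357, 358), (406, 407), (495, 497), (544, 546),
    (565, 567), (614, 616)], 861, 864,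
    [(0, 0, 0), (3, 12, 1), (4, 13, 1), (9, 15, 1), (8, 15, 1), (1, 1, 0), (4, 14, 1),
      (2, 2, 0), (1, 12, 1), (1, 2, 0), (0, 1, 0), (5, 15, 1), (3, 3, 0), (0, 12, 1), (0, 2, 0),
      (3, 14, 1), (2, 13, 1), (2, 3, 0), (1, 13, 1), (1, 3, 0), (2, 14, 1), (4, 4, 0),
      (1, 14, 1), (0, 13, 1), (0, 3, 0), (3, 15, 1), (5, 5, 0), (0, 14, 1), (6, 6, 0),
      (7, 7, 0), (2, 15, 1), (4, 5, 0), (1, 15, 1), (8, 8, 0), (9, 9, 0), (4, 6, 0),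
      (10, 10, 0), (0, 15, 1), (6, 8, 0), (7, 9, 0), (5, 8, 0), (11, 11, 0), (0, 4, 0),
      (7, 10, 0), (3, 6, 0), (2, 5, 0), (3, 7, 0), (1, 5, 0), (9, 11, 0), (2, 6, 0),
      (12, 12, 0), (1, 6, 0), (0, 5, 0), (1, 7, 0), (3, 8, 0), (13, 13, 0), (0, 6, 0),
      (14, 14, 0), (0, 7, 0), (2, 8, 0), (3, 10, 0), (1, 8, 0), (15, 15, 0), (1, 9, 0),
      (10, 12, 0), (2, 10, 0), (0, 8, 0), (1, 10, 0), (0, 9, 0), (11, 13, 0), (3, 11, 0),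
      (7, 12, 0), (0, 10, 0), (11, 14, 0), (5, 12, 0), (2, 11, 0), (9, 13, 0), (1, 11, 0),
      (10, 14, 0), (4, 12, 0), (9, 14, 0), (7, 13, 0), (0, 11, 0), (11, 15, 0), (5, 13, 0),
      (7, 14, 0), (6, 14, 0)]⟩),
  (377, ⟨2, 4, [(0, 0), (49, 49), (70, 71), (119, 120), (209, 209), (258, 258), (279, 280),
    (288, 289), (328, 329), (337, 338), (358, 360), (407, 409), (497, 498), (546, 547),
    (567, 569), (616, 618)], 864, 867,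
    [(0, 0, 0), (3, 12, 1), (4, 13, 1), (9, 15, 1), (8, 15, 1), (1, 1, 0), (4, 14, 1),
      (2, 2, 0), (1, 12, 1), (1, 2, 0), (0, 1, 0), (5, 15, 1), (3, 3, 0), (0, 12, 1), (0, 2, 0),
      (3, 14, 1), (2, 13, 1), (2, 3, 0), (1, 13, 1), (1, 3, 0), (2, 14, 1), (4, 4, 0),
      (1, 14, 1), (0, 13, 1), (0, 3, 0), (3, 15, 1), (5, 5, 0), (0, 14, 1), (6, 6, 0),
      (7, 7, 0), (2, 15, 1), (4, 5, 0), (1, 15, 1), (8, 8, 0), (9, 9, 0), (4, 6, 0),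
      (10, 10, 0), (0, 15, 1), (6, 8, 0), (7, 9, 0), (5, 8, 0), (11, 11, 0), (0, 4, 0),
      (7, 10, 0), (3, 6, 0), (2, 5, 0), (3, 7, 0), (1, 5, 0), (9, 11, 0), (2, 6, 0),
      (12, 12, 0), (1, 6, 0), (0, 5, 0), (1, 7, 0), (3, 8, 0), (13, 13, 0), (0, 6, 0),
      (14, 14, 0), (0, 7, 0), (2, 8, 0), (3, 10, 0), (1, 8, 0), (15, 15, 0), (1, 9, 0),
      (10, 12, 0), (2, 10, 0), (0, 8, 0), (1, 10, 0), (0, 9, 0), (11, 13, 0), (3, 11, 0),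
      (7, 12, 0), (0, 10, 0), (11, 14, 0), (5, 12, 0), (2, 11, 0), (9, 13, 0), (1, 11, 0),
      (10, 14, 0), (4, 12, 0), (9, 14, 0), (7, 13, 0), (0, 11, 0), (11, 15, 0), (5, 13, 0),
      (7, 14, 0), (6, 14, 0)]⟩)]

theorem stepTab4_ok : (stepTab4.all fun p => p.2.chkStep p.1) = true := by decide +kernel

def stepTab : List (ℕ × Cert) :=
  stepTab0 ++ stepTab1 ++ stepTab2 ++ stepTab3 ++ stepTab4

theorem stepTab_ok : (stepTab.all fun p => p.2.chkStep p.1) = true := by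
  unfold stepTab
  simp only [List.all_append, Bool.and_eq_true]
  exact ⟨⟨⟨⟨stepTab0_ok, stepTab1_ok⟩, stepTab2_ok⟩, stepTab3_ok⟩, stepTab4_ok⟩

end Pool.Agent.Zk78
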