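import Mathlib
import Pool.Agent.Zk78.StanleyCert

/-!
# Certificates for single values
-/

set_option autoImplicit false

namespace Pool.Agent.Zk78

def smallTab0 : List (ℕ × Cert) := [
  (0, ⟨0, 0, [(0, 0)], 1, 1,
    [(0, 0, 0)]⟩),
  (2, ⟨0, 1, [(0, 0), (2, 2)], 3, 3,
    [(0, 0, 0), (0, 1, 1), (1, 1, 0)]⟩),
  (4, ⟨0, 2, [(0, 0), (2, 2), (5, 5), (6, 6)], 9, 9,
    [(0, 0, 0), (0, 2, 1), (1, 1, 0), (0, 3, 1), (0, 1, 0), (2, 2, 0), (3, 3, 0), (2, 3, 0),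
      (1, 2, 0)]⟩),
  (6, ⟨0, 2, [(0, 0), (1, 1), (6, 6), (7, 7)], 9, 9,
    [(0, 0, 0), (1, 1, 0), (0, 1, 0), (0, 2, 1), (1, 3, 1), (0, 3, 1), (2, 2, 0), (3, 3, 0),
      (2, 3, 0)]⟩),
  (7, ⟨0, 2, [(0, 0), (1, 1), (7, 7), (8, 8)], 10, 10,
    [(0, 0, 0), (1, 1, 0), (0, 1, 0), (1, 2, 1), (0, 2, 1), (1, 3, 1), (0, 3, 1), (2, 2, 0),
      (3, 3, 0), (2, 3, 0)]⟩),
  (8, ⟨0, 2, [(0, 0), (2, 2), (6, 6), (8, 8)], 9, 9,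
    [(0, 0, 0), (1, 2, 1), (1, 1, 0), (0, 2, 1), (0, 1, 0), (1, 3, 1), (2, 2, 0), (0, 3, 1),
      (3, 3, 0)]⟩),
  (10, ⟨0, 3, [(0, 0), (1, 1), (4, 4), (6, 6), (10, 10), (13, 13), (15, 15), (18, 18)], 27, 27,
    [(0, 0, 0), (1, 1, 0), (0, 1, 0), (0, 6, 1), (2, 2, 0), (2, 7, 1), (3, 3, 0), (1, 2, 0),
      (0, 2, 0), (0, 7, 1), (4, 4, 0), (1, 3, 0), (0, 3, 0), (5, 5, 0), (3, 4, 0), (6, 6, 0),
      (2, 4, 0), (5, 6, 0), (7, 7, 0), (1, 4, 0), (0, 4, 0), (6, 7, 0), (2, 5, 0), (5, 7, 0),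
      (3, 6, 0), (1, 5, 0), (0, 5, 0)]⟩),
  (12, ⟨0, 3, [(0, 0), (1, 1), (3, 3), (7, 7), (9, 9), (12, 12), (16, 16), (19, 19)], 27, 27,
    [(0, 0, 0), (1, 1, 0), (0, 1, 0), (2, 2, 0), (1, 6, 1), (0, 6, 1), (0, 2, 0), (3, 3, 0),
      (2, 7, 1), (4, 4, 0), (1, 7, 1), (0, 7, 1), (5, 5, 0), (1, 3, 0), (0, 3, 0), (2, 4, 0),
      (6, 6, 0), (1, 4, 0), (0, 4, 0), (7, 7, 0), (5, 6, 0), (2, 5, 0), (6, 7, 0), (1, 5, 0),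
      (0, 5, 0), (3, 6, 0), (5, 7, 0)]⟩),
  (13, ⟨1, 3, [(0, 0), (7, 7), (17, 17), (20, 20), (30, 30), (37, 37), (47, 47),
    (50, 50)], 90, 90,
    [(0, 0, 0), (0, 6, 1), (1, 1, 0), (0, 7, 1), (0, 1, 0), (2, 2, 0), (3, 3, 0), (2, 3, 0),
      (1, 2, 0), (4, 4, 0), (0, 2, 0), (5, 5, 0), (0, 3, 0), (4, 5, 0), (6, 6, 0), (7, 7, 0),
      (3, 5, 0), (2, 5, 0), (0, 4, 0), (4, 6, 0), (1, 5, 0), (4, 7, 0), (0, 5, 0), (2, 6, 0),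
      (3, 7, 0), (2, 7, 0), (1, 6, 0)]⟩),
  (14, ⟨0, 3, [(0, 0), (2, 2), (6, 6), (8, 8), (9, 9), (15, 15), (17, 17), (20, 20)], 27, 27,
    [(0, 0, 0), (1, 5, 1), (1, 1, 0), (0, 5, 1), (0, 1, 0), (1, 6, 1), (2, 2, 0), (0, 6, 1),
      (3, 3, 0), (4, 4, 0), (1, 2, 0), (1, 7, 1), (0, 2, 0), (0, 7, 1), (1, 3, 0), (5, 5, 0),
      (0, 3, 0), (6, 6, 0), (0, 4, 0), (5, 6, 0), (7, 7, 0), (4, 5, 0), (3, 5, 0), (6, 7, 0),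
      (2, 5, 0), (4, 6, 0), (3, 6, 0)]⟩),
  (16, ⟨0, 3, [(0, 0), (1, 1), (3, 3), (4, 4), (10, 10), (13, 13), (18, 18), (21, 21)], 27, 27,
    [(0, 0, 0), (1, 1, 0), (0, 1, 0), (2, 2, 0), (3, 3, 0), (1, 2, 0), (0, 2, 0), (1, 3, 0),
      (0, 3, 0), (0, 6, 1), (4, 4, 0), (3, 7, 1), (2, 7, 1), (5, 5, 0), (1, 7, 1), (0, 7, 1),
      (3, 4, 0), (2, 4, 0), (6, 6, 0), (1, 4, 0), (0, 4, 0), (7, 7, 0), (3, 5, 0), (2, 5, 0),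
      (6, 7, 0), (1, 5, 0), (0, 5, 0)]⟩),
  (17, ⟨0, 3, [(0, 0), (4, 4), (5, 5), (9, 9), (15, 15), (17, 17), (20, 20), (22, 22)], 28, 28,
    [(0, 0, 0), (2, 5, 1), (0, 4, 1), (3, 6, 1), (1, 1, 0), (2, 2, 0), (0, 5, 1), (2, 6, 1),
      (0, 1, 0), (3, 3, 0), (0, 2, 0), (2, 7, 1), (0, 6, 1), (2, 3, 0), (1, 3, 0), (4, 4, 0),
      (0, 7, 1), (5, 5, 0), (0, 3, 0), (4, 5, 0), (6, 6, 0), (3, 4, 0), (7, 7, 0), (5, 6, 0),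
      (6, 7, 0), (2, 4, 0), (1, 4, 0), (5, 7, 0)]⟩),
  (18, ⟨0, 3, [(0, 0), (1, 1), (3, 3), (4, 4), (9, 9), (12, 12), (19, 19), (22, 22)], 27, 27,
    [(0, 0, 0), (1, 1, 0), (0, 1, 0), (2, 2, 0), (3, 3, 0), (1, 2, 0), (0, 2, 0), (1, 3, 0),
      (0, 3, 0), (4, 4, 0), (1, 6, 1), (0, 6, 1), (5, 5, 0), (3, 7, 1), (2, 7, 1), (2, 4, 0),
      (1, 7, 1), (0, 7, 1), (0, 4, 0), (6, 6, 0), (3, 5, 0), (2, 5, 0), (7, 7, 0), (1, 5, 0),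
      (0, 5, 0), (6, 7, 0), (5, 6, 0)]⟩),
  (19, ⟨1, 3, [(0, 0), (3, 3), (19, 19), (22, 22), (28, 28), (31, 31), (47, 47),
    (50, 50)], 84, 84,
    [(0, 0, 0), (1, 1, 0), (1, 6, 1), (0, 6, 1), (1, 7, 1), (0, 7, 1), (2, 2, 0), (3, 3, 0),
      (2, 3, 0), (4, 4, 0), (5, 5, 0), (1, 2, 0), (0, 2, 0), (1, 3, 0), (0, 3, 0), (6, 6, 0),
      (7, 7, 0), (1, 4, 0), (0, 4, 0), (1, 5, 0), (5, 6, 0), (4, 6, 0), (5, 7, 0), (3, 6, 0),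
      (2, 6, 0), (3, 7, 0), (2, 7, 0)]⟩),
  (20, ⟨0, 3, [(0, 0), (2, 2), (3, 3), (5, 5), (18, 18), (20, 20), (21, 21), (23, 23)], 27, 27,
    [(0, 0, 0), (4, 7, 1), (1, 1, 0), (2, 2, 0), (0, 1, 0), (3, 3, 0), (0, 2, 0), (1, 4, 1),
      (1, 3, 0), (0, 4, 1), (0, 3, 0), (1, 5, 1), (2, 6, 1), (0, 5, 1), (3, 7, 1), (0, 6, 1),
      (2, 7, 1), (1, 7, 1), (4, 4, 0), (0, 7, 1), (5, 5, 0), (6, 6, 0), (4, 5, 0), (7, 7, 0),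
      (4, 6, 0), (6, 7, 0), (5, 7, 0)]⟩),
  (21, ⟨0, 3, [(0, 0), (1, 1), (3, 3), (4, 4), (21, 21), (22, 22), (24, 24), (25, 25)], 30, 30,
    [(0, 0, 0), (1, 1, 0), (0, 1, 0), (2, 2, 0), (3, 3, 0), (1, 2, 0), (0, 2, 0), (1, 3, 0),
      (0, 3, 0), (2, 4, 1), (3, 5, 1), (1, 4, 1), (0, 4, 1), (1, 5, 1), (0, 5, 1), (2, 6, 1),
      (3, 7, 1), (1, 6, 1), (0, 6, 1), (1, 7, 1), (0, 7, 1), (4, 4, 0), (5, 5, 0), (4, 5, 0),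
      (6, 6, 0), (7, 7, 0), (5, 6, 0), (4, 6, 0), (5, 7, 0), (4, 7, 0)]⟩),
  (22, ⟨0, 3, [(0, 0), (1, 1), (4, 4), (6, 6), (10, 10), (13, 13), (18, 18), (24, 24)], 27, 27,
    [(0, 0, 0), (1, 1, 0), (0, 1, 0), (3, 6, 1), (2, 2, 0), (2, 6, 1), (3, 3, 0), (1, 2, 0),
      (0, 2, 0), (0, 6, 1), (4, 4, 0), (1, 3, 0), (0, 3, 0), (5, 5, 0), (3, 4, 0), (3, 7, 1),
      (2, 4, 0), (2, 7, 1), (6, 6, 0), (1, 4, 0), (0, 4, 0), (0, 7, 1), (2, 5, 0), (5, 6, 0),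
      (7, 7, 0), (1, 5, 0), (0, 5, 0)]⟩),
  (23, ⟨0, 3, [(0, 0), (2, 2), (3, 3), (5, 5), (21, 21), (23, 23), (24, 24), (26, 26)], 30, 30,
    [(0, 0, 0), (4, 7, 1), (1, 1, 0), (2, 2, 0), (0, 1, 0), (3, 3, 0), (0, 2, 0), (2, 3, 0),
      (1, 3, 0), (2, 4, 1), (0, 3, 0), (3, 5, 1), (0, 4, 1), (2, 5, 1), (1, 5, 1), (2, 6, 1),
      (0, 5, 1), (3, 7, 1), (0, 6, 1), (2, 7, 1), (1, 7, 1), (4, 4, 0), (0, 7, 1), (5, 5, 0),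
      (6, 6, 0), (4, 5, 0), (7, 7, 0), (4, 6, 0), (6, 7, 0), (5, 7, 0)]⟩),
  (24, ⟨0, 3, [(0, 0), (1, 1), (3, 3), (7, 7), (9, 9), (12, 12), (19, 19), (25, 25)], 27, 27,
    [(0, 0, 0), (1, 1, 0), (0, 1, 0), (2, 2, 0), (3, 6, 1), (1, 2, 0), (0, 2, 0), (3, 3, 0),
      (2, 6, 1), (4, 4, 0), (1, 6, 1), (0, 6, 1), (5, 5, 0), (1, 3, 0), (0, 3, 0), (2, 4, 0),
      (3, 7, 1), (1, 4, 0), (0, 4, 0), (6, 6, 0), (2, 7, 1), (2, 5, 0), (1, 7, 1), (0, 7, 1),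
      (0, 5, 0), (7, 7, 0), (5, 6, 0)]⟩),
  (25, ⟨0, 3, [(0, 0), (2, 2), (3, 3), (5, 5), (23, 23), (25, 25), (26, 26), (28, 28)], 32, 32,
    [(0, 0, 0), (4, 7, 1), (1, 1, 0), (2, 2, 0), (0, 1, 0), (3, 3, 0), (0, 2, 0), (2, 3, 0),
      (1, 3, 0), (3, 4, 1), (0, 3, 0), (2, 4, 1), (1, 4, 1), (3, 5, 1), (0, 4, 1), (2, 5, 1),
      (1, 5, 1), (2, 6, 1), (0, 5, 1), (3, 7, 1), (0, 6, 1), (2, 7, 1), (1, 7, 1), (4, 4, 0),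
      (0, 7, 1), (5, 5, 0), (6, 6, 0), (4, 5, 0), (7, 7, 0), (4, 6, 0), (6, 7, 0), (5, 7, 0)]⟩)]

theorem smallTab0_ok : (smallTab0.all fun p => p.2.chkSmall p.1) = true := by decide +kernel

def smallTab1 : List (ℕ × Cert) := [
  (26, ⟨0, 3, [(0, 0), (2, 2), (6, 6), (8, 8), (9, 9), (15, 15), (20, 20), (26, 26)], 27, 27,
    [(0, 0, 0), (1, 5, 1), (1, 1, 0), (0, 5, 1), (0, 1, 0), (3, 6, 1), (2, 2, 0), (2, 6, 1),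
      (3, 3, 0), (4, 4, 0), (1, 2, 0), (1, 6, 1), (0, 2, 0), (0, 6, 1), (1, 3, 0), (5, 5, 0),
      (0, 3, 0), (3, 7, 1), (0, 4, 0), (2, 7, 1), (6, 6, 0), (4, 5, 0), (3, 5, 0), (1, 7, 1),
      (2, 5, 0), (0, 7, 1), (7, 7, 0)]⟩),
  (27, ⟨1, 3, [(0, 0), (7, 7), (20, 20), (27, 27), (30, 30), (37, 37), (50, 50),
    (57, 57)], 90, 90,
    [(0, 0, 0), (2, 7, 1), (1, 1, 0), (0, 6, 1), (0, 1, 0), (1, 7, 1), (2, 2, 0), (0, 7, 1),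
      (3, 3, 0), (4, 4, 0), (2, 3, 0), (5, 5, 0), (0, 2, 0), (4, 5, 0), (1, 3, 0), (6, 6, 0),
      (0, 3, 0), (7, 7, 0), (0, 4, 0), (6, 7, 0), (1, 5, 0), (4, 6, 0), (0, 5, 0), (5, 7, 0),
      (2, 6, 0), (4, 7, 0), (3, 7, 0)]⟩),
  (28, ⟨1, 3, [(0, 0), (7, 7), (21, 21), (28, 28), (31, 31), (38, 38), (52, 52),
    (59, 59)], 93, 93,
    [(0, 0, 0), (1, 6, 1), (1, 1, 0), (0, 6, 1), (0, 1, 0), (1, 7, 1), (2, 2, 0), (0, 7, 1),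
      (3, 3, 0), (4, 4, 0), (1, 2, 0), (5, 5, 0), (0, 2, 0), (4, 5, 0), (1, 3, 0), (6, 6, 0),
      (0, 3, 0), (7, 7, 0), (0, 4, 0), (5, 6, 0), (1, 5, 0), (4, 6, 0), (0, 5, 0), (5, 7, 0),
      (2, 6, 0), (4, 7, 0), (3, 7, 0)]⟩),
  (29, ⟨1, 3, [(0, 0), (11, 11), (18, 18), (29, 29), (32, 32), (43, 43), (50, 50),
    (61, 61)], 96, 96,
    [(0, 0, 0), (0, 6, 1), (2, 7, 1), (1, 1, 0), (1, 7, 1), (2, 2, 0), (0, 1, 0), (0, 7, 1),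
      (3, 3, 0), (4, 4, 0), (0, 2, 0), (2, 3, 0), (5, 5, 0), (1, 3, 0), (6, 6, 0), (4, 5, 0),
      (0, 3, 0), (7, 7, 0), (0, 4, 0), (2, 5, 0), (6, 7, 0), (1, 5, 0), (5, 7, 0), (2, 6, 0),
      (0, 5, 0), (4, 7, 0), (3, 7, 0)]⟩),
  (30, ⟨1, 3, [(0, 0), (3, 3), (12, 12), (18, 18), (30, 30), (39, 39), (45, 45),
    (54, 54)], 81, 81,
    [(0, 0, 0), (1, 1, 0), (0, 1, 0), (0, 6, 1), (2, 2, 0), (2, 7, 1), (3, 3, 0), (1, 2, 0),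
      (0, 2, 0), (0, 7, 1), (4, 4, 0), (1, 3, 0), (0, 3, 0), (5, 5, 0), (3, 4, 0), (6, 6, 0),
      (2, 4, 0), (5, 6, 0), (7, 7, 0), (1, 4, 0), (0, 4, 0), (6, 7, 0), (2, 5, 0), (5, 7, 0),
      (3, 6, 0), (1, 5, 0), (0, 5, 0)]⟩),
  (31, ⟨1, 3, [(0, 0), (3, 3), (19, 19), (22, 22), (31, 31), (47, 47), (50, 50),
    (56, 56)], 84, 84,
    [(0, 0, 0), (1, 1, 0), (1, 5, 1), (0, 5, 1), (1, 6, 1), (0, 6, 1), (2, 2, 0), (3, 3, 0),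
      (1, 7, 1), (0, 7, 1), (4, 4, 0), (1, 2, 0), (0, 2, 0), (1, 3, 0), (0, 3, 0), (5, 5, 0),
      (6, 6, 0), (5, 6, 0), (7, 7, 0), (1, 4, 0), (4, 5, 0), (5, 7, 0), (4, 6, 0), (3, 5, 0),
      (2, 5, 0), (3, 6, 0), (2, 6, 0)]⟩),
  (32, ⟨0, 4, [(0, 0), (6, 6), (9, 9), (14, 14), (15, 15), (20, 20), (23, 23), (27, 27),
    (29, 29), (33, 33), (36, 36), (41, 41), (42, 42), (47, 47), (50, 50), (56, 56)], 81, 81,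
    [(0, 0, 0), (0, 11, 1), (8, 15, 1), (0, 12, 1), (2, 13, 1), (3, 14, 1), (1, 1, 0),
      (1, 13, 1), (6, 15, 1), (2, 2, 0), (2, 14, 1), (5, 15, 1), (0, 1, 0), (0, 13, 1),
      (3, 3, 0), (4, 4, 0), (3, 4, 0), (3, 15, 1), (0, 2, 0), (0, 14, 1), (5, 5, 0), (2, 4, 0),
      (1, 3, 0), (6, 6, 0), (1, 4, 0), (1, 15, 1), (3, 5, 0), (7, 7, 0), (0, 3, 0), (8, 8, 0),
      (0, 4, 0), (0, 15, 1), (3, 6, 0), (9, 9, 0), (1, 5, 0), (6, 8, 0), (10, 10, 0), (2, 6, 0),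
      (5, 8, 0), (4, 7, 0), (0, 5, 0), (11, 11, 0), (12, 12, 0), (4, 8, 0), (3, 8, 0),
      (2, 7, 0), (0, 6, 0), (13, 13, 0), (1, 7, 0), (2, 8, 0), (14, 14, 0), (4, 9, 0),
      (1, 8, 0), (8, 11, 0), (0, 7, 0), (7, 11, 0), (15, 15, 0), (2, 9, 0), (0, 8, 0),
      (6, 11, 0), (1, 9, 0), (6, 12, 0), (5, 11, 0), (2, 10, 0), (5, 12, 0), (8, 13, 0),
      (0, 9, 0), (4, 11, 0), (3, 11, 0), (4, 12, 0), (3, 12, 0), (6, 13, 0), (0, 10, 0),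
      (2, 11, 0), (5, 13, 0), (2, 12, 0), (1, 11, 0), (6, 14, 0), (1, 12, 0), (4, 13, 0),
      (3, 13, 0)]⟩),
  (33, ⟨0, 4, [(0, 0), (3, 3), (7, 7), (10, 10), (21, 21), (24, 24), (28, 28), (30, 30),
    (31, 31), (33, 33), (37, 37), (40, 40), (51, 51), (54, 54), (58, 58), (61, 61)], 90, 90,
    [(0, 0, 0), (8, 15, 1), (3, 12, 1), (1, 1, 0), (6, 15, 1), (2, 12, 1), (0, 1, 0), (2, 2, 0),
      (3, 13, 1), (1, 12, 1), (3, 3, 0), (1, 2, 0), (0, 12, 1), (2, 3, 0), (0, 2, 0),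
      (1, 13, 1), (3, 14, 1), (1, 3, 0), (0, 13, 1), (2, 14, 1), (0, 3, 0), (4, 4, 0),
      (3, 15, 1), (1, 14, 1), (5, 5, 0), (2, 15, 1), (0, 14, 1), (4, 5, 0), (6, 6, 0),
      (1, 15, 1), (7, 7, 0), (8, 8, 0), (0, 15, 1), (9, 9, 0), (6, 8, 0), (2, 4, 0), (5, 7, 0),
      (10, 10, 0), (3, 5, 0), (1, 4, 0), (11, 11, 0), (2, 5, 0), (0, 4, 0), (8, 10, 0),
      (7, 10, 0), (1, 5, 0), (3, 6, 0), (9, 11, 0), (0, 5, 0), (2, 6, 0), (3, 7, 0),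
      (12, 12, 0), (3, 8, 0), (1, 6, 0), (13, 13, 0), (2, 8, 0), (0, 6, 0), (1, 7, 0),
      (14, 14, 0), (1, 8, 0), (0, 7, 0), (15, 15, 0), (0, 8, 0), (1, 9, 0), (3, 10, 0),
      (10, 12, 0), (0, 9, 0), (2, 10, 0), (11, 13, 0), (9, 12, 0), (3, 11, 0), (1, 10, 0),
      (7, 12, 0), (2, 11, 0), (0, 10, 0), (9, 13, 0), (11, 14, 0), (1, 11, 0), (5, 12, 0),
      (10, 14, 0), (0, 11, 0), (4, 12, 0), (11, 15, 0), (9, 14, 0), (5, 13, 0), (8, 14, 0),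
      (7, 14, 0), (4, 13, 0), (6, 14, 0), (9, 15, 0)]⟩),
  (34, ⟨0, 4, [(0, 0), (4, 4), (6, 6), (10, 10), (18, 18), (22, 22), (24, 24), (28, 28),
    (31, 31), (35, 35), (37, 37), (41, 41), (49, 49), (53, 53), (55, 55), (59, 59)], 85, 85,
    [(0, 0, 0), (6, 14, 1), (8, 15, 1), (3, 12, 1), (1, 1, 0), (7, 15, 1), (2, 2, 0),
      (2, 12, 1), (0, 1, 0), (1, 12, 1), (3, 3, 0), (3, 13, 1), (0, 2, 0), (0, 12, 1),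
      (2, 3, 0), (2, 13, 1), (1, 3, 0), (1, 13, 1), (4, 4, 0), (2, 14, 1), (0, 3, 0),
      (0, 13, 1), (5, 5, 0), (3, 15, 1), (6, 6, 0), (0, 14, 1), (3, 4, 0), (2, 15, 1),
      (7, 7, 0), (1, 15, 1), (2, 4, 0), (8, 8, 0), (1, 4, 0), (0, 15, 1), (3, 5, 0), (9, 9, 0),
      (0, 4, 0), (10, 10, 0), (2, 5, 0), (8, 9, 0), (1, 5, 0), (11, 11, 0), (2, 6, 0),
      (8, 10, 0), (0, 5, 0), (10, 11, 0), (3, 7, 0), (9, 11, 0), (0, 6, 0), (12, 12, 0),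
      (2, 7, 0), (8, 11, 0), (1, 7, 0), (13, 13, 0), (7, 11, 0), (14, 14, 0), (0, 7, 0),
      (11, 12, 0), (1, 8, 0), (15, 15, 0), (3, 9, 0), (10, 12, 0), (0, 8, 0), (9, 12, 0),
      (2, 9, 0), (11, 13, 0), (1, 9, 0), (8, 12, 0), (2, 10, 0), (10, 13, 0), (0, 9, 0),
      (9, 13, 0), (3, 11, 0), (10, 14, 0), (0, 10, 0), (8, 13, 0), (2, 11, 0), (11, 15, 0),
      (1, 11, 0), (8, 14, 0), (4, 12, 0), (10, 15, 0), (0, 11, 0), (9, 15, 0), (5, 13, 0)]⟩),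
  (35, ⟨0, 4, [(0, 0), (5, 5), (11, 11), (15, 15), (16, 16), (20, 20), (26, 26), (28, 28),
    (31, 31), (33, 33), (39, 39), (43, 43), (44, 44), (48, 48), (54, 54), (59, 59)], 84, 84,
    [(0, 0, 0), (2, 13, 1), (0, 11, 1), (8, 15, 1), (0, 12, 1), (1, 1, 0), (7, 15, 1),
      (1, 13, 1), (4, 14, 1), (3, 14, 1), (0, 1, 0), (2, 2, 0), (0, 13, 1), (2, 14, 1),
      (5, 15, 1), (3, 3, 0), (4, 4, 0), (1, 2, 0), (4, 15, 1), (1, 14, 1), (5, 5, 0), (2, 4, 0),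
      (0, 2, 0), (2, 15, 1), (0, 14, 1), (1, 3, 0), (6, 6, 0), (1, 4, 0), (7, 7, 0), (1, 15, 1),
      (0, 3, 0), (8, 8, 0), (0, 4, 0), (9, 9, 0), (0, 15, 1), (1, 5, 0), (4, 6, 0), (3, 6, 0),
      (7, 9, 0), (10, 10, 0), (0, 5, 0), (2, 6, 0), (5, 8, 0), (11, 11, 0), (12, 12, 0),
      (2, 7, 0), (4, 8, 0), (1, 6, 0), (13, 13, 0), (10, 12, 0), (4, 9, 0), (1, 7, 0),
      (0, 6, 0), (9, 11, 0), (14, 14, 0), (2, 9, 0), (0, 7, 0), (1, 8, 0), (5, 10, 0),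
      (15, 15, 0), (6, 11, 0), (1, 9, 0), (0, 8, 0), (3, 10, 0), (12, 14, 0), (8, 13, 0),
      (0, 9, 0), (2, 10, 0), (5, 12, 0), (10, 14, 0), (4, 11, 0), (3, 11, 0), (4, 12, 0),
      (1, 10, 0), (12, 15, 0), (2, 11, 0), (5, 13, 0), (2, 12, 0), (0, 10, 0), (10, 15, 0),
      (4, 13, 0), (1, 11, 0), (6, 14, 0), (1, 12, 0)]⟩),
  (36, ⟨1, 3, [(0, 0), (3, 3), (9, 9), (21, 21), (27, 27), (36, 36), (48, 48), (57, 57)], 81, 81,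
    [(0, 0, 0), (1, 1, 0), (0, 1, 0), (2, 2, 0), (1, 6, 1), (0, 6, 1), (0, 2, 0), (3, 3, 0),
      (2, 7, 1), (4, 4, 0), (1, 7, 1), (0, 7, 1), (5, 5, 0), (1, 3, 0), (0, 3, 0), (2, 4, 0),
      (6, 6, 0), (1, 4, 0), (0, 4, 0), (7, 7, 0), (5, 6, 0), (2, 5, 0), (6, 7, 0), (1, 5, 0),
      (0, 5, 0), (3, 6, 0), (5, 7, 0)]⟩),
  (37, ⟨1, 3, [(0, 0), (3, 3), (19, 19), (22, 22), (47, 47), (50, 50), (56, 56),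
    (59, 59)], 84, 84,
    [(0, 0, 0), (1, 1, 0), (1, 4, 1), (0, 4, 1), (1, 5, 1), (0, 5, 1), (2, 2, 0), (3, 3, 0),
      (1, 6, 1), (0, 6, 1), (1, 7, 1), (1, 2, 0), (0, 2, 0), (1, 3, 0), (0, 3, 0), (4, 4, 0),
      (5, 5, 0), (4, 5, 0), (6, 6, 0), (7, 7, 0), (5, 6, 0), (4, 6, 0), (5, 7, 0), (3, 4, 0),
      (2, 4, 0), (3, 5, 0), (2, 5, 0)]⟩),
  (38, ⟨1, 3, [(0, 0), (3, 3), (9, 9), (12, 12), (29, 29), (38, 38), (41, 41), (61, 61)], 87, 87,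
    [(0, 0, 0), (1, 1, 0), (0, 1, 0), (2, 2, 0), (3, 3, 0), (1, 2, 0), (0, 2, 0), (1, 3, 0),
      (0, 3, 0), (2, 7, 1), (4, 4, 0), (1, 7, 1), (0, 7, 1), (5, 5, 0), (6, 6, 0), (5, 6, 0),
      (4, 5, 0), (2, 4, 0), (4, 6, 0), (1, 4, 0), (0, 4, 0), (7, 7, 0), (3, 5, 0), (2, 5, 0),
      (3, 6, 0), (1, 5, 0), (0, 5, 0), (1, 6, 0), (0, 6, 0), (5, 7, 0)]⟩),
  (39, ⟨1, 3, [(0, 0), (3, 3), (9, 9), (12, 12), (30, 30), (39, 39), (42, 42), (63, 63)], 90, 90,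
    [(0, 0, 0), (1, 1, 0), (0, 1, 0), (2, 2, 0), (3, 3, 0), (1, 2, 0), (0, 2, 0), (1, 3, 0),
      (0, 3, 0), (2, 7, 1), (4, 4, 0), (1, 7, 1), (0, 7, 1), (5, 5, 0), (6, 6, 0), (5, 6, 0),
      (3, 4, 0), (2, 4, 0), (4, 6, 0), (1, 4, 0), (0, 4, 0), (7, 7, 0), (3, 5, 0), (2, 5, 0),
      (3, 6, 0), (1, 5, 0), (0, 5, 0), (1, 6, 0), (0, 6, 0), (5, 7, 0)]⟩),
  (40, ⟨1, 3, [(0, 0), (10, 10), (13, 13), (30, 30), (33, 33), (40, 40), (43, 43),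
    (63, 63)], 89, 89,
    [(0, 0, 0), (4, 7, 1), (3, 7, 1), (1, 1, 0), (2, 2, 0), (1, 2, 0), (0, 1, 0), (2, 7, 1),
      (1, 7, 1), (3, 3, 0), (4, 4, 0), (0, 7, 1), (5, 5, 0), (6, 6, 0), (2, 3, 0), (1, 3, 0),
      (2, 4, 0), (1, 4, 0), (0, 3, 0), (7, 7, 0), (2, 5, 0), (1, 5, 0), (2, 6, 0), (1, 6, 0),
      (0, 5, 0), (6, 7, 0), (0, 6, 0)]⟩),
  (41, ⟨0, 4, [(0, 0), (3, 3), (11, 11), (14, 14), (21, 21), (24, 24), (30, 30), (32, 32),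
    (33, 33), (35, 35), (41, 41), (44, 44), (51, 51), (54, 54), (62, 62), (65, 65)], 90, 90,
    [(0, 0, 0), (2, 12, 1), (7, 14, 1), (1, 1, 0), (3, 13, 1), (9, 15, 1), (0, 1, 0),
      (2, 13, 1), (7, 15, 1), (1, 12, 1), (5, 14, 1), (2, 2, 0), (0, 12, 1), (4, 14, 1),
      (3, 3, 0), (1, 13, 1), (5, 15, 1), (2, 3, 0), (0, 13, 1), (1, 2, 0), (3, 14, 1),
      (4, 4, 0), (0, 2, 0), (2, 14, 1), (5, 5, 0), (1, 3, 0), (3, 15, 1), (4, 5, 0), (0, 3, 0),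
      (2, 15, 1), (6, 6, 0), (1, 14, 1), (7, 7, 0), (8, 8, 0), (0, 14, 1), (9, 9, 0), (5, 6, 0),
      (1, 15, 1), (7, 9, 0), (1, 4, 0), (0, 15, 1), (10, 10, 0), (0, 4, 0), (4, 7, 0),
      (11, 11, 0), (1, 5, 0), (3, 6, 0), (9, 10, 0), (0, 5, 0), (2, 6, 0), (3, 7, 0),
      (12, 12, 0), (3, 8, 0), (2, 7, 0), (13, 13, 0), (2, 8, 0), (3, 9, 0), (1, 6, 0),
      (5, 10, 0), (2, 9, 0), (0, 6, 0), (1, 7, 0), (14, 14, 0), (1, 8, 0), (0, 7, 0),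
      (15, 15, 0), (0, 8, 0), (1, 9, 0), (3, 10, 0), (8, 12, 0), (0, 9, 0), (2, 10, 0),
      (6, 12, 0), (9, 13, 0), (3, 11, 0), (8, 13, 0), (7, 13, 0), (2, 11, 0), (5, 12, 0),
      (1, 10, 0), (11, 14, 0), (4, 12, 0), (0, 10, 0), (10, 14, 0), (5, 13, 0), (1, 11, 0),
      (11, 15, 0), (4, 13, 0), (0, 11, 0), (9, 14, 0)]⟩),
  (42, ⟨1, 3, [(0, 0), (6, 6), (18, 18), (24, 24), (27, 27), (45, 45), (51, 51),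
    (60, 60)], 81, 81,
    [(0, 0, 0), (1, 5, 1), (1, 1, 0), (0, 5, 1), (0, 1, 0), (1, 6, 1), (2, 2, 0), (0, 6, 1),
      (3, 3, 0), (4, 4, 0), (1, 2, 0), (1, 7, 1), (0, 2, 0), (0, 7, 1), (1, 3, 0), (5, 5, 0),
      (0, 3, 0), (6, 6, 0), (0, 4, 0), (5, 6, 0), (7, 7, 0), (4, 5, 0), (3, 5, 0), (6, 7, 0),
      (2, 5, 0), (4, 6, 0), (3, 6, 0)]⟩),
  (43, ⟨1, 3, [(0, 0), (9, 9), (25, 25), (28, 28), (34, 34), (37, 37), (53, 53),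
    (62, 62)], 84, 84,
    [(0, 0, 0), (5, 7, 1), (4, 7, 1), (1, 1, 0), (1, 6, 1), (2, 7, 1), (0, 1, 0), (0, 6, 1),
      (2, 2, 0), (3, 3, 0), (1, 7, 1), (4, 4, 0), (5, 5, 0), (1, 2, 0), (2, 4, 0), (1, 3, 0),
      (0, 2, 0), (6, 6, 0), (0, 3, 0), (1, 4, 0), (7, 7, 0), (1, 5, 0), (5, 6, 0), (4, 6, 0),
      (0, 5, 0), (3, 6, 0), (2, 6, 0)]⟩),
  (44, ⟨0, 4, [(0, 0), (5, 5), (9, 9), (14, 14), (21, 21), (26, 26), (27, 27), (30, 30),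
    (32, 32), (35, 35), (36, 36), (41, 41), (48, 48), (53, 53), (57, 57), (62, 62)], 81, 81,
    [(0, 0, 0), (0, 11, 1), (11, 15, 1), (7, 14, 1), (4, 13, 1), (1, 1, 0), (2, 12, 1),
      (5, 14, 1), (9, 15, 1), (2, 2, 0), (0, 1, 0), (3, 13, 1), (4, 14, 1), (1, 2, 0),
      (3, 3, 0), (0, 12, 1), (2, 13, 1), (5, 15, 1), (0, 2, 0), (2, 3, 0), (1, 13, 1),
      (4, 4, 0), (4, 15, 1), (1, 3, 0), (2, 14, 1), (0, 13, 1), (5, 5, 0), (6, 6, 0), (0, 3, 0),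
      (3, 15, 1), (7, 7, 0), (4, 5, 0), (8, 8, 0), (0, 14, 1), (2, 15, 1), (9, 9, 0),
      (10, 10, 0), (1, 4, 0), (1, 15, 1), (4, 7, 0), (3, 6, 0), (11, 11, 0), (0, 4, 0),
      (0, 15, 1), (5, 9, 0), (2, 6, 0), (3, 7, 0), (1, 5, 0), (12, 12, 0), (1, 6, 0), (3, 8, 0),
      (2, 7, 0), (0, 5, 0), (13, 13, 0), (0, 6, 0), (1, 7, 0), (3, 9, 0), (14, 14, 0),
      (3, 10, 0), (1, 8, 0), (0, 7, 0), (2, 9, 0), (15, 15, 0), (2, 10, 0), (0, 8, 0),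
      (1, 9, 0), (7, 12, 0), (1, 10, 0), (3, 11, 0), (6, 12, 0), (0, 9, 0), (9, 13, 0),
      (0, 10, 0), (2, 11, 0), (8, 13, 0), (4, 12, 0), (7, 13, 0), (1, 11, 0), (10, 14, 0),
      (6, 13, 0), (5, 13, 0)]⟩),
  (45, ⟨1, 3, [(0, 0), (16, 16), (19, 19), (29, 29), (35, 35), (45, 45), (48, 48),
    (64, 64)], 86, 86,
    [(0, 0, 0), (0, 5, 1), (4, 7, 1), (0, 6, 1), (3, 7, 1), (1, 1, 0), (2, 2, 0), (2, 7, 1),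
      (1, 7, 1), (3, 3, 0), (0, 1, 0), (4, 4, 0), (2, 3, 0), (0, 7, 1), (5, 5, 0), (6, 6, 0),
      (2, 4, 0), (4, 5, 0), (0, 3, 0), (3, 5, 0), (7, 7, 0), (3, 6, 0), (2, 5, 0), (1, 5, 0),
      (2, 6, 0), (1, 6, 0), (5, 7, 0)]⟩)]

theorem smallTab1_ok : (smallTab1.all fun p => p.2.chkSmall p.1) = true := by decide +kernel

def smallTab2 : List (ℕ × Cert) := [
  (46, ⟨1, 3, [(0, 0), (10, 10), (26, 26), (29, 29), (36, 36), (39, 39), (55, 55),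
    (65, 65)], 87, 87,
    [(0, 0, 0), (5, 7, 1), (4, 7, 1), (1, 1, 0), (3, 7, 1), (2, 7, 1), (0, 1, 0), (0, 6, 1),
      (2, 2, 0), (3, 3, 0), (1, 7, 1), (4, 4, 0), (5, 5, 0), (0, 7, 1), (2, 4, 0), (3, 5, 0),
      (0, 2, 0), (6, 6, 0), (0, 3, 0), (1, 4, 0), (7, 7, 0), (1, 5, 0), (0, 4, 0), (6, 7, 0),
      (0, 5, 0), (3, 6, 0), (2, 6, 0)]⟩),
  (47, ⟨1, 3, [(0, 0), (7, 7), (20, 20), (27, 27), (30, 30), (50, 50), (57, 57),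
    (67, 67)], 90, 90,
    [(0, 0, 0), (2, 6, 1), (1, 1, 0), (0, 5, 1), (0, 1, 0), (1, 6, 1), (2, 2, 0), (0, 6, 1),
      (3, 3, 0), (4, 4, 0), (2, 3, 0), (1, 7, 1), (0, 2, 0), (0, 7, 1), (1, 3, 0), (5, 5, 0),
      (0, 3, 0), (6, 6, 0), (0, 4, 0), (5, 6, 0), (7, 7, 0), (4, 5, 0), (3, 5, 0), (6, 7, 0),
      (2, 5, 0), (4, 6, 0), (3, 6, 0)]⟩),
  (48, ⟨1, 3, [(0, 0), (3, 3), (9, 9), (12, 12), (30, 30), (39, 39), (54, 54), (63, 63)], 81, 81,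
    [(0, 0, 0), (1, 1, 0), (0, 1, 0), (2, 2, 0), (3, 3, 0), (1, 2, 0), (0, 2, 0), (1, 3, 0),
      (0, 3, 0), (0, 6, 1), (4, 4, 0), (3, 7, 1), (2, 7, 1), (5, 5, 0), (1, 7, 1), (0, 7, 1),
      (3, 4, 0), (2, 4, 0), (6, 6, 0), (1, 4, 0), (0, 4, 0), (7, 7, 0), (3, 5, 0), (2, 5, 0),
      (6, 7, 0), (1, 5, 0), (0, 5, 0)]⟩),
  (49, ⟨1, 3, [(0, 0), (3, 3), (9, 9), (12, 12), (31, 31), (40, 40), (56, 56), (65, 65)], 84, 84,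
    [(0, 0, 0), (1, 1, 0), (0, 1, 0), (2, 2, 0), (3, 3, 0), (3, 6, 1), (2, 6, 1), (1, 3, 0),
      (1, 6, 1), (0, 6, 1), (4, 4, 0), (3, 7, 1), (2, 7, 1), (5, 5, 0), (1, 7, 1), (0, 7, 1),
      (3, 4, 0), (2, 4, 0), (6, 6, 0), (1, 4, 0), (0, 4, 0), (7, 7, 0), (3, 5, 0), (5, 6, 0),
      (6, 7, 0), (1, 5, 0), (4, 6, 0)]⟩),
  (50, ⟨1, 3, [(0, 0), (3, 3), (9, 9), (12, 12), (32, 32), (41, 41), (58, 58), (67, 67)], 87, 87,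
    [(0, 0, 0), (1, 1, 0), (0, 1, 0), (2, 2, 0), (3, 3, 0), (1, 2, 0), (0, 2, 0), (1, 3, 0),
      (0, 3, 0), (1, 6, 1), (0, 6, 1), (4, 4, 0), (3, 7, 1), (2, 7, 1), (5, 5, 0), (1, 7, 1),
      (0, 7, 1), (4, 5, 0), (3, 4, 0), (2, 4, 0), (6, 6, 0), (1, 4, 0), (0, 4, 0), (7, 7, 0),
      (3, 5, 0), (2, 5, 0), (6, 7, 0), (1, 5, 0), (0, 5, 0), (4, 6, 0)]⟩),
  (51, ⟨1, 3, [(0, 0), (12, 12), (15, 15), (27, 27), (45, 45), (51, 51), (60, 60),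
    (66, 66)], 84, 84,
    [(0, 0, 0), (2, 5, 1), (0, 4, 1), (3, 6, 1), (1, 1, 0), (2, 2, 0), (0, 5, 1), (2, 6, 1),
      (0, 1, 0), (3, 3, 0), (0, 2, 0), (2, 7, 1), (0, 6, 1), (2, 3, 0), (1, 3, 0), (4, 4, 0),
      (0, 7, 1), (5, 5, 0), (0, 3, 0), (4, 5, 0), (6, 6, 0), (3, 4, 0), (7, 7, 0), (5, 6, 0),
      (6, 7, 0), (2, 4, 0), (1, 4, 0), (5, 7, 0)]⟩),
  (52, ⟨1, 3, [(0, 0), (3, 3), (13, 13), (29, 29), (32, 32), (39, 39), (42, 42),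
    (68, 68)], 87, 87,
    [(0, 0, 0), (1, 1, 0), (6, 7, 1), (5, 7, 1), (2, 2, 0), (4, 7, 1), (3, 7, 1), (1, 2, 0),
      (0, 2, 0), (3, 3, 0), (4, 4, 0), (2, 7, 1), (5, 5, 0), (6, 6, 0), (1, 7, 1), (0, 7, 1),
      (4, 6, 0), (1, 3, 0), (0, 3, 0), (1, 4, 0), (2, 5, 0), (7, 7, 0), (2, 6, 0), (1, 5, 0),
      (0, 5, 0), (1, 6, 0), (0, 6, 0)]⟩),
  (53, ⟨1, 3, [(0, 0), (10, 10), (17, 17), (27, 27), (47, 47), (57, 57), (60, 60),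
    (70, 70)], 90, 90,
    [(0, 0, 0), (0, 4, 1), (2, 5, 1), (1, 1, 0), (1, 5, 1), (2, 2, 0), (0, 1, 0), (0, 5, 1),
      (3, 3, 0), (0, 6, 1), (0, 2, 0), (2, 3, 0), (1, 7, 1), (1, 3, 0), (4, 4, 0), (0, 7, 1),
      (0, 3, 0), (5, 5, 0), (6, 6, 0), (5, 6, 0), (3, 4, 0), (7, 7, 0), (4, 6, 0), (2, 4, 0),
      (6, 7, 0), (1, 4, 0), (3, 5, 0)]⟩),
  (54, ⟨1, 3, [(0, 0), (3, 3), (9, 9), (12, 12), (27, 27), (36, 36), (57, 57), (66, 66)], 81, 81,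
    [(0, 0, 0), (1, 1, 0), (0, 1, 0), (2, 2, 0), (3, 3, 0), (1, 2, 0), (0, 2, 0), (1, 3, 0),
      (0, 3, 0), (4, 4, 0), (1, 6, 1), (0, 6, 1), (5, 5, 0), (3, 7, 1), (2, 7, 1), (2, 4, 0),
      (1, 7, 1), (0, 7, 1), (0, 4, 0), (6, 6, 0), (3, 5, 0), (2, 5, 0), (7, 7, 0), (1, 5, 0),
      (0, 5, 0), (6, 7, 0), (5, 6, 0)]⟩),
  (55, ⟨1, 3, [(0, 0), (3, 3), (9, 9), (12, 12), (55, 55), (58, 58), (64, 64), (67, 67)], 82, 82,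
    [(0, 0, 0), (1, 1, 0), (0, 1, 0), (2, 2, 0), (3, 3, 0), (3, 4, 1), (2, 4, 1), (3, 5, 1),
      (1, 4, 1), (0, 4, 1), (1, 5, 1), (0, 5, 1), (2, 6, 1), (3, 7, 1), (1, 6, 1), (0, 6, 1),
      (1, 7, 1), (0, 7, 1), (4, 4, 0), (5, 5, 0), (4, 5, 0), (6, 6, 0), (7, 7, 0), (5, 6, 0),
      (4, 6, 0), (5, 7, 0), (4, 7, 0)]⟩),
  (56, ⟨1, 3, [(0, 0), (3, 3), (28, 28), (31, 31), (37, 37), (40, 40), (65, 65),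
    (68, 68)], 83, 83,
    [(0, 0, 0), (1, 1, 0), (5, 6, 1), (4, 6, 1), (5, 7, 1), (3, 6, 1), (2, 6, 1), (3, 7, 1),
      (2, 7, 1), (2, 2, 0), (3, 3, 0), (2, 3, 0), (4, 4, 0), (5, 5, 0), (1, 6, 1), (0, 6, 1),
      (1, 7, 1), (0, 7, 1), (0, 2, 0), (1, 3, 0), (0, 3, 0), (6, 6, 0), (7, 7, 0), (1, 4, 0),
      (0, 4, 0), (1, 5, 0), (0, 5, 0)]⟩),
  (57, ⟨1, 3, [(0, 0), (14, 14), (25, 25), (32, 32), (43, 43), (46, 46), (57, 57),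
    (75, 75)], 96, 96,
    [(0, 0, 0), (1, 6, 1), (5, 7, 1), (4, 7, 1), (1, 1, 0), (0, 6, 1), (3, 7, 1), (2, 2, 0),
      (2, 7, 1), (3, 3, 0), (1, 2, 0), (1, 7, 1), (4, 4, 0), (5, 5, 0), (0, 2, 0), (0, 7, 1),
      (6, 6, 0), (2, 4, 0), (0, 3, 0), (5, 6, 0), (1, 4, 0), (7, 7, 0), (1, 5, 0), (3, 6, 0),
      (0, 4, 0), (2, 6, 0), (6, 7, 0)]⟩),
  (58, ⟨1, 3, [(0, 0), (10, 10), (23, 23), (29, 29), (39, 39), (42, 42), (52, 52),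
    (71, 71)], 87, 87,
    [(0, 0, 0), (6, 7, 1), (1, 6, 1), (1, 1, 0), (5, 7, 1), (0, 6, 1), (0, 1, 0), (2, 2, 0),
      (3, 7, 1), (3, 3, 0), (2, 7, 1), (1, 2, 0), (4, 4, 0), (5, 5, 0), (0, 2, 0), (3, 4, 0),
      (6, 6, 0), (0, 7, 1), (0, 3, 0), (5, 6, 0), (4, 6, 0), (1, 4, 0), (7, 7, 0), (3, 6, 0),
      (0, 4, 0), (2, 6, 0), (0, 5, 0)]⟩),
  (59, ⟨1, 3, [(0, 0), (13, 13), (20, 20), (33, 33), (49, 49), (59, 59), (62, 62),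
    (72, 72)], 88, 88,
    [(0, 0, 0), (3, 6, 1), (4, 7, 1), (0, 4, 1), (1, 1, 0), (1, 5, 1), (2, 2, 0), (1, 6, 1),
      (1, 2, 0), (0, 5, 1), (3, 3, 0), (0, 6, 1), (0, 2, 0), (1, 7, 1), (2, 3, 0), (4, 4, 0),
      (1, 3, 0), (0, 7, 1), (5, 5, 0), (6, 6, 0), (0, 3, 0), (4, 5, 0), (7, 7, 0), (4, 6, 0),
      (2, 4, 0), (6, 7, 0), (1, 4, 0)]⟩),
  (60, ⟨1, 3, [(0, 0), (6, 6), (9, 9), (15, 15), (54, 54), (60, 60), (63, 63), (69, 69)], 81, 81,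
    [(0, 0, 0), (4, 7, 1), (1, 1, 0), (2, 2, 0), (0, 1, 0), (3, 3, 0), (0, 2, 0), (1, 4, 1),
      (1, 3, 0), (0, 4, 1), (0, 3, 0), (1, 5, 1), (2, 6, 1), (0, 5, 1), (3, 7, 1), (0, 6, 1),
      (2, 7, 1), (1, 7, 1), (4, 4, 0), (0, 7, 1), (5, 5, 0), (6, 6, 0), (4, 5, 0), (7, 7, 0),
      (4, 6, 0), (6, 7, 0), (5, 7, 0)]⟩),
  (61, ⟨1, 3, [(0, 0), (10, 10), (31, 31), (34, 34), (41, 41), (44, 44), (65, 65),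
    (75, 75)], 92, 92,
    [(0, 0, 0), (3, 6, 1), (2, 6, 1), (1, 1, 0), (5, 7, 1), (4, 7, 1), (0, 1, 0), (3, 7, 1),
      (1, 6, 1), (2, 2, 0), (3, 3, 0), (0, 6, 1), (4, 4, 0), (5, 5, 0), (1, 7, 1), (1, 2, 0),
      (3, 5, 0), (0, 7, 1), (0, 2, 0), (6, 6, 0), (0, 3, 0), (1, 4, 0), (7, 7, 0), (1, 5, 0),
      (0, 4, 0), (5, 6, 0), (4, 6, 0)]⟩),
  (62, ⟨1, 3, [(0, 0), (3, 3), (31, 31), (34, 34), (40, 40), (43, 43), (71, 71),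
    (74, 74)], 89, 89,
    [(0, 0, 0), (1, 1, 0), (0, 1, 0), (5, 6, 1), (4, 6, 1), (5, 7, 1), (3, 6, 1), (2, 6, 1),
      (3, 7, 1), (2, 7, 1), (2, 2, 0), (3, 3, 0), (2, 3, 0), (4, 4, 0), (5, 5, 0), (3, 4, 0),
      (1, 6, 1), (0, 6, 1), (1, 7, 1), (0, 7, 1), (0, 2, 0), (1, 3, 0), (0, 3, 0), (6, 6, 0),
      (7, 7, 0), (1, 4, 0), (0, 4, 0), (1, 5, 0), (0, 5, 0)]⟩),
  (63, ⟨1, 3, [(0, 0), (19, 19), (25, 25), (28, 28), (44, 44), (47, 47), (53, 53),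
    (72, 72)], 84, 84,
    [(0, 0, 0), (0, 4, 1), (6, 7, 1), (0, 5, 1), (5, 7, 1), (4, 7, 1), (1, 1, 0), (0, 6, 1),
      (2, 2, 0), (3, 3, 0), (3, 7, 1), (2, 7, 1), (0, 1, 0), (1, 7, 1), (4, 4, 0), (5, 5, 0),
      (0, 2, 0), (6, 6, 0), (0, 3, 0), (0, 7, 1), (2, 4, 0), (3, 5, 0), (1, 4, 0), (7, 7, 0),
      (1, 5, 0), (3, 6, 0), (2, 6, 0)]⟩),
  (64, ⟨1, 3, [(0, 0), (6, 6), (19, 19), (35, 35), (45, 45), (48, 48), (58, 58),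
    (74, 74)], 87, 87,
    [(0, 0, 0), (0, 4, 1), (1, 1, 0), (2, 6, 1), (5, 7, 1), (4, 7, 1), (2, 2, 0), (1, 6, 1),
      (3, 7, 1), (0, 6, 1), (1, 2, 0), (3, 3, 0), (0, 2, 0), (2, 7, 1), (4, 4, 0), (5, 5, 0),
      (2, 3, 0), (1, 7, 1), (6, 6, 0), (0, 7, 1), (1, 3, 0), (5, 6, 0), (2, 4, 0), (7, 7, 0),
      (2, 5, 0), (3, 6, 0), (1, 4, 0)]⟩),
  (65, ⟨1, 3, [(0, 0), (6, 6), (16, 16), (29, 29), (39, 39), (65, 65), (68, 68),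
    (75, 75)], 88, 88,
    [(0, 0, 0), (4, 5, 1), (1, 1, 0), (4, 6, 1), (3, 5, 1), (2, 2, 0), (3, 6, 1), (4, 7, 1),
      (1, 2, 0), (3, 3, 0), (3, 7, 1), (1, 5, 1), (4, 4, 0), (0, 5, 1), (2, 7, 1), (3, 4, 0),
      (1, 3, 0), (1, 7, 1), (0, 3, 0), (0, 7, 1), (5, 5, 0), (6, 6, 0), (1, 4, 0), (7, 7, 0),
      (0, 4, 0), (6, 7, 0), (5, 7, 0)]⟩)]

theorem smallTab2_ok : (smallTab2.all fun p => p.2.chkSmall p.1) = true := by decide +kernel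

def smallTab3 : List (ℕ × Cert) := [
  (66, ⟨1, 3, [(0, 0), (3, 3), (12, 12), (18, 18), (30, 30), (39, 39), (54, 54),
    (72, 72)], 81, 81,
    [(0, 0, 0), (1, 1, 0), (0, 1, 0), (3, 6, 1), (2, 2, 0), (2, 6, 1), (3, 3, 0), (1, 2, 0),
      (0, 2, 0), (0, 6, 1), (4, 4, 0), (1, 3, 0), (0, 3, 0), (5, 5, 0), (3, 4, 0), (3, 7, 1),
      (2, 4, 0), (2, 7, 1), (6, 6, 0), (1, 4, 0), (0, 4, 0), (0, 7, 1), (2, 5, 0), (5, 6, 0),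
      (7, 7, 0), (1, 5, 0), (0, 5, 0)]⟩),
  (67, ⟨1, 3, [(0, 0), (7, 7), (10, 10), (17, 17), (60, 60), (67, 67), (70, 70),
    (77, 77)], 90, 90,
    [(0, 0, 0), (4, 7, 1), (1, 1, 0), (2, 2, 0), (0, 1, 0), (3, 3, 0), (0, 2, 0), (2, 3, 0),
      (1, 3, 0), (0, 4, 1), (0, 3, 0), (1, 5, 1), (2, 6, 1), (0, 5, 1), (3, 7, 1), (0, 6, 1),
      (2, 7, 1), (1, 7, 1), (4, 4, 0), (0, 7, 1), (5, 5, 0), (6, 6, 0), (4, 5, 0), (7, 7, 0),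
      (4, 6, 0), (6, 7, 0), (5, 7, 0)]⟩),
  (68, ⟨1, 3, [(0, 0), (6, 6), (28, 28), (34, 34), (43, 43), (46, 46), (71, 71),
    (74, 74)], 83, 83,
    [(0, 0, 0), (0, 4, 1), (1, 1, 0), (0, 5, 1), (5, 6, 1), (4, 6, 1), (5, 7, 1), (4, 7, 1),
      (3, 6, 1), (2, 2, 0), (2, 6, 1), (3, 3, 0), (2, 7, 1), (2, 3, 0), (4, 4, 0), (5, 5, 0),
      (1, 2, 0), (1, 6, 1), (0, 2, 0), (0, 6, 1), (1, 3, 0), (0, 7, 1), (0, 3, 0), (6, 6, 0),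
      (7, 7, 0), (6, 7, 0), (1, 4, 0)]⟩),
  (69, ⟨1, 3, [(0, 0), (6, 6), (19, 19), (25, 25), (35, 35), (54, 54), (57, 57),
    (76, 76)], 86, 86,
    [(0, 0, 0), (2, 5, 1), (1, 1, 0), (2, 6, 1), (0, 1, 0), (1, 5, 1), (2, 2, 0), (0, 5, 1),
      (3, 3, 0), (0, 6, 1), (1, 2, 0), (4, 4, 0), (0, 2, 0), (3, 7, 1), (3, 4, 0), (2, 7, 1),
      (2, 4, 0), (5, 5, 0), (6, 6, 0), (1, 7, 1), (1, 4, 0), (0, 7, 1), (0, 4, 0), (4, 5, 0),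
      (7, 7, 0), (4, 6, 0), (3, 5, 0)]⟩),
  (70, ⟨1, 3, [(0, 0), (6, 6), (19, 19), (35, 35), (45, 45), (58, 58), (74, 74),
    (77, 77)], 87, 87,
    [(0, 0, 0), (0, 4, 1), (1, 1, 0), (2, 5, 1), (0, 1, 0), (4, 6, 1), (2, 2, 0), (1, 5, 1),
      (3, 6, 1), (0, 5, 1), (1, 2, 0), (3, 3, 0), (0, 2, 0), (2, 6, 1), (4, 4, 0), (2, 7, 1),
      (2, 3, 0), (1, 6, 1), (5, 5, 0), (0, 6, 1), (1, 3, 0), (0, 7, 1), (2, 4, 0), (6, 6, 0),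
      (7, 7, 0), (3, 5, 0), (1, 4, 0)]⟩),
  (71, ⟨1, 3, [(0, 0), (21, 21), (32, 32), (39, 39), (50, 50), (53, 53), (71, 71),
    (82, 82)], 96, 96,
    [(0, 0, 0), (0, 4, 1), (3, 6, 1), (0, 5, 1), (2, 6, 1), (4, 7, 1), (1, 1, 0), (1, 6, 1),
      (3, 7, 1), (2, 2, 0), (2, 7, 1), (3, 3, 0), (1, 2, 0), (1, 7, 1), (4, 4, 0), (5, 5, 0),
      (1, 3, 0), (3, 4, 0), (0, 2, 0), (0, 7, 1), (6, 6, 0), (2, 5, 0), (0, 3, 0), (1, 4, 0),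
      (7, 7, 0), (1, 5, 0), (5, 6, 0), (6, 7, 0)]⟩),
  (72, ⟨1, 3, [(0, 0), (3, 3), (9, 9), (21, 21), (27, 27), (36, 36), (57, 57), (75, 75)], 81, 81,
    [(0, 0, 0), (1, 1, 0), (0, 1, 0), (2, 2, 0), (3, 6, 1), (1, 2, 0), (0, 2, 0), (3, 3, 0),
      (2, 6, 1), (4, 4, 0), (1, 6, 1), (0, 6, 1), (5, 5, 0), (1, 3, 0), (0, 3, 0), (2, 4, 0),
      (3, 7, 1), (1, 4, 0), (0, 4, 0), (6, 6, 0), (2, 7, 1), (2, 5, 0), (1, 7, 1), (0, 7, 1),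
      (0, 5, 0), (7, 7, 0), (5, 6, 0)]⟩),
  (73, ⟨1, 3, [(0, 0), (3, 3), (13, 13), (20, 20), (33, 33), (43, 43), (60, 60),
    (80, 80)], 90, 90,
    [(0, 0, 0), (1, 1, 0), (0, 1, 0), (3, 6, 1), (2, 2, 0), (2, 6, 1), (3, 3, 0), (1, 2, 0),
      (1, 6, 1), (0, 6, 1), (4, 4, 0), (1, 3, 0), (0, 3, 0), (5, 5, 0), (3, 4, 0), (3, 7, 1),
      (2, 4, 0), (2, 7, 1), (6, 6, 0), (1, 4, 0), (1, 7, 1), (0, 7, 1), (2, 5, 0), (5, 6, 0),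
      (7, 7, 0), (1, 5, 0), (4, 6, 0)]⟩),
  (74, ⟨1, 3, [(0, 0), (3, 3), (28, 28), (31, 31), (46, 46), (49, 49), (74, 74),
    (77, 77)], 83, 83,
    [(0, 0, 0), (1, 1, 0), (0, 1, 0), (0, 4, 1), (1, 5, 1), (5, 6, 1), (4, 6, 1), (5, 7, 1),
      (4, 7, 1), (2, 2, 0), (3, 3, 0), (2, 3, 0), (2, 6, 1), (3, 7, 1), (2, 7, 1), (4, 4, 0),
      (5, 5, 0), (1, 2, 0), (0, 2, 0), (1, 3, 0), (0, 3, 0), (0, 6, 1), (1, 7, 1), (0, 7, 1),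
      (6, 6, 0), (7, 7, 0), (6, 7, 0)]⟩),
  (75, ⟨1, 3, [(0, 0), (3, 3), (19, 19), (22, 22), (56, 56), (59, 59), (75, 75),
    (78, 78)], 84, 84,
    [(0, 0, 0), (1, 1, 0), (5, 6, 1), (4, 6, 1), (5, 7, 1), (4, 7, 1), (2, 2, 0), (3, 3, 0),
      (1, 4, 1), (0, 4, 1), (1, 5, 1), (1, 2, 0), (0, 2, 0), (1, 3, 0), (0, 3, 0), (2, 6, 1),
      (3, 7, 1), (2, 7, 1), (4, 4, 0), (5, 5, 0), (1, 6, 1), (0, 6, 1), (1, 7, 1), (0, 7, 1),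
      (6, 6, 0), (7, 7, 0), (6, 7, 0)]⟩),
  (76, ⟨1, 3, [(0, 0), (3, 3), (19, 19), (22, 22), (57, 57), (60, 60), (76, 76),
    (79, 79)], 85, 85,
    [(0, 0, 0), (1, 1, 0), (3, 4, 1), (2, 4, 1), (3, 5, 1), (2, 5, 1), (2, 2, 0), (3, 3, 0),
      (1, 4, 1), (0, 4, 1), (1, 5, 1), (0, 5, 1), (0, 2, 0), (1, 3, 0), (3, 6, 1), (2, 6, 1),
      (3, 7, 1), (2, 7, 1), (4, 4, 0), (5, 5, 0), (1, 6, 1), (0, 6, 1), (1, 7, 1), (0, 7, 1),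
      (6, 6, 0), (7, 7, 0), (6, 7, 0)]⟩),
  (77, ⟨1, 3, [(0, 0), (3, 3), (19, 19), (29, 29), (32, 32), (48, 48), (51, 51),
    (80, 80)], 86, 86,
    [(0, 0, 0), (1, 1, 0), (1, 5, 1), (0, 5, 1), (1, 6, 1), (0, 6, 1), (2, 2, 0), (6, 7, 1),
      (5, 7, 1), (3, 3, 0), (4, 4, 0), (1, 2, 0), (2, 3, 0), (4, 7, 1), (2, 4, 0), (5, 5, 0),
      (6, 6, 0), (1, 3, 0), (0, 3, 0), (1, 4, 0), (0, 4, 0), (3, 5, 0), (1, 7, 1), (0, 7, 1),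
      (2, 5, 0), (7, 7, 0), (2, 6, 0)]⟩),
  (78, ⟨1, 3, [(0, 0), (6, 6), (18, 18), (24, 24), (27, 27), (45, 45), (60, 60),
    (78, 78)], 81, 81,
    [(0, 0, 0), (1, 5, 1), (1, 1, 0), (0, 5, 1), (0, 1, 0), (3, 6, 1), (2, 2, 0), (2, 6, 1),
      (3, 3, 0), (4, 4, 0), (1, 2, 0), (1, 6, 1), (0, 2, 0), (0, 6, 1), (1, 3, 0), (5, 5, 0),
      (0, 3, 0), (3, 7, 1), (0, 4, 0), (2, 7, 1), (6, 6, 0), (4, 5, 0), (3, 5, 0), (1, 7, 1),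
      (2, 5, 0), (0, 7, 1), (7, 7, 0)]⟩),
  (79, ⟨1, 3, [(0, 0), (10, 10), (13, 13), (23, 23), (59, 59), (69, 69), (72, 72),
    (82, 82)], 88, 88,
    [(0, 0, 0), (6, 7, 1), (3, 4, 1), (1, 1, 0), (2, 2, 0), (2, 4, 1), (0, 1, 0), (3, 3, 0),
      (3, 5, 1), (0, 4, 1), (2, 3, 0), (2, 5, 1), (1, 5, 1), (2, 6, 1), (0, 3, 0), (0, 5, 1),
      (3, 7, 1), (0, 6, 1), (4, 4, 0), (2, 7, 1), (1, 7, 1), (5, 5, 0), (6, 6, 0), (0, 7, 1),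
      (4, 5, 0), (7, 7, 0), (4, 6, 0)]⟩),
  (80, ⟨1, 3, [(0, 0), (10, 10), (30, 30), (33, 33), (40, 40), (53, 53), (63, 63),
    (83, 83)], 89, 89,
    [(0, 0, 0), (3, 6, 1), (1, 5, 1), (1, 1, 0), (6, 7, 1), (0, 5, 1), (0, 1, 0), (5, 7, 1),
      (1, 6, 1), (2, 2, 0), (3, 3, 0), (0, 6, 1), (4, 4, 0), (3, 7, 1), (2, 7, 1), (1, 2, 0),
      (5, 5, 0), (1, 3, 0), (0, 2, 0), (6, 6, 0), (1, 7, 1), (1, 4, 0), (3, 5, 0), (0, 7, 1),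
      (0, 4, 0), (7, 7, 0), (4, 6, 0)]⟩),
  (81, ⟨1, 3, [(0, 0), (9, 9), (28, 28), (34, 34), (37, 37), (53, 53), (62, 62),
    (81, 81)], 84, 84,
    [(0, 0, 0), (4, 6, 1), (3, 6, 1), (1, 1, 0), (1, 5, 1), (6, 7, 1), (0, 1, 0), (0, 5, 1),
      (5, 7, 1), (2, 2, 0), (1, 6, 1), (3, 3, 0), (4, 4, 0), (4, 7, 1), (3, 7, 1), (1, 2, 0),
      (2, 7, 1), (5, 5, 0), (0, 2, 0), (1, 3, 0), (6, 6, 0), (1, 4, 0), (1, 7, 1), (3, 5, 0),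
      (0, 4, 0), (0, 7, 1), (7, 7, 0)]⟩),
  (82, ⟨1, 3, [(0, 0), (6, 6), (19, 19), (25, 25), (28, 28), (47, 47), (63, 63),
    (82, 82)], 85, 85,
    [(0, 0, 0), (1, 5, 1), (1, 1, 0), (0, 5, 1), (4, 6, 1), (3, 6, 1), (2, 2, 0), (2, 6, 1),
      (3, 3, 0), (4, 4, 0), (1, 2, 0), (1, 6, 1), (0, 2, 0), (0, 6, 1), (1, 3, 0), (5, 5, 0),
      (4, 7, 1), (3, 7, 1), (0, 4, 0), (2, 7, 1), (6, 6, 0), (4, 5, 0), (3, 5, 0), (1, 7, 1),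
      (2, 5, 0), (0, 7, 1), (7, 7, 0)]⟩),
  (83, ⟨1, 3, [(0, 0), (19, 19), (29, 29), (35, 35), (48, 48), (54, 54), (64, 64),
    (83, 83)], 86, 86,
    [(0, 0, 0), (1, 5, 1), (3, 6, 1), (0, 4, 1), (2, 6, 1), (6, 7, 1), (1, 1, 0), (1, 6, 1),
      (5, 7, 1), (2, 2, 0), (4, 7, 1), (3, 3, 0), (1, 2, 0), (0, 6, 1), (3, 7, 1), (4, 4, 0),
      (1, 3, 0), (5, 5, 0), (0, 2, 0), (1, 7, 1), (6, 6, 0), (2, 4, 0), (0, 3, 0), (5, 6, 0),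
      (1, 4, 0), (0, 7, 1), (7, 7, 0)]⟩),
  (84, ⟨1, 3, [(0, 0), (10, 10), (16, 16), (26, 26), (58, 58), (68, 68), (74, 74),
    (84, 84)], 87, 87,
    [(0, 0, 0), (3, 4, 1), (6, 7, 1), (1, 1, 0), (2, 4, 1), (2, 2, 0), (0, 1, 0), (3, 5, 1),
      (3, 3, 0), (0, 4, 1), (2, 5, 1), (2, 3, 0), (1, 5, 1), (1, 3, 0), (2, 6, 1), (0, 5, 1),
      (0, 3, 0), (3, 7, 1), (4, 4, 0), (0, 6, 1), (2, 7, 1), (5, 5, 0), (1, 7, 1), (6, 6, 0),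
      (4, 5, 0), (0, 7, 1), (7, 7, 0)]⟩),
  (85, ⟨1, 3, [(0, 0), (23, 23), (26, 26), (39, 39), (49, 49), (62, 62), (65, 65),
    (88, 88)], 94, 94,
    [(0, 0, 0), (0, 4, 1), (1, 5, 1), (2, 6, 1), (1, 6, 1), (6, 7, 1), (5, 7, 1), (1, 1, 0),
      (2, 2, 0), (0, 5, 1), (4, 7, 1), (0, 6, 1), (3, 3, 0), (3, 7, 1), (0, 1, 0), (4, 4, 0),
      (0, 2, 0), (2, 7, 1), (1, 7, 1), (5, 5, 0), (6, 6, 0), (5, 6, 0), (2, 4, 0), (1, 4, 0),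
      (0, 3, 0), (0, 7, 1), (3, 5, 0), (7, 7, 0), (3, 6, 0)]⟩)]

theorem smallTab3_ok : (smallTab3.all fun p => p.2.chkSmall p.1) = true := by decide +kernel

def smallTab4 : List (ℕ × Cert) := [
  (86, ⟨1, 3, [(0, 0), (10, 10), (30, 30), (40, 40), (46, 46), (56, 56), (76, 76),
    (86, 86)], 89, 89,
    [(0, 0, 0), (0, 4, 1), (5, 6, 1), (1, 1, 0), (1, 5, 1), (4, 6, 1), (0, 1, 0), (0, 5, 1),
      (5, 7, 1), (2, 2, 0), (2, 6, 1), (4, 7, 1), (3, 3, 0), (3, 7, 1), (4, 4, 0), (1, 2, 0),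
      (1, 6, 1), (5, 5, 0), (0, 2, 0), (0, 6, 1), (4, 5, 0), (1, 3, 0), (1, 7, 1), (6, 6, 0),
      (0, 3, 0), (0, 7, 1), (7, 7, 0)]⟩),
  (87, ⟨1, 3, [(0, 0), (7, 7), (20, 20), (27, 27), (60, 60), (67, 67), (80, 80),
    (87, 87)], 90, 90,
    [(0, 0, 0), (6, 7, 1), (1, 1, 0), (2, 4, 1), (0, 1, 0), (3, 5, 1), (2, 2, 0), (2, 5, 1),
      (3, 3, 0), (0, 4, 1), (2, 3, 0), (1, 5, 1), (0, 2, 0), (0, 5, 1), (1, 3, 0), (2, 6, 1),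
      (0, 3, 0), (3, 7, 1), (4, 4, 0), (2, 7, 1), (5, 5, 0), (0, 6, 1), (4, 5, 0), (1, 7, 1),
      (6, 6, 0), (0, 7, 1), (7, 7, 0)]⟩),
  (88, ⟨1, 3, [(0, 0), (10, 10), (17, 17), (27, 27), (61, 61), (71, 71), (78, 78),
    (88, 88)], 91, 91,
    [(0, 0, 0), (3, 4, 1), (6, 7, 1), (1, 1, 0), (2, 4, 1), (2, 2, 0), (1, 4, 1), (1, 2, 0),
      (3, 3, 0), (0, 4, 1), (0, 2, 0), (3, 6, 1), (1, 5, 1), (1, 3, 0), (2, 6, 1), (0, 5, 1),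
      (1, 6, 1), (3, 7, 1), (4, 4, 0), (0, 6, 1), (2, 7, 1), (5, 5, 0), (1, 7, 1), (6, 6, 0),
      (4, 5, 0), (0, 7, 1), (7, 7, 0)]⟩),
  (89, ⟨1, 3, [(0, 0), (7, 7), (31, 31), (38, 38), (51, 51), (58, 58), (82, 82),
    (89, 89)], 92, 92,
    [(0, 0, 0), (6, 7, 1), (1, 1, 0), (0, 4, 1), (0, 1, 0), (1, 5, 1), (4, 6, 1), (0, 5, 1),
      (5, 7, 1), (2, 2, 0), (4, 7, 1), (3, 3, 0), (2, 6, 1), (2, 3, 0), (3, 7, 1), (4, 4, 0),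
      (1, 2, 0), (5, 5, 0), (0, 2, 0), (1, 6, 1), (1, 3, 0), (0, 6, 1), (0, 3, 0), (1, 7, 1),
      (6, 6, 0), (0, 7, 1), (7, 7, 0)]⟩),
  (90, ⟨1, 3, [(0, 0), (7, 7), (21, 21), (28, 28), (52, 52), (62, 62), (69, 69),
    (90, 90)], 93, 93,
    [(0, 0, 0), (1, 4, 1), (1, 1, 0), (0, 4, 1), (0, 1, 0), (6, 7, 1), (2, 2, 0), (5, 7, 1),
      (3, 3, 0), (0, 5, 1), (1, 2, 0), (1, 6, 1), (0, 2, 0), (0, 6, 1), (1, 3, 0), (4, 4, 0),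
      (0, 3, 0), (3, 7, 1), (5, 5, 0), (2, 7, 1), (6, 6, 0), (4, 5, 0), (3, 4, 0), (1, 7, 1),
      (2, 4, 0), (0, 7, 1), (7, 7, 0)]⟩),
  (91, ⟨1, 3, [(0, 0), (7, 7), (21, 21), (28, 28), (63, 63), (70, 70), (84, 84),
    (91, 91)], 94, 94,
    [(0, 0, 0), (3, 4, 1), (1, 1, 0), (2, 4, 1), (0, 1, 0), (3, 5, 1), (2, 2, 0), (1, 4, 1),
      (3, 3, 0), (0, 4, 1), (1, 2, 0), (1, 5, 1), (0, 2, 0), (0, 5, 1), (1, 3, 0), (2, 6, 1),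
      (0, 3, 0), (3, 7, 1), (4, 4, 0), (1, 6, 1), (5, 5, 0), (0, 6, 1), (4, 5, 0), (1, 7, 1),
      (6, 6, 0), (0, 7, 1), (7, 7, 0)]⟩),
  (92, ⟨1, 3, [(0, 0), (7, 7), (21, 21), (32, 32), (39, 39), (53, 53), (60, 60),
    (92, 92)], 95, 95,
    [(0, 0, 0), (1, 5, 1), (1, 1, 0), (0, 5, 1), (0, 1, 0), (1, 6, 1), (2, 2, 0), (0, 6, 1),
      (6, 7, 1), (3, 3, 0), (5, 7, 1), (4, 4, 0), (2, 3, 0), (3, 4, 0), (4, 7, 1), (5, 5, 0),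
      (1, 3, 0), (6, 6, 0), (0, 3, 0), (2, 7, 1), (1, 4, 0), (3, 5, 0), (0, 4, 0), (1, 7, 1),
      (2, 5, 0), (0, 7, 1), (7, 7, 0)]⟩),
  (93, ⟨1, 3, [(0, 0), (11, 11), (18, 18), (29, 29), (64, 64), (75, 75), (82, 82),
    (93, 93)], 96, 96,
    [(0, 0, 0), (4, 6, 1), (6, 7, 1), (1, 1, 0), (5, 7, 1), (2, 2, 0), (0, 1, 0), (4, 7, 1),
      (3, 3, 0), (0, 4, 1), (0, 2, 0), (2, 3, 0), (1, 5, 1), (1, 3, 0), (2, 6, 1), (0, 5, 1),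
      (0, 3, 0), (3, 7, 1), (4, 4, 0), (0, 6, 1), (2, 7, 1), (5, 5, 0), (1, 7, 1), (6, 6, 0),
      (4, 5, 0), (0, 7, 1), (7, 7, 0)]⟩),
  (94, ⟨1, 3, [(0, 0), (11, 11), (18, 18), (29, 29), (65, 65), (76, 76), (83, 83),
    (94, 94)], 97, 97,
    [(0, 0, 0), (3, 4, 1), (6, 7, 1), (1, 1, 0), (2, 4, 1), (2, 2, 0), (0, 1, 0), (3, 5, 1),
      (3, 3, 0), (0, 4, 1), (2, 5, 1), (2, 3, 0), (1, 5, 1), (1, 3, 0), (2, 6, 1), (0, 5, 1),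
      (0, 3, 0), (3, 7, 1), (4, 4, 0), (0, 6, 1), (2, 7, 1), (5, 5, 0), (1, 7, 1), (6, 6, 0),
      (4, 5, 0), (0, 7, 1), (7, 7, 0)]⟩),
  (95, ⟨1, 3, [(0, 0), (11, 11), (33, 33), (44, 44), (51, 51), (62, 62), (84, 84),
    (95, 95)], 98, 98,
    [(0, 0, 0), (0, 4, 1), (5, 6, 1), (1, 1, 0), (1, 5, 1), (4, 6, 1), (0, 1, 0), (0, 5, 1),
      (5, 7, 1), (2, 2, 0), (2, 6, 1), (4, 7, 1), (3, 3, 0), (3, 7, 1), (4, 4, 0), (1, 2, 0),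
      (1, 6, 1), (5, 5, 0), (0, 2, 0), (0, 6, 1), (4, 5, 0), (1, 3, 0), (1, 7, 1), (6, 6, 0),
      (0, 3, 0), (0, 7, 1), (7, 7, 0)]⟩),
  (96, ⟨1, 3, [(0, 0), (23, 23), (30, 30), (53, 53), (56, 56), (66, 66), (86, 86),
    (96, 96)], 99, 99,
    [(0, 0, 0), (2, 5, 1), (0, 3, 1), (1, 5, 1), (0, 4, 1), (4, 6, 1), (3, 6, 1), (1, 1, 0),
      (5, 7, 1), (2, 2, 0), (0, 5, 1), (1, 2, 0), (3, 7, 1), (2, 6, 1), (0, 1, 0), (1, 6, 1),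
      (3, 3, 0), (4, 4, 0), (0, 2, 0), (2, 7, 1), (5, 5, 0), (1, 7, 1), (0, 6, 1), (2, 3, 0),
      (3, 5, 0), (1, 3, 0), (6, 6, 0), (1, 4, 0), (0, 7, 1), (7, 7, 0)]⟩),
  (97, ⟨1, 3, [(0, 0), (10, 10), (17, 17), (27, 27), (70, 70), (80, 80), (87, 87),
    (97, 97)], 100, 100,
    [(0, 0, 0), (4, 6, 1), (6, 7, 1), (1, 1, 0), (5, 7, 1), (2, 2, 0), (0, 1, 0), (1, 2, 0),
      (3, 3, 0), (1, 4, 1), (0, 2, 0), (2, 3, 0), (0, 4, 1), (1, 3, 0), (3, 6, 1), (1, 5, 1),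
      (0, 3, 0), (2, 6, 1), (0, 5, 1), (1, 6, 1), (3, 7, 1), (4, 4, 0), (0, 6, 1), (2, 7, 1),
      (5, 5, 0), (1, 7, 1), (6, 6, 0), (4, 5, 0), (0, 7, 1), (7, 7, 0)]⟩),
  (98, ⟨1, 3, [(0, 0), (19, 19), (34, 34), (45, 45), (53, 53), (64, 64), (79, 79),
    (98, 98)], 101, 101,
    [(0, 0, 0), (4, 6, 1), (1, 5, 1), (3, 6, 1), (6, 7, 1), (1, 1, 0), (2, 6, 1), (0, 5, 1),
      (5, 7, 1), (2, 2, 0), (0, 1, 0), (4, 7, 1), (3, 3, 0), (1, 2, 0), (3, 7, 1), (4, 4, 0),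
      (0, 6, 1), (2, 7, 1), (5, 5, 0), (0, 2, 0), (2, 4, 0), (1, 7, 1), (6, 6, 0), (3, 5, 0),
      (1, 4, 0), (0, 3, 0), (2, 5, 0), (0, 7, 1), (7, 7, 0)]⟩),
  (99, ⟨1, 3, [(0, 0), (24, 24), (31, 31), (55, 55), (58, 58), (68, 68), (89, 89),
    (99, 99)], 102, 102,
    [(0, 0, 0), (2, 5, 1), (6, 7, 1), (1, 5, 1), (0, 4, 1), (4, 6, 1), (3, 6, 1), (1, 1, 0),
      (5, 7, 1), (2, 2, 0), (0, 5, 1), (1, 2, 0), (3, 7, 1), (2, 6, 1), (0, 1, 0), (1, 6, 1),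
      (3, 3, 0), (4, 4, 0), (0, 2, 0), (2, 7, 1), (5, 5, 0), (1, 7, 1), (0, 6, 1), (2, 3, 0),
      (3, 5, 0), (2, 4, 0), (1, 3, 0), (6, 6, 0), (1, 4, 0), (0, 7, 1), (7, 7, 0)]⟩),
  (100, ⟨0, 4, [(0, 0), (6, 6), (9, 9), (11, 11), (15, 15), (17, 17), (20, 20), (26, 26),
    (74, 74), (80, 80), (83, 83), (85, 85), (89, 89), (91, 91), (94, 94), (100, 100)], 101, 101,
    [(0, 0, 0), (9, 13, 1), (11, 14, 1), (8, 12, 1), (10, 14, 1), (14, 15, 1), (1, 1, 0),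
      (8, 13, 1), (13, 15, 1), (2, 2, 0), (12, 15, 1), (3, 3, 0), (0, 1, 0), (2, 3, 0),
      (11, 15, 1), (4, 4, 0), (1, 3, 0), (5, 5, 0), (0, 2, 0), (3, 4, 0), (6, 6, 0), (2, 4, 0),
      (0, 3, 0), (3, 5, 0), (1, 4, 0), (2, 5, 0), (7, 7, 0), (6, 8, 1), (1, 5, 0), (3, 6, 0),
      (0, 4, 0), (2, 6, 0), (4, 8, 1), (7, 9, 1), (0, 5, 0), (5, 7, 0), (3, 8, 1), (4, 7, 0),
      (2, 8, 1), (6, 9, 1), (0, 6, 0), (1, 8, 1), (5, 9, 1), (2, 7, 0), (4, 9, 1), (6, 10, 1),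
      (1, 7, 0), (0, 8, 1), (3, 9, 1), (6, 11, 1), (2, 9, 1), (7, 12, 1), (0, 7, 0), (1, 9, 1),
      (3, 10, 1), (7, 13, 1), (2, 10, 1), (6, 12, 1), (3, 11, 1), (0, 9, 1), (2, 11, 1),
      (6, 13, 1), (4, 12, 1), (1, 11, 1), (5, 13, 1), (0, 10, 1), (3, 12, 1), (6, 14, 1),
      (2, 12, 1), (0, 11, 1), (3, 13, 1), (1, 12, 1), (2, 13, 1), (7, 15, 1), (8, 8, 0),
      (1, 13, 1), (3, 14, 1), (0, 12, 1), (2, 14, 1), (6, 15, 1), (9, 9, 0), (0, 13, 1),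
      (5, 15, 1), (10, 10, 0), (4, 15, 1), (11, 11, 0), (8, 9, 0), (0, 14, 1), (3, 15, 1),
      (12, 12, 0), (2, 15, 1), (13, 13, 0), (8, 10, 0), (1, 15, 1), (14, 14, 0), (10, 12, 0),
      (8, 11, 0), (11, 13, 0), (9, 12, 0), (0, 15, 1), (15, 15, 0)]⟩),
  (101, ⟨1, 3, [(0, 0), (8, 8), (35, 35), (43, 43), (58, 58), (66, 66), (93, 93),
    (101, 101)], 104, 104,
    [(0, 0, 0), (1, 4, 1), (6, 7, 1), (1, 1, 0), (0, 4, 1), (0, 1, 0), (1, 5, 1), (4, 6, 1),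
      (0, 5, 1), (5, 7, 1), (2, 2, 0), (3, 6, 1), (4, 7, 1), (3, 3, 0), (2, 6, 1), (2, 3, 0),
      (3, 7, 1), (4, 4, 0), (1, 2, 0), (2, 7, 1), (5, 5, 0), (0, 2, 0), (1, 6, 1), (1, 3, 0),
      (0, 6, 1), (0, 3, 0), (1, 7, 1), (6, 6, 0), (2, 5, 0), (0, 7, 1), (7, 7, 0)]⟩),
  (102, ⟨1, 3, [(0, 0), (10, 10), (13, 13), (23, 23), (82, 82), (92, 92), (95, 95),
    (105, 105)], 111, 111,
    [(0, 0, 0), (6, 7, 1), (5, 7, 1), (1, 1, 0), (2, 2, 0), (4, 7, 1), (0, 1, 0), (3, 3, 0),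
      (0, 2, 0), (3, 4, 1), (2, 3, 0), (1, 3, 0), (2, 4, 1), (1, 4, 1), (0, 3, 0), (3, 5, 1),
      (0, 4, 1), (3, 6, 1), (2, 5, 1), (1, 5, 1), (2, 6, 1), (1, 6, 1), (0, 5, 1), (3, 7, 1),
      (0, 6, 1), (4, 4, 0), (2, 7, 1), (1, 7, 1), (5, 5, 0), (6, 6, 0), (0, 7, 1), (4, 5, 0),
      (7, 7, 0), (4, 6, 0)]⟩),
  (103, ⟨0, 4, [(0, 0), (3, 3), (4, 4), (7, 7), (25, 25), (28, 28), (29, 29), (32, 32),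
    (72, 72), (75, 75), (76, 76), (79, 79), (97, 97), (100, 100), (101, 101),
    (104, 104)], 106, 106,
    [(0, 0, 0), (14, 15, 1), (13, 15, 1), (1, 1, 0), (2, 2, 0), (1, 2, 0), (0, 1, 0), (3, 3, 0),
      (0, 2, 0), (6, 8, 1), (2, 3, 0), (1, 3, 0), (7, 9, 1), (4, 8, 1), (0, 3, 0), (6, 9, 1),
      (5, 9, 1), (6, 10, 1), (5, 10, 1), (4, 9, 1), (7, 11, 1), (4, 10, 1), (8, 13, 1),
      (6, 11, 1), (5, 11, 1), (4, 4, 0), (10, 15, 1), (4, 11, 1), (5, 5, 0), (6, 6, 0),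
      (5, 6, 0), (3, 8, 1), (7, 7, 0), (4, 6, 0), (2, 8, 1), (1, 8, 1), (5, 7, 0), (3, 9, 1),
      (0, 8, 1), (3, 10, 1), (2, 9, 1), (1, 9, 1), (2, 10, 1), (1, 10, 1), (0, 9, 1),
      (3, 11, 1), (0, 10, 1), (1, 4, 0), (2, 11, 1), (1, 11, 1), (0, 4, 0), (3, 6, 0),
      (0, 11, 1), (1, 5, 0), (2, 6, 0), (1, 6, 0), (0, 5, 0), (3, 7, 0), (0, 6, 0), (6, 12, 1),
      (2, 7, 0), (1, 7, 0), (7, 13, 1), (4, 12, 1), (0, 7, 0), (6, 13, 1), (5, 13, 1),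
      (6, 14, 1), (5, 14, 1), (4, 13, 1), (7, 15, 1), (4, 14, 1), (8, 8, 0), (6, 15, 1),
      (5, 15, 1), (9, 9, 0), (10, 10, 0), (4, 15, 1), (8, 9, 0), (11, 11, 0), (8, 10, 0),
      (3, 12, 1), (10, 11, 0), (9, 11, 0), (2, 12, 1), (1, 12, 1), (8, 11, 0), (3, 13, 1),
      (0, 12, 1), (3, 14, 1), (2, 13, 1), (1, 13, 1), (2, 14, 1), (1, 14, 1), (0, 13, 1),
      (3, 15, 1), (0, 14, 1), (12, 12, 0), (2, 15, 1), (1, 15, 1), (13, 13, 0), (14, 14, 0),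
      (0, 15, 1), (12, 13, 0), (15, 15, 0), (12, 14, 0)]⟩),
  (104, ⟨1, 3, [(0, 0), (11, 11), (18, 18), (29, 29), (75, 75), (86, 86), (93, 93),
    (104, 104)], 107, 107,
    [(0, 0, 0), (4, 6, 1), (6, 7, 1), (1, 1, 0), (5, 7, 1), (2, 2, 0), (0, 1, 0), (4, 7, 1),
      (3, 3, 0), (1, 4, 1), (0, 2, 0), (2, 3, 0), (0, 4, 1), (1, 3, 0), (3, 6, 1), (1, 5, 1),
      (0, 3, 0), (2, 6, 1), (0, 5, 1), (1, 6, 1), (3, 7, 1), (4, 4, 0), (0, 6, 1), (2, 7, 1),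
      (5, 5, 0), (1, 7, 1), (6, 6, 0), (4, 5, 0), (0, 7, 1), (7, 7, 0)]⟩),
  (105, ⟨1, 3, [(0, 0), (11, 11), (18, 18), (29, 29), (76, 76), (87, 87), (94, 94),
    (105, 105)], 108, 108,
    [(0, 0, 0), (4, 6, 1), (6, 7, 1), (1, 1, 0), (3, 4, 1), (2, 2, 0), (0, 1, 0), (2, 4, 1),
      (3, 3, 0), (1, 4, 1), (3, 5, 1), (2, 3, 0), (0, 4, 1), (2, 5, 1), (3, 6, 1), (1, 5, 1),
      (0, 3, 0), (2, 6, 1), (0, 5, 1), (1, 6, 1), (3, 7, 1), (4, 4, 0), (0, 6, 1), (2, 7, 1),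
      (5, 5, 0), (1, 7, 1), (6, 6, 0), (4, 5, 0), (0, 7, 1), (7, 7, 0)]⟩)]

theorem smallTab4_ok : (smallTab4.all fun p => p.2.chkSmall p.1) = true := by decide +kernel

def smallTab5 : List (ℕ × Cert) := [
  (106, ⟨0, 4, [(0, 0), (5, 5), (9, 9), (12, 12), (14, 14), (17, 17), (21, 21), (26, 26),
    (80, 80), (85, 85), (89, 89), (92, 92), (94, 94), (97, 97), (101, 101), (106, 106)], 107, 107,
    [(0, 0, 0), (8, 12, 1), (9, 13, 1), (11, 14, 1), (14, 15, 1), (1, 1, 0), (10, 14, 1),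
      (8, 13, 1), (13, 15, 1), (2, 2, 0), (0, 1, 0), (12, 15, 1), (3, 3, 0), (1, 2, 0),
      (4, 4, 0), (2, 3, 0), (3, 4, 0), (5, 5, 0), (0, 2, 0), (1, 3, 0), (4, 5, 0), (6, 6, 0),
      (3, 5, 0), (1, 4, 0), (0, 3, 0), (2, 5, 0), (7, 7, 0), (7, 8, 1), (0, 4, 0), (1, 5, 0),
      (3, 6, 0), (6, 7, 0), (6, 8, 1), (2, 6, 0), (0, 5, 0), (5, 7, 0), (5, 8, 1), (1, 6, 0),
      (4, 7, 0), (4, 8, 1), (3, 7, 0), (3, 8, 1), (0, 6, 0), (2, 7, 0), (2, 8, 1), (7, 10, 1),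
      (5, 9, 1), (1, 7, 0), (1, 8, 1), (4, 9, 1), (6, 10, 1), (3, 9, 1), (0, 7, 0), (0, 8, 1),
      (2, 9, 1), (7, 12, 1), (6, 11, 1), (4, 10, 1), (1, 9, 1), (3, 10, 1), (5, 11, 1),
      (7, 13, 1), (2, 10, 1), (0, 9, 1), (5, 12, 1), (3, 11, 1), (1, 10, 1), (4, 12, 1),
      (2, 11, 1), (3, 12, 1), (5, 13, 1), (0, 10, 1), (1, 11, 1), (4, 13, 1), (6, 14, 1),
      (3, 13, 1), (1, 12, 1), (0, 11, 1), (2, 13, 1), (7, 15, 1), (8, 8, 0), (0, 12, 1),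
      (1, 13, 1), (3, 14, 1), (6, 15, 1), (9, 9, 0), (2, 14, 1), (0, 13, 1), (5, 15, 1),
      (10, 10, 0), (1, 14, 1), (4, 15, 1), (11, 11, 0), (3, 15, 1), (12, 12, 0), (0, 14, 1),
      (2, 15, 1), (13, 13, 0), (8, 10, 0), (9, 11, 0), (1, 15, 1), (14, 14, 0), (11, 13, 0),
      (9, 12, 0), (8, 11, 0), (0, 15, 1), (15, 15, 0)]⟩),
  (107, ⟨0, 4, [(0, 0), (3, 3), (4, 4), (7, 7), (38, 38), (41, 41), (42, 42), (45, 45),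
    (63, 63), (66, 66), (67, 67), (70, 70), (101, 101), (104, 104), (105, 105),
    (108, 108)], 110, 110,
    [(0, 0, 0), (14, 15, 1), (13, 15, 1), (1, 1, 0), (2, 2, 0), (1, 2, 0), (0, 1, 0), (3, 3, 0),
      (0, 2, 0), (3, 8, 1), (2, 3, 0), (1, 3, 0), (2, 8, 1), (1, 8, 1), (0, 3, 0), (3, 9, 1),
      (0, 8, 1), (3, 10, 1), (2, 9, 1), (1, 9, 1), (2, 10, 1), (1, 10, 1), (0, 9, 1),
      (3, 11, 1), (0, 10, 1), (10, 12, 1), (2, 11, 1), (1, 11, 1), (11, 13, 1), (8, 12, 1),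
      (0, 11, 1), (10, 13, 1), (9, 13, 1), (10, 14, 1), (9, 14, 1), (8, 13, 1), (11, 15, 1),
      (8, 14, 1), (4, 4, 0), (10, 15, 1), (9, 15, 1), (5, 5, 0), (6, 6, 0), (5, 6, 0),
      (4, 5, 0), (7, 7, 0), (4, 6, 0), (7, 12, 1), (6, 7, 0), (5, 7, 0), (6, 12, 1), (5, 12, 1),
      (4, 7, 0), (7, 13, 1), (4, 12, 1), (7, 14, 1), (6, 13, 1), (5, 13, 1), (6, 14, 1),
      (5, 14, 1), (4, 13, 1), (7, 15, 1), (4, 14, 1), (8, 8, 0), (6, 15, 1), (5, 15, 1),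
      (9, 9, 0), (10, 10, 0), (4, 15, 1), (3, 4, 0), (11, 11, 0), (8, 10, 0), (2, 4, 0),
      (1, 4, 0), (9, 11, 0), (3, 5, 0), (0, 4, 0), (3, 6, 0), (2, 5, 0), (1, 5, 0), (2, 6, 0),
      (1, 6, 0), (0, 5, 0), (3, 7, 0), (0, 6, 0), (3, 12, 1), (2, 7, 0), (1, 7, 0), (2, 12, 1),
      (1, 12, 1), (0, 7, 0), (3, 13, 1), (0, 12, 1), (3, 14, 1), (2, 13, 1), (1, 13, 1),
      (2, 14, 1), (1, 14, 1), (0, 13, 1), (3, 15, 1), (0, 14, 1), (12, 12, 0), (2, 15, 1),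
      (1, 15, 1), (13, 13, 0), (14, 14, 0), (0, 15, 1), (12, 13, 0), (15, 15, 0), (12, 14, 0)]⟩),
  (108, ⟨2, 3, [(0, 0), (9, 9), (27, 27), (63, 63), (81, 81), (108, 108), (144, 144),
    (171, 171)], 243, 243,
    [(0, 0, 0), (1, 1, 0), (0, 1, 0), (2, 2, 0), (1, 6, 1), (0, 6, 1), (0, 2, 0), (3, 3, 0),
      (2, 7, 1), (4, 4, 0), (1, 7, 1), (0, 7, 1), (5, 5, 0), (1, 3, 0), (0, 3, 0), (2, 4, 0),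
      (6, 6, 0), (1, 4, 0), (0, 4, 0), (7, 7, 0), (5, 6, 0), (2, 5, 0), (6, 7, 0), (1, 5, 0),
      (0, 5, 0), (3, 6, 0), (5, 7, 0)]⟩),
  (109, ⟨2, 3, [(0, 0), (9, 9), (55, 55), (64, 64), (137, 137), (146, 146), (164, 164),
    (173, 173)], 246, 246,
    [(0, 0, 0), (1, 1, 0), (1, 4, 1), (0, 4, 1), (1, 5, 1), (0, 5, 1), (2, 2, 0), (3, 3, 0),
      (1, 6, 1), (0, 6, 1), (1, 7, 1), (1, 2, 0), (0, 2, 0), (1, 3, 0), (0, 3, 0), (4, 4, 0),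
      (5, 5, 0), (4, 5, 0), (6, 6, 0), (7, 7, 0), (5, 6, 0), (4, 6, 0), (5, 7, 0), (3, 4, 0),
      (2, 4, 0), (3, 5, 0), (2, 5, 0)]⟩),
  (110, ⟨2, 3, [(0, 0), (9, 9), (56, 56), (65, 65), (139, 139), (148, 148), (166, 166),
    (175, 175)], 249, 249,
    [(0, 0, 0), (1, 1, 0), (1, 4, 1), (0, 4, 1), (1, 5, 1), (0, 5, 1), (2, 2, 0), (3, 3, 0),
      (1, 6, 1), (0, 6, 1), (1, 7, 1), (1, 2, 0), (0, 2, 0), (1, 3, 0), (0, 3, 0), (4, 4, 0),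
      (5, 5, 0), (4, 5, 0), (6, 6, 0), (7, 7, 0), (5, 6, 0), (4, 6, 0), (5, 7, 0), (3, 4, 0),
      (2, 4, 0), (3, 5, 0), (2, 5, 0)]⟩),
  (111, ⟨2, 3, [(0, 0), (9, 9), (57, 57), (66, 66), (141, 141), (150, 150), (168, 168),
    (177, 177)], 252, 252,
    [(0, 0, 0), (1, 1, 0), (1, 4, 1), (0, 4, 1), (1, 5, 1), (0, 5, 1), (2, 2, 0), (3, 3, 0),
      (1, 6, 1), (0, 6, 1), (1, 7, 1), (1, 2, 0), (0, 2, 0), (1, 3, 0), (0, 3, 0), (4, 4, 0),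
      (5, 5, 0), (4, 5, 0), (6, 6, 0), (7, 7, 0), (5, 6, 0), (4, 6, 0), (5, 7, 0), (3, 4, 0),
      (2, 4, 0), (3, 5, 0), (2, 5, 0)]⟩),
  (112, ⟨2, 3, [(0, 0), (28, 28), (37, 37), (84, 84), (93, 93), (112, 112), (121, 121),
    (177, 177)], 251, 251,
    [(0, 0, 0), (4, 7, 1), (3, 7, 1), (1, 1, 0), (2, 2, 0), (1, 2, 0), (0, 1, 0), (2, 7, 1),
      (1, 7, 1), (3, 3, 0), (4, 4, 0), (0, 7, 1), (5, 5, 0), (6, 6, 0), (2, 3, 0), (1, 3, 0),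
      (2, 4, 0), (1, 4, 0), (0, 3, 0), (7, 7, 0), (2, 5, 0), (1, 5, 0), (2, 6, 0), (1, 6, 0),
      (0, 5, 0), (6, 7, 0), (0, 6, 0)]⟩),
  (113, ⟨2, 3, [(0, 0), (28, 28), (37, 37), (85, 85), (94, 94), (113, 113), (122, 122),
    (179, 179)], 254, 254,
    [(0, 0, 0), (4, 7, 1), (3, 7, 1), (1, 1, 0), (2, 2, 0), (1, 2, 0), (0, 1, 0), (2, 7, 1),
      (1, 7, 1), (3, 3, 0), (4, 4, 0), (0, 7, 1), (5, 5, 0), (6, 6, 0), (2, 3, 0), (1, 3, 0),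
      (2, 4, 0), (1, 4, 0), (0, 3, 0), (7, 7, 0), (2, 5, 0), (1, 5, 0), (2, 6, 0), (1, 6, 0),
      (0, 5, 0), (6, 7, 0), (5, 7, 0)]⟩),
  (114, ⟨2, 3, [(0, 0), (28, 28), (37, 37), (86, 86), (95, 95), (114, 114), (123, 123),
    (181, 181)], 257, 257,
    [(0, 0, 0), (4, 7, 1), (3, 7, 1), (1, 1, 0), (2, 2, 0), (1, 2, 0), (0, 1, 0), (2, 7, 1),
      (1, 7, 1), (3, 3, 0), (4, 4, 0), (0, 7, 1), (5, 5, 0), (6, 6, 0), (2, 3, 0), (1, 3, 0),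
      (2, 4, 0), (1, 4, 0), (0, 3, 0), (7, 7, 0), (2, 5, 0), (1, 5, 0), (2, 6, 0), (1, 6, 0),
      (0, 5, 0), (6, 7, 0), (5, 7, 0)]⟩),
  (115, ⟨2, 3, [(0, 0), (28, 28), (37, 37), (87, 87), (96, 96), (115, 115), (124, 124),
    (183, 183)], 260, 260,
    [(0, 0, 0), (4, 7, 1), (3, 7, 1), (1, 1, 0), (2, 2, 0), (1, 2, 0), (0, 1, 0), (2, 7, 1),
      (1, 7, 1), (3, 3, 0), (4, 4, 0), (0, 7, 1), (5, 5, 0), (6, 6, 0), (2, 3, 0), (1, 3, 0),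
      (2, 4, 0), (1, 4, 0), (0, 3, 0), (7, 7, 0), (2, 5, 0), (1, 5, 0), (2, 6, 0), (1, 6, 0),
      (0, 5, 0), (6, 7, 0), (5, 7, 0)]⟩),
  (116, ⟨2, 3, [(0, 0), (29, 29), (38, 38), (87, 87), (96, 96), (116, 116), (125, 125),
    (183, 183)], 259, 259,
    [(0, 0, 0), (4, 7, 1), (3, 7, 1), (1, 1, 0), (2, 2, 0), (1, 2, 0), (0, 1, 0), (2, 7, 1),
      (1, 7, 1), (3, 3, 0), (4, 4, 0), (0, 7, 1), (5, 5, 0), (6, 6, 0), (2, 3, 0), (1, 3, 0),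
      (2, 4, 0), (1, 4, 0), (0, 3, 0), (7, 7, 0), (2, 5, 0), (1, 5, 0), (2, 6, 0), (1, 6, 0),
      (0, 5, 0), (6, 7, 0), (0, 6, 0)]⟩),
  (117, ⟨2, 3, [(0, 0), (29, 29), (38, 38), (88, 88), (97, 97), (117, 117), (126, 126),
    (185, 185)], 262, 262,
    [(0, 0, 0), (4, 7, 1), (3, 7, 1), (1, 1, 0), (2, 2, 0), (1, 2, 0), (0, 1, 0), (2, 7, 1),
      (1, 7, 1), (3, 3, 0), (4, 4, 0), (0, 7, 1), (5, 5, 0), (6, 6, 0), (2, 3, 0), (1, 3, 0),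
      (2, 4, 0), (1, 4, 0), (0, 3, 0), (7, 7, 0), (2, 5, 0), (1, 5, 0), (2, 6, 0), (1, 6, 0),
      (0, 5, 0), (6, 7, 0), (5, 7, 0)]⟩),
  (118, ⟨2, 3, [(0, 0), (29, 29), (38, 38), (89, 89), (98, 98), (118, 118), (127, 127),
    (187, 187)], 265, 265,
    [(0, 0, 0), (4, 7, 1), (3, 7, 1), (1, 1, 0), (2, 2, 0), (1, 2, 0), (0, 1, 0), (2, 7, 1),
      (1, 7, 1), (3, 3, 0), (4, 4, 0), (0, 7, 1), (5, 5, 0), (6, 6, 0), (2, 3, 0), (1, 3, 0),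
      (2, 4, 0), (1, 4, 0), (0, 3, 0), (7, 7, 0), (2, 5, 0), (1, 5, 0), (2, 6, 0), (1, 6, 0),
      (0, 5, 0), (6, 7, 0), (5, 7, 0)]⟩),
  (119, ⟨2, 3, [(0, 0), (9, 9), (27, 27), (36, 36), (92, 92), (119, 119), (128, 128),
    (193, 193)], 276, 276,
    [(0, 0, 0), (1, 1, 0), (0, 1, 0), (2, 2, 0), (3, 3, 0), (1, 2, 0), (0, 2, 0), (1, 3, 0),
      (3, 7, 1), (2, 7, 1), (4, 4, 0), (1, 7, 1), (0, 7, 1), (5, 5, 0), (6, 6, 0), (5, 6, 0),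
      (3, 4, 0), (2, 4, 0), (4, 6, 0), (1, 4, 0), (0, 4, 0), (7, 7, 0), (3, 5, 0), (2, 5, 0),
      (3, 6, 0), (1, 5, 0), (0, 5, 0), (1, 6, 0), (6, 7, 0), (5, 7, 0)]⟩),
  (120, ⟨2, 3, [(0, 0), (30, 30), (39, 39), (90, 90), (99, 99), (120, 120), (129, 129),
    (189, 189)], 267, 267,
    [(0, 0, 0), (4, 7, 1), (3, 7, 1), (1, 1, 0), (2, 2, 0), (1, 2, 0), (0, 1, 0), (2, 7, 1),
      (1, 7, 1), (3, 3, 0), (4, 4, 0), (0, 7, 1), (5, 5, 0), (6, 6, 0), (2, 3, 0), (1, 3, 0),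
      (2, 4, 0), (1, 4, 0), (0, 3, 0), (7, 7, 0), (2, 5, 0), (1, 5, 0), (2, 6, 0), (1, 6, 0),
      (0, 5, 0), (6, 7, 0), (0, 6, 0)]⟩),
  (121, ⟨2, 3, [(0, 0), (30, 30), (39, 39), (91, 91), (100, 100), (121, 121), (130, 130),
    (191, 191)], 270, 270,
    [(0, 0, 0), (4, 7, 1), (3, 7, 1), (1, 1, 0), (2, 2, 0), (1, 2, 0), (0, 1, 0), (2, 7, 1),
      (1, 7, 1), (3, 3, 0), (4, 4, 0), (0, 7, 1), (5, 5, 0), (6, 6, 0), (2, 3, 0), (1, 3, 0),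
      (2, 4, 0), (1, 4, 0), (0, 3, 0), (7, 7, 0), (2, 5, 0), (1, 5, 0), (2, 6, 0), (1, 6, 0),
      (0, 5, 0), (6, 7, 0), (5, 7, 0)]⟩),
  (122, ⟨1, 4, [(0, 0), (19, 19), (29, 29), (48, 48), (55, 55), (74, 74), (84, 84), (87, 87),
    (103, 103), (106, 106), (116, 116), (135, 135), (142, 142), (161, 161), (171, 171),
    (190, 190)], 261, 261,
    [(0, 0, 0), (1, 12, 1), (5, 14, 1), (0, 11, 1), (3, 13, 1), (8, 15, 1), (1, 1, 0),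
      (0, 12, 1), (4, 14, 1), (2, 2, 0), (3, 14, 1), (6, 15, 1), (1, 2, 0), (1, 13, 1),
      (5, 15, 1), (3, 3, 0), (2, 14, 1), (4, 4, 0), (0, 2, 0), (1, 14, 1), (4, 15, 1),
      (2, 3, 0), (3, 15, 1), (5, 5, 0), (1, 3, 0), (0, 14, 1), (6, 6, 0), (7, 7, 0), (1, 4, 0),
      (5, 6, 0), (0, 3, 0), (1, 15, 1), (8, 8, 0), (9, 9, 0), (0, 4, 0), (4, 6, 0), (10, 10, 0),
      (3, 6, 0), (6, 8, 0), (3, 7, 0), (1, 5, 0), (5, 8, 0), (11, 11, 0), (2, 6, 0),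
      (12, 12, 0), (2, 7, 0), (1, 6, 0), (4, 8, 0), (1, 7, 0), (3, 8, 0), (13, 13, 0),
      (3, 9, 0), (0, 6, 0), (14, 14, 0), (0, 7, 0), (9, 12, 0), (8, 12, 0), (3, 10, 0),
      (1, 8, 0), (15, 15, 0), (1, 9, 0), (7, 12, 0), (6, 12, 0), (2, 10, 0), (11, 14, 0),
      (5, 12, 0), (1, 10, 0), (9, 13, 0), (8, 13, 0), (3, 11, 0), (10, 14, 0), (4, 12, 0),
      (0, 10, 0), (3, 12, 0), (8, 14, 0), (2, 11, 0), (11, 15, 0), (5, 13, 0), (1, 11, 0),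
      (2, 12, 0), (6, 14, 0)]⟩),
  (123, ⟨1, 4, [(0, 0), (29, 29), (36, 36), (39, 39), (65, 65), (68, 68), (75, 75), (88, 88),
    (104, 104), (117, 117), (124, 124), (127, 127), (153, 153), (156, 156), (163, 163),
    (192, 192)], 264, 264,
    [(0, 0, 0), (3, 12, 1), (2, 12, 1), (3, 13, 1), (1, 12, 1), (8, 15, 1), (1, 13, 1),
      (3, 14, 1), (2, 14, 1), (1, 1, 0), (1, 14, 1), (2, 2, 0), (3, 3, 0), (1, 2, 0),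
      (6, 15, 1), (1, 3, 0), (5, 15, 1), (4, 15, 1), (0, 1, 0), (0, 14, 1), (4, 4, 0),
      (5, 5, 0), (0, 2, 0), (6, 6, 0), (0, 3, 0), (5, 6, 0), (4, 6, 0), (7, 7, 0), (1, 15, 1),
      (2, 4, 0), (3, 5, 0), (1, 4, 0), (8, 8, 0), (5, 7, 0), (3, 6, 0), (2, 6, 0), (9, 9, 0),
      (1, 6, 0), (10, 10, 0), (11, 11, 0), (9, 10, 0), (6, 8, 0), (3, 7, 0), (2, 7, 0),
      (8, 10, 0), (1, 7, 0), (0, 6, 0), (12, 12, 0), (13, 13, 0), (7, 10, 0), (14, 14, 0),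
      (5, 9, 0), (13, 14, 0), (6, 10, 0), (0, 7, 0), (5, 10, 0), (4, 10, 0), (5, 11, 0),
      (4, 11, 0), (15, 15, 0), (3, 9, 0), (11, 14, 0), (8, 12, 0), (1, 9, 0), (3, 10, 0),
      (2, 10, 0), (3, 11, 0), (1, 10, 0), (8, 14, 0), (1, 11, 0), (13, 15, 0), (6, 12, 0),
      (0, 9, 0), (5, 12, 0), (4, 12, 0), (5, 13, 0), (0, 10, 0), (6, 14, 0), (0, 11, 0),
      (5, 14, 0), (4, 14, 0)]⟩),
  (124, ⟨2, 3, [(0, 0), (31, 31), (40, 40), (93, 93), (102, 102), (124, 124), (133, 133),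
    (195, 195)], 275, 275,
    [(0, 0, 0), (4, 7, 1), (3, 7, 1), (1, 1, 0), (2, 2, 0), (1, 2, 0), (0, 1, 0), (2, 7, 1),
      (1, 7, 1), (3, 3, 0), (4, 4, 0), (0, 7, 1), (5, 5, 0), (6, 6, 0), (2, 3, 0), (1, 3, 0),
      (2, 4, 0), (1, 4, 0), (0, 3, 0), (7, 7, 0), (2, 5, 0), (1, 5, 0), (2, 6, 0), (1, 6, 0),
      (0, 5, 0), (6, 7, 0), (0, 6, 0)]⟩),
  (125, ⟨1, 4, [(0, 0), (10, 10), (35, 35), (45, 45), (63, 63), (73, 73), (95, 95), (98, 98),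
    (105, 105), (108, 108), (130, 130), (140, 140), (158, 158), (168, 168), (193, 193),
    (203, 203)], 284, 284,
    [(0, 0, 0), (7, 14, 1), (3, 13, 1), (1, 1, 0), (9, 15, 1), (2, 13, 1), (0, 1, 0),
      (7, 15, 1), (6, 15, 1), (5, 14, 1), (0, 12, 1), (2, 2, 0), (4, 14, 1), (1, 13, 1),
      (3, 3, 0), (5, 15, 1), (0, 13, 1), (2, 3, 0), (4, 15, 1), (1, 2, 0), (4, 4, 0),
      (2, 14, 1), (0, 2, 0), (5, 5, 0), (3, 15, 1), (3, 4, 0), (4, 5, 0), (2, 15, 1), (2, 4, 0),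
      (1, 14, 1), (6, 6, 0), (7, 7, 0), (0, 14, 1), (8, 8, 0), (9, 9, 0), (1, 15, 1), (1, 4, 0),
      (7, 9, 0), (0, 15, 1), (0, 4, 0), (4, 6, 0), (10, 10, 0), (4, 7, 0), (5, 8, 0),
      (11, 11, 0), (5, 9, 0), (4, 8, 0), (3, 7, 0), (2, 6, 0), (12, 12, 0), (7, 10, 0),
      (3, 8, 0), (13, 13, 0), (9, 11, 0), (11, 12, 0), (1, 6, 0), (7, 11, 0), (1, 7, 0),
      (0, 6, 0), (14, 14, 0), (4, 10, 0), (1, 8, 0), (15, 15, 0), (5, 11, 0), (8, 12, 0),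
      (3, 10, 0), (7, 12, 0), (6, 12, 0), (2, 10, 0), (9, 13, 0), (8, 13, 0), (3, 11, 0),
      (7, 13, 0), (6, 13, 0), (2, 11, 0), (12, 15, 0), (1, 10, 0), (4, 12, 0), (10, 14, 0),
      (0, 10, 0), (5, 13, 0), (11, 15, 0), (1, 11, 0), (4, 13, 0), (10, 15, 0), (0, 11, 0),
      (2, 12, 0)]⟩)]

theorem smallTab5_ok : (smallTab5.all fun p => p.2.chkSmall p.1) = true := by decide +kernel

def smallTab : List (ℕ × Cert) :=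
  smallTab0 ++ smallTab1 ++ smallTab2 ++ smallTab3 ++ smallTab4 ++ smallTab5

theorem smallTab_ok : (smallTab.all fun p => p.2.chkSmall p.1) = true := by
  unfold smallTab
  simp only [List.all_append, Bool.and_eq_true]
  exact ⟨⟨⟨⟨⟨smallTab0_ok, smallTab1_ok⟩, smallTab2_ok⟩, smallTab3_ok⟩, smallTab4_ok⟩, smallTab5_ok⟩

end Pool.Agent.Zk78
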